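import Mathlib

/-!
Derivatives along lines of the functions `(|A|²+ε²)^γ conj A` and
`exp((|A|²+ε²)^α) (|A'|²+η²)^(1/2)`, where `A, A'` are analytic.
-/

namespace Pool.Agent.Lib.MP_7d928b_an

open scoped ComplexConjugate

noncomputable section

/-- `|a|² + ε²`. -/
def S (ε : ℝ) (a : ℂ) : ℝ := Complex.normSq a + ε ^ 2

lemma S_pos {ε : ℝ} (hε : 0 < ε) (a : ℂ) : 0 < S ε a := by
  unfold S
  have := Complex.normSq_nonneg a
  positivity

def SD (ζ a b : ℂ) : ℝ := 2 * (conj a * (ζ * b)).re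

def SDD (ζ a b c : ℂ) : ℝ := 2 * ((conj (ζ * b) * (ζ * b)).re + (conj a * (ζ * (ζ * c))).re)

lemma hasDerivAt_re {A : ℝ → ℂ} {a' : ℂ} {t : ℝ} (hA : HasDerivAt A a' t) :
    HasDerivAt (fun t => (A t).re) a'.re t :=
  Complex.reCLM.hasFDerivAt.comp_hasDerivAt t hA

lemma hasDerivAt_im {A : ℝ → ℂ} {a' : ℂ} {t : ℝ} (hA : HasDerivAt A a' t) :
    HasDerivAt (fun t => (A t).im) a'.im t :=
  Complex.imCLM.hasFDerivAt.comp_hasDerivAt t hA

lemma hasDerivAt_conj {A : ℝ → ℂ} {a' : ℂ} {t : ℝ} (hA : HasDerivAt A a' t) :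
    HasDerivAt (fun t => conj (A t)) (conj a') t :=
  (Complex.conjCLE : ℂ →L[ℝ] ℂ).hasFDerivAt.comp_hasDerivAt t hA

lemma hasDerivAt_S {A : ℝ → ℂ} {ε : ℝ} {ζ b : ℂ} {t : ℝ} (hA : HasDerivAt A (ζ * b) t) :
    HasDerivAt (fun t => S ε (A t)) (SD ζ (A t) b) t := by
  have h1 := hasDerivAt_re hA
  have h2 := hasDerivAt_im hA
  have h3 := ((h1.mul h1).add (h2.mul h2)).add_const (ε ^ 2)
  have e : (fun t => S ε (A t)) = fun t => (A t).re * (A t).re + (A t).im * (A t).im + ε ^ 2 := by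
    funext t; simp [S, Complex.normSq_apply]
  rw [e]
  refine h3.congr_deriv ?_
  simp only [SD, Complex.mul_re, Complex.conj_re, Complex.conj_im]
  ring

lemma hasDerivAt_SD {A B : ℝ → ℂ} {ζ c : ℂ} {t : ℝ} (hA : HasDerivAt A (ζ * B t) t)
    (hB : HasDerivAt B (ζ * c) t) :
    HasDerivAt (fun t => SD ζ (A t) (B t)) (SDD ζ (A t) (B t) c) t := by
  have h1 := (hasDerivAt_conj hA).mul (hB.const_mul ζ)
  have h2 := (hasDerivAt_re h1).const_mul 2
  refine h2.congr_deriv ?_
  simp only [SDD, Complex.add_re]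

lemma SDD_sum (a b c : ℂ) : SDD 1 a b c + SDD Complex.I a b c = 4 * Complex.normSq b := by
  simp only [SDD, one_mul, Complex.mul_re, Complex.mul_im, Complex.conj_re, Complex.conj_im,
    Complex.I_re, Complex.I_im, Complex.normSq_apply]
  ring

lemma SD_sq_sum (a b : ℂ) :
    SD 1 a b ^ 2 + SD Complex.I a b ^ 2 = 4 * Complex.normSq a * Complex.normSq b := by
  simp only [SD, one_mul, Complex.mul_re, Complex.mul_im, Complex.conj_re, Complex.conj_im,
    Complex.I_re, Complex.I_im, Complex.normSq_apply]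
  ring

/-! ### The function `v = (|A|²+ε²)^γ conj A` -/

def V (γ ε : ℝ) (a : ℂ) : ℂ := ((S ε a) ^ γ : ℝ) * conj a

def VD (γ ε : ℝ) (ζ a b : ℂ) : ℂ :=
  ((SD ζ a b * γ * (S ε a) ^ (γ - 1) : ℝ) : ℂ) * conj a + ((S ε a) ^ γ : ℝ) * conj (ζ * b)

def VDD (γ ε : ℝ) (ζ a b c : ℂ) : ℂ :=
  ((SDD ζ a b c * γ * (S ε a) ^ (γ - 1) +
      SD ζ a b * γ * (SD ζ a b * (γ - 1) * (S ε a) ^ (γ - 1 - 1)) : ℝ) : ℂ) * conj a
    + ((SD ζ a b * γ * (S ε a) ^ (γ - 1) : ℝ) : ℂ) * conj (ζ * b)
    + (((SD ζ a b * γ * (S ε a) ^ (γ - 1) : ℝ) : ℂ) * conj (ζ * b)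
      + ((S ε a) ^ γ : ℝ) * conj (ζ * (ζ * c)))

lemma hasDerivAt_V {A : ℝ → ℂ} {γ ε : ℝ} (hε : 0 < ε) {ζ b : ℂ} {t : ℝ}
    (hA : HasDerivAt A (ζ * b) t) :
    HasDerivAt (fun t => V γ ε (A t)) (VD γ ε ζ (A t) b) t := by
  have h1 := ((hasDerivAt_S (ε := ε) hA).rpow_const (p := γ) (Or.inl (S_pos hε _).ne')).ofReal_comp
  exact h1.mul (hasDerivAt_conj hA)

lemma hasDerivAt_VD {A B : ℝ → ℂ} {γ ε : ℝ} (hε : 0 < ε) {ζ c : ℂ} {t : ℝ}
    (hA : HasDerivAt A (ζ * B t) t) (hB : HasDerivAt B (ζ * c) t) :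
    HasDerivAt (fun t => VD γ ε ζ (A t) (B t)) (VDD γ ε ζ (A t) (B t) c) t := by
  have hS := hasDerivAt_S (ε := ε) hA
  have hSD := hasDerivAt_SD hA hB
  have h1 := (hS.rpow_const (p := γ) (Or.inl (S_pos hε _).ne')).ofReal_comp
  have h2 := (((hSD.mul_const γ).mul
    (hS.rpow_const (p := γ - 1) (Or.inl (S_pos hε _).ne')))).ofReal_comp
  have h3 := (h2.mul (hasDerivAt_conj hA)).add (h1.mul (hasDerivAt_conj (hB.const_mul ζ)))
  exact h3

/-- `r² Δ v` for `v = (|A|²+ε²)^γ conj A`. -/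
def LV (γ ε : ℝ) (a b : ℂ) : ℂ :=
  ((4 * γ * Complex.normSq b * (S ε a) ^ (γ - 1 - 1) *
    ((γ + 1) * Complex.normSq a + 2 * ε ^ 2) : ℝ) : ℂ) * conj a

lemma VDD_sum {γ ε : ℝ} (hε : 0 < ε) (a b c : ℂ) :
    VDD γ ε 1 a b c + VDD γ ε Complex.I a b c = LV γ ε a b := by
  have hS := S_pos hε a
  have hp : (S ε a) ^ (γ - 1) = (S ε a) ^ (γ - 1 - 1) * S ε a := by
    rw [← Real.rpow_add_one hS.ne']; ring_nf
  unfold VDD LV
  rw [hp]
  set P : ℝ := (S ε a) ^ (γ - 1 - 1) with hP
  set Q : ℝ := (S ε a) ^ γ with hQ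
  have hSdef : S ε a = a.re * a.re + a.im * a.im + ε ^ 2 := by
    simp [S, Complex.normSq_apply]
  rw [hSdef]
  apply Complex.ext
  · simp only [SDD, SD, one_mul, Complex.mul_re, Complex.mul_im, Complex.conj_re, Complex.conj_im,
      Complex.I_re, Complex.I_im, Complex.normSq_apply, Complex.add_re, Complex.add_im,
      Complex.ofReal_re, Complex.ofReal_im]
    ring
  · simp only [SDD, SD, one_mul, Complex.mul_re, Complex.mul_im, Complex.conj_re, Complex.conj_im,
      Complex.I_re, Complex.I_im, Complex.normSq_apply, Complex.add_re, Complex.add_im,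
      Complex.ofReal_re, Complex.ofReal_im]
    ring

/-! ### The function `h = exp(S_ε(A)^α) * S_η(A')^(1/2)` -/

/-- log of `h`. -/
def Ph (α ε η : ℝ) (a a' : ℂ) : ℝ := (S ε a) ^ α + (1 / 2) * Real.log (S η a')

def PhD (α ε η : ℝ) (ζ a b a' b' : ℂ) : ℝ :=
  SD ζ a b * α * (S ε a) ^ (α - 1) + (1 / 2) * (SD ζ a' b' / S η a')

def PhDD (α ε η : ℝ) (ζ a b c a' b' c' : ℂ) : ℝ :=
  (SDD ζ a b c * α * (S ε a) ^ (α - 1) +
      SD ζ a b * α * (SD ζ a b * (α - 1) * (S ε a) ^ (α - 1 - 1))) +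
    (1 / 2) * ((SDD ζ a' b' c' * S η a' - SD ζ a' b' * SD ζ a' b') / (S η a') ^ 2)

lemma hasDerivAt_Ph {A A' : ℝ → ℂ} {α ε η : ℝ} (hε : 0 < ε) (hη : 0 < η) {ζ b b' : ℂ} {t : ℝ}
    (hA : HasDerivAt A (ζ * b) t) (hA' : HasDerivAt A' (ζ * b') t) :
    HasDerivAt (fun t => Ph α ε η (A t) (A' t)) (PhD α ε η ζ (A t) b (A' t) b') t := by
  have h1 := ((hasDerivAt_S (ε := ε) hA).rpow_const (p := α) (Or.inl (S_pos hε _).ne'))
  have h2 := ((hasDerivAt_S (ε := η) hA').log (S_pos hη _).ne').const_mul (1 / 2)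
  exact h1.add h2

lemma hasDerivAt_PhD {A B A' B' : ℝ → ℂ} {α ε η : ℝ} (hε : 0 < ε) (hη : 0 < η) {ζ c c' : ℂ} {t : ℝ}
    (hA : HasDerivAt A (ζ * B t) t) (hB : HasDerivAt B (ζ * c) t)
    (hA' : HasDerivAt A' (ζ * B' t) t) (hB' : HasDerivAt B' (ζ * c') t) :
    HasDerivAt (fun t => PhD α ε η ζ (A t) (B t) (A' t) (B' t))
      (PhDD α ε η ζ (A t) (B t) c (A' t) (B' t) c') t := by
  have hS := hasDerivAt_S (ε := ε) hA
  have hSD := hasDerivAt_SD hA hB
  have hS' := hasDerivAt_S (ε := η) hA'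
  have hSD' := hasDerivAt_SD hA' hB'
  have h2 := ((hSD.mul_const α).mul
    (hS.rpow_const (p := α - 1) (Or.inl (S_pos hε _).ne')))
  have h3 := (hSD'.div hS' (S_pos hη _).ne').const_mul (1 / 2)
  exact h2.add h3

/-- The sum of the second derivatives of `Ph`. -/
def LPh (α ε η : ℝ) (a b a' b' : ℂ) : ℝ :=
  (S ε a) ^ (α - 1 - 1) * (4 * α * Complex.normSq b) * (S ε a + (α - 1) * Complex.normSq a)
    + (1 / 2) * (4 * Complex.normSq b' * (S η a' - Complex.normSq a') / (S η a') ^ 2)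

lemma PhDD_sum {α ε η : ℝ} (hε : 0 < ε) (a b c a' b' c' : ℂ) :
    PhDD α ε η 1 a b c a' b' c' + PhDD α ε η Complex.I a b c a' b' c' =
      LPh α ε η a b a' b' := by
  have hS := S_pos hε a
  have hp : (S ε a) ^ (α - 1) = (S ε a) ^ (α - 1 - 1) * S ε a := by
    rw [← Real.rpow_add_one hS.ne']; ring_nf
  have e1 := SDD_sum a b c
  have e2 := SD_sq_sum a b
  have e1' := SDD_sum a' b' c'
  have e2' := SD_sq_sum a' b'
  unfold PhDD LPh
  rw [hp]
  have : (1 / 2 : ℝ) * ((SDD 1 a' b' c' * S η a' - SD 1 a' b' * SD 1 a' b') / (S η a') ^ 2) +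
    (1 / 2) * ((SDD Complex.I a' b' c' * S η a' - SD Complex.I a' b' * SD Complex.I a' b')
      / (S η a') ^ 2) =
    (1 / 2) * (4 * Complex.normSq b' * (S η a' - Complex.normSq a') / (S η a') ^ 2) := by
    rw [← mul_add, ← add_div]
    congr 2
    linear_combination (S η a') * e1' - e2'
  linear_combination this + α * (S ε a) ^ (α - 1 - 1) * S ε a * e1 +
    α * (α - 1) * (S ε a) ^ (α - 1 - 1) * e2

lemma LPh_ge {α ε η : ℝ} (hα : 0 < α) (hε : 0 < ε) (hη : 0 < η) (a b a' b' : ℂ) :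
    4 * α * min α 1 * (S ε a) ^ (α - 1) * Complex.normSq b ≤ LPh α ε η a b a' b' := by
  have hS := S_pos hε a
  have hS' := S_pos hη a'
  have hp : (S ε a) ^ (α - 1) = (S ε a) ^ (α - 1 - 1) * S ε a := by
    rw [← Real.rpow_add_one hS.ne']; ring_nf
  have hPpos : 0 < (S ε a) ^ (α - 1 - 1) := Real.rpow_pos_of_pos hS _
  unfold LPh
  have hna := Complex.normSq_nonneg a
  have hnb := Complex.normSq_nonneg b
  have hnb' := Complex.normSq_nonneg b'
  have h2 : 0 ≤ (1 / 2 : ℝ) * (4 * Complex.normSq b' * (S η a' - Complex.normSq a') / (S η a') ^ 2) := by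
    have : 0 ≤ S η a' - Complex.normSq a' := by simp [S]; positivity
    positivity
  have h3 : min α 1 * S ε a ≤ S ε a + (α - 1) * Complex.normSq a := by
    have hd : S ε a = Complex.normSq a + ε ^ 2 := rfl
    have hε2 : 0 ≤ ε ^ 2 := by positivity
    rcases le_total α 1 with h | h
    · rw [min_eq_left h]; nlinarith
    · rw [min_eq_right h]; nlinarith
  have h4 : 4 * α * min α 1 * (S ε a) ^ (α - 1) * Complex.normSq b =
      (S ε a) ^ (α - 1 - 1) * (4 * α * Complex.normSq b) * (min α 1 * S ε a) := by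
    rw [hp]; ring
  rw [h4]
  have h5 : 0 ≤ (S ε a) ^ (α - 1 - 1) * (4 * α * Complex.normSq b) := by positivity
  nlinarith [mul_le_mul_of_nonneg_left h3 h5]

/-- The complex gradient of `Ph`. -/
def WPh (α ε η : ℝ) (a b a' b' : ℂ) : ℂ :=
  ((2 * α * (S ε a) ^ (α - 1) : ℝ) : ℂ) * (conj a * b) + (((S η a')⁻¹ : ℝ) : ℂ) * (conj a' * b')

lemma PhD_sq_sum (α ε η : ℝ) (a b a' b' : ℂ) :
    PhD α ε η 1 a b a' b' ^ 2 + PhD α ε η Complex.I a b a' b' ^ 2 =
      Complex.normSq (WPh α ε η a b a' b') := by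
  unfold PhD WPh
  set P : ℝ := (S ε a) ^ (α - 1) with hP
  simp only [SD, one_mul, div_eq_mul_inv]
  set Q : ℝ := (S η a')⁻¹ with hQ
  simp only [Complex.normSq_apply, Complex.mul_re, Complex.mul_im, Complex.add_re, Complex.add_im,
    Complex.ofReal_re, Complex.ofReal_im, Complex.conj_re, Complex.conj_im, Complex.I_re,
    Complex.I_im]
  ring

lemma LPh_mul (α ε η : ℝ) (z a b a' b' : ℂ) :
    LPh α ε η a (z * b) a' (z * b') = Complex.normSq z * LPh α ε η a b a' b' := by
  unfold LPh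
  rw [Complex.normSq_mul, Complex.normSq_mul]
  ring

lemma WPh_mul (α ε η : ℝ) (z a b a' b' : ℂ) :
    WPh α ε η a (z * b) a' (z * b') = z * WPh α ε η a b a' b' := by
  unfold WPh
  ring

lemma LV_mul (γ ε : ℝ) (z a b : ℂ) :
    LV γ ε a (z * b) = (Complex.normSq z : ℂ) * LV γ ε a b := by
  unfold LV
  rw [Complex.normSq_mul]
  push_cast
  ring

/-- Comparison of `|LV|` with the density coming from `Ph`. -/
lemma norm_LV_le {γ ε : ℝ} (hγ : -(1 / 2) < γ) (hε : 0 < ε) (a b : ℂ) :
    ‖LV γ ε a b‖ ≤ 4 * |γ| * max (γ + 1) 2 * (S ε a) ^ (γ + 1 / 2 - 1) * Complex.normSq b := by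
  have hS := S_pos hε a
  have hna := Complex.normSq_nonneg a
  have hnb := Complex.normSq_nonneg b
  unfold LV
  rw [norm_mul, Complex.norm_real, Real.norm_eq_abs, RCLike.norm_conj]
  have hnorm : ‖a‖ ≤ (S ε a) ^ (1 / 2 : ℝ) := by
    rw [← Real.sqrt_eq_rpow]
    apply Real.le_sqrt_of_sq_le
    rw [← Complex.normSq_eq_norm_sq]
    simp [S]; positivity
  have hin : 0 ≤ (γ + 1) * Complex.normSq a + 2 * ε ^ 2 := by
    have : 0 < γ + 1 := by linarith
    positivity
  have hin2 : (γ + 1) * Complex.normSq a + 2 * ε ^ 2 ≤ max (γ + 1) 2 * S ε a := by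
    have hd : S ε a = Complex.normSq a + ε ^ 2 := rfl
    rw [hd, mul_add]
    have h1 : (γ + 1) * Complex.normSq a ≤ max (γ + 1) 2 * Complex.normSq a :=
      mul_le_mul_of_nonneg_right (le_max_left _ _) hna
    have h2 : 2 * ε ^ 2 ≤ max (γ + 1) 2 * ε ^ 2 :=
      mul_le_mul_of_nonneg_right (le_max_right _ _) (by positivity)
    linarith
  rw [abs_mul, abs_mul, abs_mul, abs_mul, abs_of_nonneg hin, abs_of_nonneg hnb,
    abs_of_pos (Real.rpow_pos_of_pos hS _)]
  have hpow : (S ε a) ^ (γ + 1 / 2 - 1) = (S ε a) ^ (γ - 1 - 1) * S ε a * (S ε a) ^ (1 / 2 : ℝ) := by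
    rw [← Real.rpow_add_one hS.ne', ← Real.rpow_add hS]
    ring_nf
  rw [hpow]
  have h4 : |(4 : ℝ)| = 4 := abs_of_pos (by norm_num)
  rw [h4]
  have hP := Real.rpow_pos_of_pos hS (γ - 1 - 1)
  have hg : 0 ≤ |γ| := abs_nonneg _
  calc 4 * |γ| * Complex.normSq b * S ε a ^ (γ - 1 - 1) * ((γ + 1) * Complex.normSq a + 2 * ε ^ 2) * ‖a‖
      ≤ 4 * |γ| * Complex.normSq b * S ε a ^ (γ - 1 - 1) * (max (γ + 1) 2 * S ε a) * (S ε a) ^ (1 / 2 : ℝ) := by
        gcongr
    _ = _ := by ring

end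

end Pool.Agent.Lib.MP_7d928b_an

/-!
Green's identity in a half-plane for functions with period `2πi` (log-polar coordinates).
-/

namespace Pool.Agent.Lib.MP_7d928b_an

open MeasureTheory Set Filter Topology

noncomputable section

/-- the point `x + i y`. -/
def pt (x y : ℝ) : ℂ := (x : ℂ) + (y : ℂ) * Complex.I

lemma pt_re (x y : ℝ) : (pt x y).re = x := by simp [pt]
lemma pt_im (x y : ℝ) : (pt x y).im = y := by simp [pt]

lemma continuous_pt : Continuous (fun p : ℝ × ℝ => pt p.1 p.2) := by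
  unfold pt; fun_prop

lemma continuous_pt_right (x : ℝ) : Continuous (fun y : ℝ => pt x y) := by
  unfold pt; fun_prop

/-- the half-plane `Re ξ < X`. -/
def HP (X : ℝ) : Set ℂ := {ξ | ξ.re < X}

lemma isOpen_HP (X : ℝ) : IsOpen (HP X) := isOpen_lt Complex.continuous_re continuous_const

lemma mem_HP {X : ℝ} {ξ : ℂ} : ξ ∈ HP X ↔ ξ.re < X := Iff.rfl

lemma deriv_x {g gx : ℂ → ℂ} {X : ℝ}
    (h : ∀ ξ ∈ HP X, HasDerivAt (fun t : ℝ => g (ξ + t * 1)) (gx ξ) 0) {x y : ℝ} (hx : x < X) :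
    HasDerivAt (fun x : ℝ => g (pt x y)) (gx (pt x y)) x := by
  have h1 := h (pt x y) (by rw [mem_HP, pt_re]; exact hx)
  have h2 : HasDerivAt (fun t : ℝ => g (pt x y + ((t - x : ℝ) : ℂ) * 1)) (gx (pt x y)) x := by
    have h3 : HasDerivAt (fun t : ℝ => t - x) 1 x := (hasDerivAt_id x).sub_const x
    have h4 : HasDerivAt (fun t : ℝ => g (pt x y + (t : ℂ) * 1)) (gx (pt x y)) (x - x) := by
      rw [sub_self]; exact h1
    have := HasDerivAt.scomp (h := fun t : ℝ => t - x)
      (g₁ := fun t : ℝ => g (pt x y + (t : ℂ) * 1)) x h4 h3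
    rw [one_smul] at this
    exact this
  refine h2.congr_of_eventuallyEq (Eventually.of_forall fun t => ?_)
  simp only [pt]
  congr 1
  push_cast
  ring

lemma deriv_y {g gy : ℂ → ℂ} {X : ℝ}
    (h : ∀ ξ ∈ HP X, HasDerivAt (fun t : ℝ => g (ξ + t * Complex.I)) (gy ξ) 0) {x y : ℝ}
    (hx : x < X) :
    HasDerivAt (fun y : ℝ => g (pt x y)) (gy (pt x y)) y := by
  have h1 := h (pt x y) (by rw [mem_HP, pt_re]; exact hx)
  have h2 : HasDerivAt (fun t : ℝ => g (pt x y + ((t - y : ℝ) : ℂ) * Complex.I)) (gy (pt x y)) y := by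
    have h3 : HasDerivAt (fun t : ℝ => t - y) 1 y := (hasDerivAt_id y).sub_const y
    have h4 : HasDerivAt (fun t : ℝ => g (pt x y + (t : ℂ) * Complex.I)) (gy (pt x y)) (y - y) := by
      rw [sub_self]; exact h1
    have := HasDerivAt.scomp (h := fun t : ℝ => t - y)
      (g₁ := fun t : ℝ => g (pt x y + (t : ℂ) * Complex.I)) y h4 h3
    rw [one_smul] at this
    exact this
  refine h2.congr_of_eventuallyEq (Eventually.of_forall fun t => ?_)
  simp only [pt]
  congr 1
  push_cast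
  ring

/-- Differentiation under the integral sign. -/
lemma hasDerivAt_integral_line {G G' : ℂ → ℂ} {X x : ℝ} {a b : ℝ} (hx : x < X)
    (hG : ContinuousOn G (HP X)) (hG' : ContinuousOn G' (HP X))
    (hd : ∀ x < X, ∀ y, HasDerivAt (fun x : ℝ => G (pt x y)) (G' (pt x y)) x) :
    HasDerivAt (fun x : ℝ => ∫ y in a..b, G (pt x y)) (∫ y in a..b, G' (pt x y)) x := by
  -- a compact neighbourhood
  obtain ⟨δ, hδ, hδX⟩ : ∃ δ > 0, x + δ < X := ⟨(X - x) / 2, by linarith, by linarith⟩
  have hcont : ∀ H : ℂ → ℂ, ContinuousOn H (HP X) → ∀ x' < X, Continuous (fun y : ℝ => H (pt x' y)) := by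
    intro H hH x' hx'
    refine hH.comp_continuous (continuous_pt_right x') fun y => ?_
    rw [mem_HP, pt_re]; exact hx'
  set K : Set ℂ := (fun p : ℝ × ℝ => pt p.1 p.2) '' (Icc (x - δ) (x + δ) ×ˢ uIcc a b) with hK
  have hKc : IsCompact K := (isCompact_Icc.prod isCompact_uIcc).image continuous_pt
  have hKX : K ⊆ HP X := by
    rintro _ ⟨⟨x', y'⟩, ⟨hx', -⟩, rfl⟩
    rw [mem_HP, pt_re]
    exact lt_of_le_of_lt hx'.2 hδX
  obtain ⟨C, hC⟩ := hKc.exists_bound_of_continuousOn (hG'.mono hKX)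
  have hs : Ioo (x - δ) (x + δ) ∈ 𝓝 x := Ioo_mem_nhds (by linarith) (by linarith)
  refine (intervalIntegral.hasDerivAt_integral_of_dominated_loc_of_deriv_le (μ := volume)
    (F := fun x y => G (pt x y)) (F' := fun x y => G' (pt x y)) (bound := fun _ => C)
    hs ?_ ?_ ?_ ?_ ?_ ?_).2
  · filter_upwards [hs] with x' hx'
    exact (hcont G hG x' (by linarith [hx'.2])).aestronglyMeasurable
  · exact (hcont G hG x hx).intervalIntegrable _ _
  · exact (hcont G' hG' x hx).aestronglyMeasurable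
  · refine Eventually.of_forall fun y hy x' hx' => hC _ ?_
    exact ⟨(x', y), ⟨⟨hx'.1.le, hx'.2.le⟩, uIoc_subset_uIcc hy⟩, rfl⟩
  · exact continuous_const.intervalIntegrable _ _
  · refine Eventually.of_forall fun y _ x' hx' => hd x' (by linarith [hx'.2]) y

/-- A function with its first and second derivatives in the two coordinate directions. -/
structure C2 (X : ℝ) (g gx gxx gy gyy : ℂ → ℂ) : Prop where
  c0 : ContinuousOn g (HP X)
  cx : ContinuousOn gx (HP X)
  cxx : ContinuousOn gxx (HP X)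
  cy : ContinuousOn gy (HP X)
  cyy : ContinuousOn gyy (HP X)
  dx : ∀ ξ ∈ HP X, HasDerivAt (fun t : ℝ => g (ξ + t * 1)) (gx ξ) 0
  dxx : ∀ ξ ∈ HP X, HasDerivAt (fun t : ℝ => gx (ξ + t * 1)) (gxx ξ) 0
  dy : ∀ ξ ∈ HP X, HasDerivAt (fun t : ℝ => g (ξ + t * Complex.I)) (gy ξ) 0
  dyy : ∀ ξ ∈ HP X, HasDerivAt (fun t : ℝ => gy (ξ + t * Complex.I)) (gyy ξ) 0
  per : ∀ x < X, g (pt x Real.pi) = g (pt x (-Real.pi))
  pery : ∀ x < X, gy (pt x Real.pi) = gy (pt x (-Real.pi))

/-- Green's identity for `2πi`-periodic functions. -/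
theorem green {X : ℝ} {ψ ψx ψxx ψy ψyy v vx vxx vy vyy : ℂ → ℂ}
    (hψ : C2 X ψ ψx ψxx ψy ψyy) (hv : C2 X v vx vxx vy vyy) {x : ℝ} (hx : x < X) :
    HasDerivAt (fun x : ℝ => ∫ y in (-Real.pi)..Real.pi,
        (ψ (pt x y) * vx (pt x y) - ψx (pt x y) * v (pt x y)))
      (∫ y in (-Real.pi)..Real.pi, (ψ (pt x y) * (vxx (pt x y) + vyy (pt x y)) -
        (ψxx (pt x y) + ψyy (pt x y)) * v (pt x y))) x := by
  have h1 := hasDerivAt_integral_line (a := -Real.pi) (b := Real.pi)
    (G := fun ξ => ψ ξ * vx ξ - ψx ξ * v ξ) (G' := fun ξ => ψ ξ * vxx ξ - ψxx ξ * v ξ) hx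
    ((hψ.c0.mul hv.cx).sub (hψ.cx.mul hv.c0)) ((hψ.c0.mul hv.cxx).sub (hψ.cxx.mul hv.c0)) (by
      intro x' hx' y
      have d1 := (deriv_x hψ.dx hx' (y := y)).mul (deriv_x hv.dxx hx' (y := y))
      have d2 := (deriv_x hψ.dxx hx' (y := y)).mul (deriv_x hv.dx hx' (y := y))
      refine (d1.sub d2).congr_deriv ?_
      ring)
  refine h1.congr_deriv ?_
  -- the y-part integrates to zero
  have hcont : ∀ H : ℂ → ℂ, ContinuousOn H (HP X) → Continuous (fun y : ℝ => H (pt x y)) := by
    intro H hH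
    refine hH.comp_continuous (continuous_pt_right x) fun y => ?_
    rw [mem_HP, pt_re]; exact hx
  have hy0 : ∫ y in (-Real.pi)..Real.pi,
      (ψ (pt x y) * vyy (pt x y) - ψyy (pt x y) * v (pt x y)) = 0 := by
    have hd : ∀ y ∈ uIcc (-Real.pi) Real.pi,
        HasDerivAt (fun y : ℝ => ψ (pt x y) * vy (pt x y) - ψy (pt x y) * v (pt x y))
          (ψ (pt x y) * vyy (pt x y) - ψyy (pt x y) * v (pt x y)) y := by
      intro y _
      have d1 := (deriv_y hψ.dy hx (y := y)).mul (deriv_y hv.dyy hx (y := y))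
      have d2 := (deriv_y hψ.dyy hx (y := y)).mul (deriv_y hv.dy hx (y := y))
      refine (d1.sub d2).congr_deriv ?_
      ring
    rw [intervalIntegral.integral_eq_sub_of_hasDerivAt hd]
    · rw [hψ.per x hx, hv.per x hx, hψ.pery x hx, hv.pery x hx]
      ring
    · exact (((hcont _ hψ.c0).mul (hcont _ hv.cyy)).sub
        ((hcont _ hψ.cyy).mul (hcont _ hv.c0))).intervalIntegrable _ _
  have : ∫ y in (-Real.pi)..Real.pi, (ψ (pt x y) * (vxx (pt x y) + vyy (pt x y)) -
        (ψxx (pt x y) + ψyy (pt x y)) * v (pt x y)) =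
      (∫ y in (-Real.pi)..Real.pi, (ψ (pt x y) * vxx (pt x y) - ψxx (pt x y) * v (pt x y))) +
      ∫ y in (-Real.pi)..Real.pi,
        (ψ (pt x y) * vyy (pt x y) - ψyy (pt x y) * v (pt x y)) := by
    rw [← intervalIntegral.integral_add]
    · congr 1; funext y; ring
    · exact (((hcont _ hψ.c0).mul (hcont _ hv.cxx)).sub
        ((hcont _ hψ.cxx).mul (hcont _ hv.c0))).intervalIntegrable _ _
    · exact (((hcont _ hψ.c0).mul (hcont _ hv.cyy)).sub
        ((hcont _ hψ.cyy).mul (hcont _ hv.c0))).intervalIntegrable _ _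
  rw [this, hy0, add_zero]

end

end Pool.Agent.Lib.MP_7d928b_an

/-!
Polar coordinates on the unit disc.
-/

namespace Pool.Agent.Lib.MP_7d928b_an

open MeasureTheory Set Filter Topology Metric

noncomputable section

/-- the point `r e^{iy}` -/
def cpt (r y : ℝ) : ℂ := (r : ℂ) * Complex.exp (y * Complex.I)

lemma continuous_cpt : Continuous (fun p : ℝ × ℝ => cpt p.1 p.2) := by
  unfold cpt; fun_prop

lemma continuous_cpt_right (r : ℝ) : Continuous (fun y : ℝ => cpt r y) := by
  unfold cpt; fun_prop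

lemma norm_cpt (r y : ℝ) : ‖cpt r y‖ = |r| := by
  simp [cpt, Complex.norm_exp_ofReal_mul_I]

lemma polarCoord_symm_eq (p : ℝ × ℝ) : Complex.polarCoord.symm p = cpt p.1 p.2 := by
  rw [Complex.polarCoord_symm_apply, cpt, Complex.exp_mul_I]
  push_cast
  ring

/-- the rectangle -/
def Rect : Set (ℝ × ℝ) := Ioo (0 : ℝ) 1 ×ˢ Ioo (-Real.pi) Real.pi

lemma measurableSet_Rect : MeasurableSet Rect := measurableSet_Ioo.prod measurableSet_Ioo

lemma indicator_polar {E : Type*} [Zero E] (g : ℂ → E) (p : ℝ × ℝ)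
    (hp : p ∈ polarCoord.target) :
    (ball (0 : ℂ) 1).indicator g (Complex.polarCoord.symm p) =
      Rect.indicator (fun p => g (cpt p.1 p.2)) p := by
  rw [polarCoord_symm_eq]
  have hp' : 0 < p.1 ∧ p.2 ∈ Ioo (-Real.pi) Real.pi := by
    simpa [polarCoord] using hp
  by_cases h : p.1 < 1
  · rw [indicator_of_mem, indicator_of_mem]
    · exact ⟨⟨hp'.1, h⟩, hp'.2⟩
    · rw [mem_ball_zero_iff, norm_cpt, abs_of_pos hp'.1]; exact h
  · rw [indicator_of_notMem, indicator_of_notMem]
    · exact fun h' => h h'.1.2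
    · rw [mem_ball_zero_iff, norm_cpt, abs_of_pos hp'.1]; exact h

lemma integral_ball_eq_rect (g : ℂ → ℂ) :
    ∫ z in ball (0 : ℂ) 1, g z = ∫ p in Rect, (p.1 : ℂ) * g (cpt p.1 p.2) := by
  rw [← integral_indicator measurableSet_ball, ← Complex.integral_comp_polarCoord_symm]
  have hsub : Rect ⊆ polarCoord.target := by
    rintro p ⟨h1, h2⟩
    simp only [polarCoord, mem_prod, mem_Ioi]
    exact ⟨h1.1, h2⟩
  have htm : MeasurableSet polarCoord.target := polarCoord.open_target.measurableSet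
  rw [← integral_indicator htm, ← integral_indicator measurableSet_Rect]
  congr 1
  funext p
  by_cases hp : p ∈ polarCoord.target
  · rw [indicator_of_mem hp, indicator_polar g p hp]
    by_cases hr : p ∈ Rect
    · rw [indicator_of_mem hr, indicator_of_mem hr, Complex.real_smul]
    · rw [indicator_of_notMem hr, indicator_of_notMem hr, smul_zero]
  · rw [indicator_of_notMem hp, indicator_of_notMem (fun h => hp (hsub h))]

lemma lintegral_ball_eq_rect (g : ℂ → ENNReal) :
    ∫⁻ z in ball (0 : ℂ) 1, g z = ∫⁻ p in Rect, ENNReal.ofReal p.1 * g (cpt p.1 p.2) := by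
  rw [← lintegral_indicator measurableSet_ball, ← Complex.lintegral_comp_polarCoord_symm]
  have hsub : Rect ⊆ polarCoord.target := by
    rintro p ⟨h1, h2⟩
    simp only [polarCoord, mem_prod, mem_Ioi]
    exact ⟨h1.1, h2⟩
  have htm : MeasurableSet polarCoord.target := polarCoord.open_target.measurableSet
  rw [← lintegral_indicator htm, ← lintegral_indicator measurableSet_Rect]
  congr 1
  funext p
  by_cases hp : p ∈ polarCoord.target
  · rw [indicator_of_mem hp, indicator_polar g p hp]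
    by_cases hr : p ∈ Rect
    · rw [indicator_of_mem hr, indicator_of_mem hr, smul_eq_mul]
    · rw [indicator_of_notMem hr, indicator_of_notMem hr, smul_zero]
  · rw [indicator_of_notMem hp, indicator_of_notMem (fun h => hp (hsub h))]

lemma continuousOn_rect {g : ℂ → ℂ} (hc : ContinuousOn g (ball 0 1)) :
    ContinuousOn (fun p : ℝ × ℝ => (p.1 : ℂ) * g (cpt p.1 p.2)) Rect := by
  refine ContinuousOn.mul (by fun_prop) ?_
  refine hc.comp continuous_cpt.continuousOn ?_
  rintro p ⟨h1, h2⟩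
  rw [mem_ball_zero_iff, norm_cpt, abs_of_pos h1.1]
  exact h1.2

lemma integrableOn_rect {g : ℂ → ℂ} (hc : ContinuousOn g (ball 0 1))
    (hi : IntegrableOn g (ball 0 1)) :
    IntegrableOn (fun p : ℝ × ℝ => (p.1 : ℂ) * g (cpt p.1 p.2)) Rect := by
  refine ⟨(continuousOn_rect hc).aestronglyMeasurable measurableSet_Rect, ?_⟩
  have h2 := hi.2
  rw [hasFiniteIntegral_iff_enorm] at h2 ⊢
  rw [lintegral_ball_eq_rect] at h2
  refine lt_of_le_of_lt (le_of_eq ?_) h2
  refine setLIntegral_congr_fun measurableSet_Rect fun p hp => ?_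
  simp only [enorm_mul]
  congr 1
  rw [← ofReal_norm, Complex.norm_real, Real.norm_eq_abs, abs_of_pos hp.1.1]

/-- Polar coordinates for a continuous integrable function on the unit disc. -/
lemma integral_ball_polar {g : ℂ → ℂ} (hc : ContinuousOn g (ball 0 1))
    (hi : IntegrableOn g (ball 0 1)) :
    ∫ z in ball (0 : ℂ) 1, g z =
      ∫ r in (0 : ℝ)..1, (r : ℂ) * ∫ y in (-Real.pi)..Real.pi, g (cpt r y) := by
  rw [integral_ball_eq_rect]
  have h := integrableOn_rect hc hi
  unfold Rect at h ⊢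
  rw [Measure.volume_eq_prod] at h ⊢
  rw [setIntegral_prod _ h, intervalIntegral.integral_of_le zero_le_one,
    ← integral_Ioc_eq_integral_Ioo]
  refine setIntegral_congr_fun measurableSet_Ioc fun r _ => ?_
  simp only
  rw [intervalIntegral.integral_of_le (by linarith [Real.pi_pos]), ← integral_Ioc_eq_integral_Ioo,
    integral_const_mul]

lemma integrable_ball_polar {g : ℂ → ℂ} (hc : ContinuousOn g (ball 0 1))
    (hi : IntegrableOn g (ball 0 1)) :
    IntervalIntegrable (fun r : ℝ => (r : ℂ) * ∫ y in (-Real.pi)..Real.pi, g (cpt r y))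
      volume 0 1 := by
  have h := integrableOn_rect hc hi
  unfold Rect at h
  rw [intervalIntegrable_iff_integrableOn_Ioo_of_le zero_le_one]
  rw [IntegrableOn, Measure.volume_eq_prod, ← Measure.prod_restrict] at h
  have h2 := h.integral_prod_left
  refine h2.congr ?_
  filter_upwards with r
  rw [intervalIntegral.integral_of_le (by linarith [Real.pi_pos]), ← integral_Ioc_eq_integral_Ioo,
    integral_const_mul]

end

end Pool.Agent.Lib.MP_7d928b_an

/-!
Green's identity on the unit disc.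
-/

namespace Pool.Agent.Lib.MP_7d928b_an

open MeasureTheory Set Filter Topology Metric

noncomputable section

/-- A function on the disc of radius `R` with its logarithmic radial and angular derivatives. -/
structure D2 (R : ℝ) (g gx gxx gy gyy : ℂ → ℂ) : Prop where
  c0 : ContinuousOn g (ball 0 R)
  cx : ContinuousOn gx (ball 0 R)
  cxx : ContinuousOn gxx (ball 0 R)
  cy : ContinuousOn gy (ball 0 R)
  cyy : ContinuousOn gyy (ball 0 R)
  dx : ∀ z ∈ ball (0 : ℂ) R, HasDerivAt (fun t : ℝ => g (z * Complex.exp (t * 1))) (gx z) 0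
  dxx : ∀ z ∈ ball (0 : ℂ) R, HasDerivAt (fun t : ℝ => gx (z * Complex.exp (t * 1))) (gxx z) 0
  dy : ∀ z ∈ ball (0 : ℂ) R, HasDerivAt (fun t : ℝ => g (z * Complex.exp (t * Complex.I))) (gy z) 0
  dyy : ∀ z ∈ ball (0 : ℂ) R,
    HasDerivAt (fun t : ℝ => gy (z * Complex.exp (t * Complex.I))) (gyy z) 0

lemma exp_mem_ball {R : ℝ} (hR : 0 < R) {ξ : ℂ} (h : ξ ∈ HP (Real.log R)) :
    Complex.exp ξ ∈ ball (0 : ℂ) R := by
  rw [mem_ball_zero_iff, Complex.norm_exp]
  exact (Real.lt_log_iff_exp_lt hR).1 h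

lemma D2.toC2 {R : ℝ} (hR : 0 < R) {g gx gxx gy gyy : ℂ → ℂ} (h : D2 R g gx gxx gy gyy) :
    C2 (Real.log R) (fun ξ => g (Complex.exp ξ)) (fun ξ => gx (Complex.exp ξ))
      (fun ξ => gxx (Complex.exp ξ)) (fun ξ => gy (Complex.exp ξ))
      (fun ξ => gyy (Complex.exp ξ)) := by
  have hc : ∀ G : ℂ → ℂ, ContinuousOn G (ball 0 R) →
      ContinuousOn (fun ξ => G (Complex.exp ξ)) (HP (Real.log R)) := fun G hG =>
    hG.comp Complex.continuous_exp.continuousOn fun ξ hξ => exp_mem_ball hR hξ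
  have hper : ∀ G : ℂ → ℂ, ∀ x : ℝ,
      G (Complex.exp (pt x Real.pi)) = G (Complex.exp (pt x (-Real.pi))) := by
    intro G x
    congr 1
    rw [Complex.exp_eq_exp_iff_exists_int]
    refine ⟨1, ?_⟩
    simp only [pt]
    push_cast
    ring
  refine ⟨hc _ h.c0, hc _ h.cx, hc _ h.cxx, hc _ h.cy, hc _ h.cyy, ?_, ?_, ?_, ?_,
    fun x _ => hper g x, fun x _ => hper gy x⟩
  · intro ξ hξ
    refine (h.dx _ (exp_mem_ball hR hξ)).congr_of_eventuallyEq (Eventually.of_forall fun t => ?_)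
    simp only [Complex.exp_add]
  · intro ξ hξ
    refine (h.dxx _ (exp_mem_ball hR hξ)).congr_of_eventuallyEq (Eventually.of_forall fun t => ?_)
    simp only [Complex.exp_add]
  · intro ξ hξ
    refine (h.dy _ (exp_mem_ball hR hξ)).congr_of_eventuallyEq (Eventually.of_forall fun t => ?_)
    simp only [Complex.exp_add]
  · intro ξ hξ
    refine (h.dyy _ (exp_mem_ball hR hξ)).congr_of_eventuallyEq (Eventually.of_forall fun t => ?_)
    simp only [Complex.exp_add]

lemma exp_pt_log {r y : ℝ} (hr : 0 < r) : Complex.exp (pt (Real.log r) y) = cpt r y := by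
  rw [pt, Complex.exp_add, ← Complex.ofReal_exp, Real.exp_log hr, cpt]

/-- Continuity in `r` of circle integrals. -/
lemma continuousAt_circle {R : ℝ} {H : ℂ → ℂ} (hH : ContinuousOn H (ball 0 R)) {r : ℝ}
    (hr : |r| < R) :
    ContinuousAt (fun r : ℝ => ∫ y in (-Real.pi)..Real.pi, H (cpt r y)) r := by
  obtain ⟨δ, hδ, hδR⟩ : ∃ δ > 0, |r| + δ < R := ⟨(R - |r|) / 2, by linarith, by linarith⟩
  have hsub : ∀ r' ∈ Ioo (r - δ) (r + δ), |r'| < R := by
    intro r' h'
    have : |r'| ≤ |r| + |r' - r| := by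
      have := abs_add_le r (r' - r)
      simpa using this
    have h2 : |r' - r| < δ := abs_lt.2 ⟨by linarith [h'.1], by linarith [h'.2]⟩
    linarith
  have hcomp : IsCompact (closedBall (0 : ℂ) (|r| + δ)) := isCompact_closedBall _ _
  have hKR : closedBall (0 : ℂ) (|r| + δ) ⊆ ball 0 R := closedBall_subset_ball hδR
  obtain ⟨C, hC⟩ := hcomp.exists_bound_of_continuousOn (hH.mono hKR)
  have hs : Ioo (r - δ) (r + δ) ∈ 𝓝 r := Ioo_mem_nhds (by linarith) (by linarith)
  refine intervalIntegral.continuousAt_of_dominated_interval (bound := fun _ => C) ?_ ?_ ?_ ?_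
  · filter_upwards [hs] with r' hr'
    exact (hH.comp_continuous (continuous_cpt_right r') fun y => by
      rw [mem_ball_zero_iff, norm_cpt]; exact hsub r' hr').aestronglyMeasurable
  · filter_upwards [hs] with r' hr'
    refine Eventually.of_forall fun y _ => hC _ ?_
    rw [mem_closedBall_zero_iff, norm_cpt]
    have : |r'| ≤ |r| + |r' - r| := by
      have := abs_add_le r (r' - r)
      simpa using this
    have h2 : |r' - r| < δ := abs_lt.2 ⟨by linarith [hr'.1], by linarith [hr'.2]⟩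
    linarith
  · exact continuous_const.intervalIntegrable _ _
  · refine Eventually.of_forall fun y _ => ?_
    have h1 : ContinuousAt H (cpt r y) := hH.continuousAt (isOpen_ball.mem_nhds (by
      rw [mem_ball_zero_iff, norm_cpt]; exact hr))
    exact ContinuousAt.comp (f := fun r : ℝ => cpt r y) h1 (by unfold cpt; fun_prop)

/-- **Green's identity on the disc.** -/
theorem green_disc {R : ℝ} (hR : 1 < R) {ψ ψx ψxx ψy ψyy v vx vxx vy vyy k : ℂ → ℂ}
    (hψ : D2 R ψ ψx ψxx ψy ψyy) (hv : D2 R v vx vxx vy vyy)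
    (h0 : ψ 0 * vx 0 - ψx 0 * v 0 = 0) (hk : ContinuousOn k (ball 0 R))
    (hK : ∀ z ∈ ball (0 : ℂ) R, ψ z * (vxx z + vyy z) - (ψxx z + ψyy z) * v z =
      (Complex.normSq z : ℂ) * k z) :
    ∫ z in ball (0 : ℂ) 1, k z =
      ∫ y in (-Real.pi)..Real.pi, (ψ (cpt 1 y) * vx (cpt 1 y) - ψx (cpt 1 y) * v (cpt 1 y)) := by
  have hR0 : 0 < R := by linarith
  have hkb : ContinuousOn k (closedBall 0 1) := hk.mono (closedBall_subset_ball hR)
  have hki : IntegrableOn k (ball 0 1) :=
    (hkb.integrableOn_compact (isCompact_closedBall _ _)).mono_set ball_subset_closedBall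
  have hkc : ContinuousOn k (ball 0 1) := hkb.mono ball_subset_closedBall
  rw [integral_ball_polar hkc hki]
  set H : ℂ → ℂ := fun z => ψ z * vx z - ψx z * v z with hH
  have hHc : ContinuousOn H (ball 0 R) := (hψ.c0.mul hv.cx).sub (hψ.cx.mul hv.c0)
  have hfin : Tendsto (fun r : ℝ => ∫ y in (-Real.pi)..Real.pi, H (cpt r y)) (𝓝[<] 1)
      (𝓝 (∫ y in (-Real.pi)..Real.pi, H (cpt 1 y))) :=
    (continuousAt_circle hHc (by rw [abs_one]; exact hR)).tendsto.mono_left nhdsWithin_le_nhds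
  have hini : Tendsto (fun r : ℝ => ∫ y in (-Real.pi)..Real.pi, H (cpt r y)) (𝓝[>] 0) (𝓝 0) := by
    have h1 := (continuousAt_circle hHc (r := 0) (by rw [abs_zero]; exact hR0)).tendsto.mono_left
      (nhdsWithin_le_nhds (s := Ioi (0 : ℝ)))
    have h2 : ∫ y in (-Real.pi)..Real.pi, H (cpt 0 y) = 0 := by
      have : ∀ y : ℝ, H (cpt 0 y) = 0 := by
        intro y
        have : cpt 0 y = 0 := by simp [cpt]
        rw [this]; exact h0
      simp [this]
    rwa [h2] at h1
  have hderiv : ∀ r ∈ Ioo (0 : ℝ) 1,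
      HasDerivAt (fun r : ℝ => ∫ y in (-Real.pi)..Real.pi, H (cpt r y))
        ((r : ℂ) * ∫ y in (-Real.pi)..Real.pi, k (cpt r y)) r := by
    intro r hr
    have hlog : Real.log r < Real.log R := Real.log_lt_log hr.1 (by linarith [hr.2])
    have hg := green (hψ.toC2 hR0) (hv.toC2 hR0) hlog
    have hl := Real.hasDerivAt_log hr.1.ne'
    have hcomp := HasDerivAt.scomp r hg hl
    have e1 : ∫ y in (-Real.pi)..Real.pi,
        (ψ (Complex.exp (pt (Real.log r) y)) *
          (vxx (Complex.exp (pt (Real.log r) y)) + vyy (Complex.exp (pt (Real.log r) y))) -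
        (ψxx (Complex.exp (pt (Real.log r) y)) + ψyy (Complex.exp (pt (Real.log r) y))) *
          v (Complex.exp (pt (Real.log r) y))) =
        ((r : ℂ) * r) * ∫ y in (-Real.pi)..Real.pi, k (cpt r y) := by
      rw [← intervalIntegral.integral_const_mul]
      refine intervalIntegral.integral_congr fun y _ => ?_
      simp only [exp_pt_log hr.1]
      rw [hK _ (by rw [mem_ball_zero_iff, norm_cpt, abs_of_pos hr.1]; linarith [hr.2])]
      rw [Complex.normSq_eq_norm_sq, norm_cpt, abs_of_pos hr.1]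
      push_cast
      ring
    rw [e1] at hcomp
    have e2 : (r⁻¹ : ℝ) • (((r : ℂ) * r) * ∫ y in (-Real.pi)..Real.pi, k (cpt r y)) =
        (r : ℂ) * ∫ y in (-Real.pi)..Real.pi, k (cpt r y) := by
      have : (r : ℂ) ≠ 0 := by exact_mod_cast hr.1.ne'
      rw [Complex.real_smul]
      push_cast
      field_simp
    rw [e2] at hcomp
    refine hcomp.congr_of_eventuallyEq ?_
    filter_upwards [Ioi_mem_nhds hr.1] with r' hr'
    simp only [Function.comp, exp_pt_log hr', hH]
  have := intervalIntegral.integral_eq_sub_of_hasDerivAt_of_tendsto zero_lt_one hderiv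
    (integrable_ball_polar hkc hki) hini hfin
  rw [this, sub_zero]

end

end Pool.Agent.Lib.MP_7d928b_an

/-!
The two applications of Green's identity.
-/

namespace Pool.Agent.Lib.MP_7d928b_an

open MeasureTheory Set Filter Topology Metric
open scoped ComplexConjugate

noncomputable section

/-- `z f'(z)` -/
def zd (f : ℂ → ℂ) (z : ℂ) : ℂ := z * deriv f z

lemma zd_differentiableOn {R : ℝ} {f : ℂ → ℂ} (hf : DifferentiableOn ℂ f (ball 0 R)) :
    DifferentiableOn ℂ (zd f) (ball 0 R) :=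
  differentiableOn_id.mul (hf.deriv isOpen_ball)

lemma line_deriv {R : ℝ} {f : ℂ → ℂ} (hf : DifferentiableOn ℂ f (ball 0 R)) (ζ : ℂ) {z : ℂ}
    (hz : z ∈ ball (0 : ℂ) R) :
    HasDerivAt (fun t : ℝ => f (z * Complex.exp (t * ζ))) (ζ * zd f z) 0 := by
  have h1 : HasDerivAt f (deriv f z) z := (hf.differentiableAt (isOpen_ball.mem_nhds hz)).hasDerivAt
  have h2 : HasDerivAt (fun w : ℂ => z * Complex.exp (w * ζ)) (z * ζ) 0 := by
    have := (((hasDerivAt_id (0 : ℂ)).mul_const ζ).cexp).const_mul z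
    simpa using this
  have h3 : HasDerivAt (fun w : ℂ => f (z * Complex.exp (w * ζ))) (deriv f z * (z * ζ)) 0 := by
    have h1' : HasDerivAt f (deriv f z) (z * Complex.exp ((0 : ℂ) * ζ)) := by simpa using h1
    exact h1'.comp (0 : ℂ) h2
  have h4 := h3.comp_ofReal (z := 0)
  refine h4.congr_deriv ?_
  simp only [zd]; ring

lemma line_zero (f : ℂ → ℂ) (ζ z : ℂ) : f (z * Complex.exp (((0 : ℝ) : ℂ) * ζ)) = f z := by simp

lemma line_zero_real (f : ℂ → ℝ) (ζ z : ℂ) : f (z * Complex.exp (((0 : ℝ) : ℂ) * ζ)) = f z := by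
  simp

/-- the D2 structure of `V (F)` -/
lemma D2_V {R γ ε : ℝ} (hε : 0 < ε) {F : ℂ → ℂ} (hF : DifferentiableOn ℂ F (ball 0 R)) :
    D2 R (fun z => V γ ε (F z))
      (fun z => VD γ ε 1 (F z) (zd F z)) (fun z => VDD γ ε 1 (F z) (zd F z) (zd (zd F) z))
      (fun z => VD γ ε Complex.I (F z) (zd F z))
      (fun z => VDD γ ε Complex.I (F z) (zd F z) (zd (zd F) z)) := by
  have hF1 := zd_differentiableOn hF
  have hF2 := zd_differentiableOn hF1
  have c0 := hF.continuousOn
  have c1 := hF1.continuousOn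
  have c2 := hF2.continuousOn
  have cS : ContinuousOn (fun z => S ε (F z)) (ball 0 R) := by
    unfold S
    exact (Complex.continuous_normSq.comp_continuousOn c0).add continuousOn_const
  have cSp : ∀ β : ℝ, ContinuousOn (fun z => (((S ε (F z)) ^ β : ℝ) : ℂ)) (ball 0 R) := by
    intro β
    exact Complex.continuous_ofReal.comp_continuousOn
      (cS.rpow_const fun z _ => Or.inl (S_pos hε _).ne')
  have cconj : ContinuousOn (fun z => conj (F z)) (ball 0 R) := Complex.continuous_conj.comp_continuousOn c0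
  have cSD : ∀ ζ : ℂ, ContinuousOn (fun z => SD ζ (F z) (zd F z)) (ball 0 R) := by
    intro ζ
    unfold SD
    exact continuousOn_const.mul (Complex.continuous_re.comp_continuousOn
      (cconj.mul (continuousOn_const.mul c1)))
  have cSDD : ∀ ζ : ℂ, ContinuousOn (fun z => SDD ζ (F z) (zd F z) (zd (zd F) z)) (ball 0 R) := by
    intro ζ
    unfold SDD
    have e1 : ContinuousOn (fun z => (conj (ζ * zd F z) * (ζ * zd F z)).re) (ball 0 R) :=
      Complex.continuous_re.comp_continuousOn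
        ((Complex.continuous_conj.comp_continuousOn (continuousOn_const.mul c1)).mul
          (continuousOn_const.mul c1))
    have e2 : ContinuousOn (fun z => (conj (F z) * (ζ * (ζ * zd (zd F) z))).re) (ball 0 R) :=
      Complex.continuous_re.comp_continuousOn
        (cconj.mul (continuousOn_const.mul (continuousOn_const.mul c2)))
    exact continuousOn_const.mul (e1.add e2)
  have cR : ∀ β : ℝ, ContinuousOn (fun z => (S ε (F z)) ^ β) (ball 0 R) := fun β =>
    cS.rpow_const fun z _ => Or.inl (S_pos hε _).ne'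
  have cVD : ∀ ζ : ℂ, ContinuousOn (fun z => VD γ ε ζ (F z) (zd F z)) (ball 0 R) := by
    intro ζ
    unfold VD
    refine ContinuousOn.add (ContinuousOn.mul ?_ cconj) ((cSp γ).mul ?_)
    · exact Complex.continuous_ofReal.comp_continuousOn
        (((cSD ζ).mul continuousOn_const).mul (cR _))
    · exact Complex.continuous_conj.comp_continuousOn (continuousOn_const.mul c1)
  have cVDD : ∀ ζ : ℂ,
      ContinuousOn (fun z => VDD γ ε ζ (F z) (zd F z) (zd (zd F) z)) (ball 0 R) := by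
    intro ζ
    unfold VDD
    have ca : ContinuousOn (fun z => conj (ζ * zd F z)) (ball 0 R) :=
      Complex.continuous_conj.comp_continuousOn (continuousOn_const.mul c1)
    have cb : ContinuousOn (fun z => (((SD ζ (F z) (zd F z) * γ * (S ε (F z)) ^ (γ - 1) : ℝ)) : ℂ))
        (ball 0 R) := Complex.continuous_ofReal.comp_continuousOn
        (((cSD ζ).mul continuousOn_const).mul (cR _))
    refine ContinuousOn.add (ContinuousOn.add (ContinuousOn.mul ?_ cconj) (cb.mul ca))
      ((cb.mul ca).add ((cSp γ).mul ?_))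
    · refine Complex.continuous_ofReal.comp_continuousOn (ContinuousOn.add ?_ ?_)
      · exact ((cSDD ζ).mul continuousOn_const).mul (cR _)
      · exact ((cSD ζ).mul continuousOn_const).mul
          (((cSD ζ).mul continuousOn_const).mul (cR _))
    · exact Complex.continuous_conj.comp_continuousOn
        (continuousOn_const.mul (continuousOn_const.mul c2))
  have d1 : ∀ ζ : ℂ, ∀ z ∈ ball (0 : ℂ) R,
      HasDerivAt (fun t : ℝ => V γ ε (F (z * Complex.exp (t * ζ)))) (VD γ ε ζ (F z) (zd F z)) 0 := by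
    intro ζ z hz
    have := hasDerivAt_V (γ := γ) hε (line_deriv hF ζ hz)
    rwa [line_zero F ζ z] at this
  have d2 : ∀ ζ : ℂ, ∀ z ∈ ball (0 : ℂ) R,
      HasDerivAt (fun t : ℝ => VD γ ε ζ (F (z * Complex.exp (t * ζ))) (zd F (z * Complex.exp (t * ζ))))
        (VDD γ ε ζ (F z) (zd F z) (zd (zd F) z)) 0 := by
    intro ζ z hz
    have hA := line_deriv hF ζ hz
    have hB := line_deriv hF1 ζ hz
    rw [← line_zero (zd F) ζ z] at hA
    have := hasDerivAt_VD (γ := γ) hε hA hB
    rwa [line_zero F ζ z, line_zero (zd F) ζ z] at this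
  refine ⟨?_, cVD 1, cVDD 1, cVD _, cVDD _, d1 1, d2 1, d1 _, d2 _⟩
  unfold V
  exact (cSp γ).mul cconj

/-- the D2 structure of `(1-|z|²) f` -/
lemma D2_psi {R : ℝ} {f : ℂ → ℂ} (hf : DifferentiableOn ℂ f (ball 0 R)) :
    D2 R (fun z => (1 - (Complex.normSq z : ℂ)) * f z)
      (fun z => -2 * (Complex.normSq z : ℂ) * f z + (1 - (Complex.normSq z : ℂ)) * zd f z)
      (fun z => -4 * (Complex.normSq z : ℂ) * f z - 4 * (Complex.normSq z : ℂ) * zd f z +
        (1 - (Complex.normSq z : ℂ)) * zd (zd f) z)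
      (fun z => (1 - (Complex.normSq z : ℂ)) * (Complex.I * zd f z))
      (fun z => (1 - (Complex.normSq z : ℂ)) * (- zd (zd f) z)) := by
  have hf1 := zd_differentiableOn hf
  have hf2 := zd_differentiableOn hf1
  have c0 := hf.continuousOn
  have c1 := hf1.continuousOn
  have c2 := hf2.continuousOn
  have cn : Continuous (fun z : ℂ => (Complex.normSq z : ℂ)) :=
    Complex.continuous_ofReal.comp Complex.continuous_normSq
  have cn' : ContinuousOn (fun z : ℂ => (Complex.normSq z : ℂ)) (ball 0 R) := cn.continuousOn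
  have hn1 : ∀ z : ℂ, HasDerivAt (fun t : ℝ => (Complex.normSq (z * Complex.exp (t * 1)) : ℂ))
      (2 * (Complex.normSq z : ℂ)) 0 := by
    intro z
    have e : (fun t : ℝ => (Complex.normSq (z * Complex.exp (t * 1)) : ℂ)) =
        fun t : ℝ => ((Complex.normSq z * Real.exp (2 * t) : ℝ) : ℂ) := by
      funext t
      rw [Complex.normSq_mul, mul_one, ← Complex.ofReal_exp, Complex.normSq_ofReal, ← Real.exp_add]
      congr 3; ring
    rw [e]
    have h := ((((hasDerivAt_id (0 : ℝ)).const_mul 2).exp).const_mul (Complex.normSq z)).ofReal_comp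
    refine h.congr_deriv ?_
    simp; ring
  have hnI : ∀ z : ℂ, HasDerivAt (fun t : ℝ => (Complex.normSq (z * Complex.exp (t * Complex.I)) : ℂ))
      0 0 := by
    intro z
    have e : (fun t : ℝ => (Complex.normSq (z * Complex.exp (t * Complex.I)) : ℂ)) =
        fun t : ℝ => (Complex.normSq z : ℂ) := by
      funext t
      rw [Complex.normSq_mul, Complex.normSq_eq_norm_sq (Complex.exp _),
        Complex.norm_exp_ofReal_mul_I]
      simp
    rw [e]
    exact hasDerivAt_const _ _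
  refine ⟨(continuousOn_const.sub cn').mul c0, ?_, ?_, ?_, ?_, ?_, ?_, ?_, ?_⟩
  · exact ((continuousOn_const.mul cn').mul c0).add ((continuousOn_const.sub cn').mul c1)
  · exact (((continuousOn_const.mul cn').mul c0).sub ((continuousOn_const.mul cn').mul c1)).add
      ((continuousOn_const.sub cn').mul c2)
  · exact (continuousOn_const.sub cn').mul (continuousOn_const.mul c1)
  · exact (continuousOn_const.sub cn').mul c2.neg
  · intro z hz
    have h := ((hasDerivAt_const (0 : ℝ) (1 : ℂ)).sub (hn1 z)).mul (line_deriv hf 1 hz)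
    refine h.congr_deriv ?_
    simp
  · intro z hz
    have h := (((hn1 z).const_mul (-2)).mul (line_deriv hf 1 hz)).add
      (((hasDerivAt_const (0 : ℝ) (1 : ℂ)).sub (hn1 z)).mul (line_deriv hf1 1 hz))
    refine h.congr_deriv ?_
    simp
    ring
  · intro z hz
    have h := ((hasDerivAt_const (0 : ℝ) (1 : ℂ)).sub (hnI z)).mul (line_deriv hf Complex.I hz)
    refine h.congr_deriv ?_
    simp
  · intro z hz
    have h := ((hasDerivAt_const (0 : ℝ) (1 : ℂ)).sub (hnI z)).mul
      ((line_deriv hf1 Complex.I hz).const_mul Complex.I)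
    refine h.congr_deriv ?_
    simp
    linear_combination ((1 - (Complex.normSq z : ℂ)) * zd (zd f) z) * Complex.I_mul_I

/-- First application. -/
theorem green_V {R γ ε : ℝ} (hR : 1 < R) (hε : 0 < ε) {F f : ℂ → ℂ}
    (hF : DifferentiableOn ℂ F (ball 0 R)) (hf : DifferentiableOn ℂ f (ball 0 R)) :
    ∫ z in ball (0 : ℂ) 1, ((1 - (Complex.normSq z : ℂ)) * f z * LV γ ε (F z) (deriv F z) +
        4 * (f z + z * deriv f z) * V γ ε (F z)) =
      ∫ y in (-Real.pi)..Real.pi, 2 * f (cpt 1 y) * V γ ε (F (cpt 1 y)) := by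
  have hF' := hF.deriv isOpen_ball
  have hf' := hf.deriv isOpen_ball
  have cS : ContinuousOn (fun z => S ε (F z)) (ball 0 R) := by
    unfold S
    exact (Complex.continuous_normSq.comp_continuousOn hF.continuousOn).add continuousOn_const
  have cR : ∀ β : ℝ, ContinuousOn (fun z => (S ε (F z)) ^ β) (ball 0 R) := fun β =>
    cS.rpow_const fun z _ => Or.inl (S_pos hε _).ne'
  have cconj : ContinuousOn (fun z => conj (F z)) (ball 0 R) :=
    Complex.continuous_conj.comp_continuousOn hF.continuousOn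
  have cn : ContinuousOn (fun z : ℂ => (Complex.normSq z : ℂ)) (ball 0 R) :=
    (Complex.continuous_ofReal.comp Complex.continuous_normSq).continuousOn
  have cLV : ContinuousOn (fun z => LV γ ε (F z) (deriv F z)) (ball 0 R) := by
    unfold LV
    refine ContinuousOn.mul (Complex.continuous_ofReal.comp_continuousOn ?_) cconj
    refine ContinuousOn.mul (ContinuousOn.mul (continuousOn_const.mul
      (Complex.continuous_normSq.comp_continuousOn hF'.continuousOn)) (cR _)) ?_
    exact (continuousOn_const.mul (Complex.continuous_normSq.comp_continuousOn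
      hF.continuousOn)).add continuousOn_const
  have cV : ContinuousOn (fun z => V γ ε (F z)) (ball 0 R) := (D2_V (γ := γ) hε hF).c0
  have key := green_disc hR (D2_psi hf) (D2_V (γ := γ) hε hF)
    (k := fun z => (1 - (Complex.normSq z : ℂ)) * f z * LV γ ε (F z) (deriv F z) +
        4 * (f z + z * deriv f z) * V γ ε (F z)) ?_ ?_ ?_
  · rw [key]
    refine intervalIntegral.integral_congr fun y _ => ?_
    have h1 : Complex.normSq (cpt 1 y) = 1 := by
      rw [Complex.normSq_eq_norm_sq, norm_cpt]; simp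
    simp only [h1]
    push_cast
    ring
  · simp [VD, zd, SD]
  · refine ContinuousOn.add ?_ ?_
    · exact ((continuousOn_const.sub cn).mul hf.continuousOn).mul cLV
    · exact (continuousOn_const.mul (hf.continuousOn.add
        (continuousOn_id.mul hf'.continuousOn))).mul cV
  · intro z _
    rw [VDD_sum hε]
    have : LV γ ε (F z) (zd F z) = (Complex.normSq z : ℂ) * LV γ ε (F z) (deriv F z) := LV_mul _ _ _ _ _
    rw [this]
    simp only [zd]
    ring

/-- the weight `h` -/
def hw (α ε η : ℝ) (F f : ℂ → ℂ) (z : ℂ) : ℝ := Real.exp (Ph α ε η (F z) (f z))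

lemma D2_h {R α ε η : ℝ} (hε : 0 < ε) (hη : 0 < η) {F f : ℂ → ℂ}
    (hF : DifferentiableOn ℂ F (ball 0 R)) (hf : DifferentiableOn ℂ f (ball 0 R)) :
    D2 R (fun z => (hw α ε η F f z : ℂ))
      (fun z => ((hw α ε η F f z * PhD α ε η 1 (F z) (zd F z) (f z) (zd f z) : ℝ) : ℂ))
      (fun z => ((hw α ε η F f z * PhD α ε η 1 (F z) (zd F z) (f z) (zd f z) *
          PhD α ε η 1 (F z) (zd F z) (f z) (zd f z) +
        hw α ε η F f z * PhDD α ε η 1 (F z) (zd F z) (zd (zd F) z) (f z) (zd f z)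
          (zd (zd f) z) : ℝ) : ℂ))
      (fun z => ((hw α ε η F f z * PhD α ε η Complex.I (F z) (zd F z) (f z) (zd f z) : ℝ) : ℂ))
      (fun z => ((hw α ε η F f z * PhD α ε η Complex.I (F z) (zd F z) (f z) (zd f z) *
          PhD α ε η Complex.I (F z) (zd F z) (f z) (zd f z) +
        hw α ε η F f z * PhDD α ε η Complex.I (F z) (zd F z) (zd (zd F) z) (f z) (zd f z)
          (zd (zd f) z) : ℝ) : ℂ)) := by
  have hF1 := zd_differentiableOn hF
  have hF2 := zd_differentiableOn hF1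
  have hf1 := zd_differentiableOn hf
  have hf2 := zd_differentiableOn hf1
  have cS : ∀ (e : ℝ) (G : ℂ → ℂ), ContinuousOn G (ball 0 R) →
      ContinuousOn (fun z => S e (G z)) (ball 0 R) := by
    intro e G hG
    unfold S
    exact (Complex.continuous_normSq.comp_continuousOn hG).add continuousOn_const
  have cR : ∀ β : ℝ, ContinuousOn (fun z => (S ε (F z)) ^ β) (ball 0 R) := fun β =>
    (cS ε F hF.continuousOn).rpow_const fun z _ => Or.inl (S_pos hε _).ne'
  have cSD : ∀ (ζ : ℂ) (G : ℂ → ℂ), DifferentiableOn ℂ G (ball 0 R) →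
      ContinuousOn (fun z => SD ζ (G z) (zd G z)) (ball 0 R) := by
    intro ζ G hG
    unfold SD
    exact continuousOn_const.mul (Complex.continuous_re.comp_continuousOn
      ((Complex.continuous_conj.comp_continuousOn hG.continuousOn).mul
        (continuousOn_const.mul (zd_differentiableOn hG).continuousOn)))
  have cSDD : ∀ (ζ : ℂ) (G : ℂ → ℂ), DifferentiableOn ℂ G (ball 0 R) →
      ContinuousOn (fun z => SDD ζ (G z) (zd G z) (zd (zd G) z)) (ball 0 R) := by
    intro ζ G hG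
    have g1 := (zd_differentiableOn hG).continuousOn
    have g2 := (zd_differentiableOn (zd_differentiableOn hG)).continuousOn
    unfold SDD
    have e1 : ContinuousOn (fun z => (conj (ζ * zd G z) * (ζ * zd G z)).re) (ball 0 R) :=
      Complex.continuous_re.comp_continuousOn
        ((Complex.continuous_conj.comp_continuousOn (continuousOn_const.mul g1)).mul
          (continuousOn_const.mul g1))
    have e2 : ContinuousOn (fun z => (conj (G z) * (ζ * (ζ * zd (zd G) z))).re) (ball 0 R) :=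
      Complex.continuous_re.comp_continuousOn
        ((Complex.continuous_conj.comp_continuousOn hG.continuousOn).mul
          (continuousOn_const.mul (continuousOn_const.mul g2)))
    exact continuousOn_const.mul (e1.add e2)
  have cPh : ContinuousOn (fun z => Ph α ε η (F z) (f z)) (ball 0 R) := by
    unfold Ph
    exact (cR α).add (continuousOn_const.mul
      ((cS η f hf.continuousOn).log fun z _ => (S_pos hη _).ne'))
  have ch : ContinuousOn (fun z => hw α ε η F f z) (ball 0 R) :=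
    Real.continuous_exp.comp_continuousOn cPh
  have cPhD : ∀ ζ : ℂ, ContinuousOn (fun z => PhD α ε η ζ (F z) (zd F z) (f z) (zd f z))
      (ball 0 R) := by
    intro ζ
    unfold PhD
    exact (((cSD ζ F hF).mul continuousOn_const).mul (cR _)).add (continuousOn_const.mul
      ((cSD ζ f hf).div (cS η f hf.continuousOn) fun z _ => (S_pos hη _).ne'))
  have cPhDD : ∀ ζ : ℂ, ContinuousOn (fun z => PhDD α ε η ζ (F z) (zd F z) (zd (zd F) z)
      (f z) (zd f z) (zd (zd f) z)) (ball 0 R) := by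
    intro ζ
    unfold PhDD
    refine ContinuousOn.add (ContinuousOn.add (((cSDD ζ F hF).mul continuousOn_const).mul (cR _))
      ?_) (continuousOn_const.mul (ContinuousOn.div ?_ ?_ ?_))
    · exact ((cSD ζ F hF).mul continuousOn_const).mul
        (((cSD ζ F hF).mul continuousOn_const).mul (cR _))
    · exact ((cSDD ζ f hf).mul (cS η f hf.continuousOn)).sub ((cSD ζ f hf).mul (cSD ζ f hf))
    · exact (cS η f hf.continuousOn).pow 2
    · intro z _
      exact (pow_pos (S_pos hη _) 2).ne'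
  have d1 : ∀ ζ : ℂ, ∀ z ∈ ball (0 : ℂ) R,
      HasDerivAt (fun t : ℝ => (hw α ε η F f (z * Complex.exp (t * ζ)) : ℂ))
        ((hw α ε η F f z * PhD α ε η ζ (F z) (zd F z) (f z) (zd f z) : ℝ) : ℂ) 0 := by
    intro ζ z hz
    have := (hasDerivAt_Ph (α := α) hε hη (line_deriv hF ζ hz) (line_deriv hf ζ hz)).exp.ofReal_comp
    rw [line_zero F ζ z, line_zero f ζ z] at this
    exact this
  have d1' : ∀ ζ : ℂ, ∀ z ∈ ball (0 : ℂ) R,
      HasDerivAt (fun t : ℝ => hw α ε η F f (z * Complex.exp (t * ζ)))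
        (hw α ε η F f z * PhD α ε η ζ (F z) (zd F z) (f z) (zd f z)) 0 := by
    intro ζ z hz
    have := (hasDerivAt_Ph (α := α) hε hη (line_deriv hF ζ hz) (line_deriv hf ζ hz)).exp
    rw [line_zero F ζ z, line_zero f ζ z] at this
    exact this
  have d2 : ∀ ζ : ℂ, ∀ z ∈ ball (0 : ℂ) R,
      HasDerivAt (fun t : ℝ => ((hw α ε η F f (z * Complex.exp (t * ζ)) *
        PhD α ε η ζ (F (z * Complex.exp (t * ζ))) (zd F (z * Complex.exp (t * ζ)))
          (f (z * Complex.exp (t * ζ))) (zd f (z * Complex.exp (t * ζ))) : ℝ) : ℂ))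
        ((hw α ε η F f z * PhD α ε η ζ (F z) (zd F z) (f z) (zd f z) *
          PhD α ε η ζ (F z) (zd F z) (f z) (zd f z) +
        hw α ε η F f z * PhDD α ε η ζ (F z) (zd F z) (zd (zd F) z) (f z) (zd f z)
          (zd (zd f) z) : ℝ) : ℂ) 0 := by
    intro ζ z hz
    have hA := line_deriv hF ζ hz
    have hB := line_deriv hF1 ζ hz
    have hA' := line_deriv hf ζ hz
    have hB' := line_deriv hf1 ζ hz
    rw [← line_zero (zd F) ζ z] at hA
    rw [← line_zero (zd f) ζ z] at hA'
    have h2 := hasDerivAt_PhD (α := α) hε hη hA hB hA' hB'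
    have h3 := ((d1' ζ z hz).mul h2).ofReal_comp
    rw [line_zero F ζ z, line_zero f ζ z, line_zero (zd F) ζ z, line_zero (zd f) ζ z,
      line_zero_real (hw α ε η F f) ζ z] at h3
    exact h3
  have co : ∀ g : ℂ → ℝ, ContinuousOn g (ball 0 R) → ContinuousOn (fun z => (g z : ℂ)) (ball 0 R) :=
    fun g hg => Complex.continuous_ofReal.comp_continuousOn hg
  exact ⟨co _ ch, co _ (ch.mul (cPhD 1)), co _ (((ch.mul (cPhD 1)).mul (cPhD 1)).add
      (ch.mul (cPhDD 1))), co _ (ch.mul (cPhD _)),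
    co _ (((ch.mul (cPhD _)).mul (cPhD _)).add (ch.mul (cPhDD _))), d1 1, d2 1, d1 _, d2 _⟩

/-- Second application. -/
theorem green_h {R α ε η : ℝ} (hR : 1 < R) (hε : 0 < ε) (hη : 0 < η) {F f : ℂ → ℂ}
    (hF : DifferentiableOn ℂ F (ball 0 R)) (hf : DifferentiableOn ℂ f (ball 0 R)) :
    ∫ z in ball (0 : ℂ) 1, (((1 - Complex.normSq z) * (hw α ε η F f z *
      (LPh α ε η (F z) (deriv F z) (f z) (deriv f z) +
        Complex.normSq (WPh α ε η (F z) (deriv F z) (f z) (deriv f z)))) +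
        4 * hw α ε η F f z : ℝ) : ℂ) =
      ∫ y in (-Real.pi)..Real.pi, ((2 * hw α ε η F f (cpt 1 y) : ℝ) : ℂ) := by
  have hF' := hF.deriv isOpen_ball
  have hf' := hf.deriv isOpen_ball
  have cS : ∀ (e : ℝ) (G : ℂ → ℂ), ContinuousOn G (ball 0 R) →
      ContinuousOn (fun z => S e (G z)) (ball 0 R) := by
    intro e G hG
    unfold S
    exact (Complex.continuous_normSq.comp_continuousOn hG).add continuousOn_const
  have cR : ∀ β : ℝ, ContinuousOn (fun z => (S ε (F z)) ^ β) (ball 0 R) := fun β =>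
    (cS ε F hF.continuousOn).rpow_const fun z _ => Or.inl (S_pos hε _).ne'
  have cN : ∀ G : ℂ → ℂ, ContinuousOn G (ball 0 R) →
      ContinuousOn (fun z => Complex.normSq (G z)) (ball 0 R) := fun G hG =>
    Complex.continuous_normSq.comp_continuousOn hG
  have ch : ContinuousOn (fun z => hw α ε η F f z) (ball 0 R) := by
    unfold hw Ph
    exact Real.continuous_exp.comp_continuousOn ((cR α).add (continuousOn_const.mul
      ((cS η f hf.continuousOn).log fun z _ => (S_pos hη _).ne')))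
  have cL : ContinuousOn (fun z => LPh α ε η (F z) (deriv F z) (f z) (deriv f z)) (ball 0 R) := by
    unfold LPh
    refine ContinuousOn.add ?_ ?_
    · exact ((cR _).mul (continuousOn_const.mul (cN _ hF'.continuousOn))).mul
        ((cS ε F hF.continuousOn).add (continuousOn_const.mul (cN _ hF.continuousOn)))
    · refine continuousOn_const.mul (ContinuousOn.div ?_ ?_ ?_)
      · exact (continuousOn_const.mul (cN _ hf'.continuousOn)).mul
          ((cS η f hf.continuousOn).sub (cN _ hf.continuousOn))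
      · exact (cS η f hf.continuousOn).pow 2
      · intro z _
        exact (pow_pos (S_pos hη _) 2).ne'
  have cW : ContinuousOn (fun z => WPh α ε η (F z) (deriv F z) (f z) (deriv f z)) (ball 0 R) := by
    unfold WPh
    refine ContinuousOn.add ?_ ?_
    · exact (Complex.continuous_ofReal.comp_continuousOn (continuousOn_const.mul (cR _))).mul
        ((Complex.continuous_conj.comp_continuousOn hF.continuousOn).mul hF'.continuousOn)
    · exact (Complex.continuous_ofReal.comp_continuousOn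
        ((cS η f hf.continuousOn).inv₀ fun z _ => (S_pos hη _).ne')).mul
        ((Complex.continuous_conj.comp_continuousOn hf.continuousOn).mul hf'.continuousOn)
  have key := green_disc hR (D2_psi (R := R) (f := fun _ => (1 : ℂ)) (differentiableOn_const 1))
    (D2_h (α := α) hε hη hF hf)
    (k := fun z => (((1 - Complex.normSq z) * (hw α ε η F f z *
      (LPh α ε η (F z) (deriv F z) (f z) (deriv f z) +
        Complex.normSq (WPh α ε η (F z) (deriv F z) (f z) (deriv f z)))) +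
        4 * hw α ε η F f z : ℝ) : ℂ)) ?_ ?_ ?_
  · rw [key]
    refine intervalIntegral.integral_congr fun y _ => ?_
    have h1 : Complex.normSq (cpt 1 y) = 1 := by
      rw [Complex.normSq_eq_norm_sq, norm_cpt]; simp
    simp only [h1]
    push_cast
    ring
  · simp [PhD, zd, SD]
  · refine Complex.continuous_ofReal.comp_continuousOn (ContinuousOn.add ?_ ?_)
    · exact (continuousOn_const.sub Complex.continuous_normSq.continuousOn).mul
        (ch.mul (cL.add (cN _ cW)))
    · exact continuousOn_const.mul ch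
  · intro z _
    have hz1 : zd (fun _ : ℂ => (1 : ℂ)) z = 0 := by simp [zd]
    have hz2 : zd (zd (fun _ : ℂ => (1 : ℂ))) z = 0 := by
      have : zd (fun _ : ℂ => (1 : ℂ)) = fun _ => 0 := by funext w; simp [zd]
      rw [this]; simp [zd]
    rw [hz1, hz2]
    have e1 := PhDD_sum (α := α) (η := η) hε (F z) (zd F z) (zd (zd F) z) (f z) (zd f z) (zd (zd f) z)
    have e2 := PhD_sq_sum α ε η (F z) (zd F z) (f z) (zd f z)
    have e3 : LPh α ε η (F z) (zd F z) (f z) (zd f z) =
      Complex.normSq z * LPh α ε η (F z) (deriv F z) (f z) (deriv f z) := LPh_mul _ _ _ _ _ _ _ _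
    have e4 : WPh α ε η (F z) (zd F z) (f z) (zd f z) =
      z * WPh α ε η (F z) (deriv F z) (f z) (deriv f z) := WPh_mul _ _ _ _ _ _ _ _
    rw [e3] at e1
    rw [e4, Complex.normSq_mul] at e2
    have e5 : hw α ε η F f z * PhD α ε η 1 (F z) (zd F z) (f z) (zd f z) *
          PhD α ε η 1 (F z) (zd F z) (f z) (zd f z) +
        hw α ε η F f z * PhDD α ε η 1 (F z) (zd F z) (zd (zd F) z) (f z) (zd f z)
          (zd (zd f) z) +
        (hw α ε η F f z * PhD α ε η Complex.I (F z) (zd F z) (f z) (zd f z) *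
          PhD α ε η Complex.I (F z) (zd F z) (f z) (zd f z) +
        hw α ε η F f z * PhDD α ε η Complex.I (F z) (zd F z) (zd (zd F) z) (f z) (zd f z)
          (zd (zd f) z)) =
        Complex.normSq z * (hw α ε η F f z *
          (LPh α ε η (F z) (deriv F z) (f z) (deriv f z) +
          Complex.normSq (WPh α ε η (F z) (deriv F z) (f z) (deriv f z)))) := by
      linear_combination hw α ε η F f z * e1 + hw α ε η F f z * e2
    rw [← Complex.ofReal_add, e5]
    push_cast
    ring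

end

end Pool.Agent.Lib.MP_7d928b_an
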