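import Mathlib
import Pool.Agent.Lib.MP_7d928b_an.Green

/-!
The key inequality.
-/

namespace Pool.Agent.Lib.MP_7d928b_an

open MeasureTheory Set Filter Topology Metric
open scoped ComplexConjugate

noncomputable section

lemma norm_V_le {γ ε : ℝ} (hε : 0 < ε) (a : ℂ) : ‖V γ ε a‖ ≤ (S ε a) ^ (γ + 1 / 2) := by
  have hS := S_pos hε a
  unfold V
  rw [norm_mul, RCLike.norm_conj, Complex.norm_real, Real.norm_eq_abs,
    abs_of_pos (Real.rpow_pos_of_pos hS _), Real.rpow_add hS]
  refine mul_le_mul_of_nonneg_left ?_ (Real.rpow_pos_of_pos hS _).le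
  rw [← Real.sqrt_eq_rpow]
  apply Real.le_sqrt_of_sq_le
  rw [← Complex.normSq_eq_norm_sq]
  simp [S]; positivity

lemma S_le {ε M : ℝ} (hε : 0 < ε) (hε1 : ε ≤ 1) {a : ℂ} (ha : ‖a‖ ≤ M) :
    S ε a ≤ M ^ 2 + 1 := by
  unfold S
  rw [Complex.normSq_eq_norm_sq]
  have h1 : ‖a‖ ^ 2 ≤ M ^ 2 := by
    have := norm_nonneg a
    nlinarith
  nlinarith

lemma hw_eq {α ε η : ℝ} (hη : 0 < η) (F f : ℂ → ℂ) (z : ℂ) :
    hw α ε η F f z = Real.exp ((S ε (F z)) ^ α) * Real.sqrt (S η (f z)) := by
  unfold hw Ph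
  rw [Real.exp_add]
  congr 1
  rw [Real.sqrt_eq_rpow, Real.rpow_def_of_pos (S_pos hη _)]
  ring_nf

lemma norm_le_hw {α ε η : ℝ} (hε : 0 < ε) (hη : 0 < η) (F f : ℂ → ℂ) (z : ℂ) :
    ‖f z‖ ≤ hw α ε η F f z := by
  rw [hw_eq hη]
  have h1 : ‖f z‖ ≤ Real.sqrt (S η (f z)) := by
    apply Real.le_sqrt_of_sq_le
    rw [← Complex.normSq_eq_norm_sq]
    simp [S]; positivity
  have h2 : 1 ≤ Real.exp ((S ε (F z)) ^ α) :=
    Real.one_le_exp (Real.rpow_nonneg (S_pos hε _).le _)
  nlinarith [Real.sqrt_nonneg (S η (f z))]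

lemma hw_le {α ε η M : ℝ} (hα : 0 < α) (hε : 0 < ε) (hε1 : ε ≤ 1) (hη : 0 < η) (F f : ℂ → ℂ)
    {z : ℂ} (hz : ‖F z‖ ≤ M) :
    hw α ε η F f z ≤ Real.exp ((M ^ 2 + 1) ^ α) * (‖f z‖ + η) := by
  rw [hw_eq hη]
  have h1 : Real.sqrt (S η (f z)) ≤ ‖f z‖ + η := by
    rw [Real.sqrt_le_left (by positivity)]
    unfold S
    rw [Complex.normSq_eq_norm_sq]
    nlinarith [norm_nonneg (f z)]
  have h2 : Real.exp ((S ε (F z)) ^ α) ≤ Real.exp ((M ^ 2 + 1) ^ α) := by
    apply Real.exp_le_exp.2
    exact Real.rpow_le_rpow (S_pos hε _).le (S_le hε hε1 hz) hα.le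
  exact mul_le_mul h2 h1 (Real.sqrt_nonneg _) (Real.exp_pos _).le

/-- The constant of the key inequality. -/
def CK (γ M : ℝ) : ℝ :=
  (1 / 2) * (M ^ 2 + 1) ^ (γ + 1 / 2) +
    (1 / 2) * ((4 * |γ| * max (γ + 1) 2) / (4 * (γ + 1 / 2) * min (γ + 1 / 2) 1)) *
      Real.exp ((M ^ 2 + 1) ^ (γ + 1 / 2))

theorem KP_eta {γ M R ε η : ℝ} (hγ : -(1 / 2) < γ) (hR : 1 < R) (hε : 0 < ε) (hε1 : ε ≤ 1)
    (hη : 0 < η) {F f : ℂ → ℂ}
    (hF : DifferentiableOn ℂ F (ball 0 R)) (hf : DifferentiableOn ℂ f (ball 0 R))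
    (hM : ∀ z ∈ closedBall (0 : ℂ) 1, ‖F z‖ ≤ M) :
    ‖∫ z in ball (0 : ℂ) 1, (f z + z * deriv f z) * V γ ε (F z)‖ ≤
      CK γ M * ∫ y in (-Real.pi)..Real.pi, (‖f (cpt 1 y)‖ + η) := by
  set α : ℝ := γ + 1 / 2 with hα
  have hα0 : 0 < α := by linarith
  have hsub : closedBall (0 : ℂ) 1 ⊆ ball 0 R := closedBall_subset_ball hR
  have hF' := hF.deriv isOpen_ball
  have hf' := hf.deriv isOpen_ball
  set C1 : ℝ := 4 * |γ| * max (γ + 1) 2 with hC1
  set c2 : ℝ := 4 * α * min α 1 with hc2
  have hc2pos : 0 < c2 := by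
    have : 0 < min α 1 := lt_min hα0 one_pos
    positivity
  have hC1nn : 0 ≤ C1 := by
    have : (0 : ℝ) ≤ max (γ + 1) 2 := le_trans (by norm_num) (le_max_right _ _)
    positivity
  -- continuity on the closed disc
  have cS : ∀ (e : ℝ) (G : ℂ → ℂ), ContinuousOn G (ball 0 R) →
      ContinuousOn (fun z => S e (G z)) (ball 0 R) := by
    intro e G hG
    unfold S
    exact (Complex.continuous_normSq.comp_continuousOn hG).add continuousOn_const
  have cR : ∀ β : ℝ, ContinuousOn (fun z => (S ε (F z)) ^ β) (ball 0 R) := fun β =>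
    (cS ε F hF.continuousOn).rpow_const fun z _ => Or.inl (S_pos hε _).ne'
  have cN : ∀ G : ℂ → ℂ, ContinuousOn G (ball 0 R) →
      ContinuousOn (fun z => Complex.normSq (G z)) (ball 0 R) := fun G hG =>
    Complex.continuous_normSq.comp_continuousOn hG
  have cV : ContinuousOn (fun z => V γ ε (F z)) (ball 0 R) := (D2_V (γ := γ) hε hF).c0
  have cLV : ContinuousOn (fun z => LV γ ε (F z) (deriv F z)) (ball 0 R) := by
    unfold LV
    refine ContinuousOn.mul (Complex.continuous_ofReal.comp_continuousOn ?_)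
      (Complex.continuous_conj.comp_continuousOn hF.continuousOn)
    refine ContinuousOn.mul (ContinuousOn.mul (continuousOn_const.mul
      (Complex.continuous_normSq.comp_continuousOn hF'.continuousOn)) (cR _)) ?_
    exact (continuousOn_const.mul (Complex.continuous_normSq.comp_continuousOn
      hF.continuousOn)).add continuousOn_const
  have ch : ContinuousOn (fun z => hw α ε η F f z) (ball 0 R) := by
    unfold hw Ph
    exact Real.continuous_exp.comp_continuousOn ((cR α).add (continuousOn_const.mul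
      ((cS η f hf.continuousOn).log fun z _ => (S_pos hη _).ne')))
  have cL : ContinuousOn (fun z => LPh α ε η (F z) (deriv F z) (f z) (deriv f z)) (ball 0 R) := by
    unfold LPh
    refine ContinuousOn.add ?_ ?_
    · exact ((cR _).mul (continuousOn_const.mul (cN _ hF'.continuousOn))).mul
        ((cS ε F hF.continuousOn).add (continuousOn_const.mul (cN _ hF.continuousOn)))
    · refine continuousOn_const.mul (ContinuousOn.div ?_ ?_ ?_)
      · exact (continuousOn_const.mul (cN _ hf'.continuousOn)).mul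
          ((cS η f hf.continuousOn).sub (cN _ hf.continuousOn))
      · exact (cS η f hf.continuousOn).pow 2
      · intro z _
        exact (pow_pos (S_pos hη _) 2).ne'
  have cW : ContinuousOn (fun z => WPh α ε η (F z) (deriv F z) (f z) (deriv f z)) (ball 0 R) := by
    unfold WPh
    refine ContinuousOn.add ?_ ?_
    · exact (Complex.continuous_ofReal.comp_continuousOn (continuousOn_const.mul (cR _))).mul
        ((Complex.continuous_conj.comp_continuousOn hF.continuousOn).mul hF'.continuousOn)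
    · exact (Complex.continuous_ofReal.comp_continuousOn
        ((cS η f hf.continuousOn).inv₀ fun z _ => (S_pos hη _).ne')).mul
        ((Complex.continuous_conj.comp_continuousOn hf.continuousOn).mul hf'.continuousOn)
  have cn : ContinuousOn (fun z : ℂ => (Complex.normSq z : ℂ)) (ball 0 R) :=
    (Complex.continuous_ofReal.comp Complex.continuous_normSq).continuousOn
  have intC : ∀ G : ℂ → ℂ, ContinuousOn G (ball 0 R) → IntegrableOn G (ball 0 1) := fun G hG =>
    ((hG.mono hsub).integrableOn_compact (isCompact_closedBall _ _)).mono_set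
      ball_subset_closedBall
  have intR : ∀ G : ℂ → ℝ, ContinuousOn G (ball 0 R) → IntegrableOn G (ball 0 1) := fun G hG =>
    ((hG.mono hsub).integrableOn_compact (isCompact_closedBall _ _)).mono_set
      ball_subset_closedBall
  -- the two identities
  have hV := green_V (γ := γ) hR hε hF hf
  have hh := green_h (α := α) hR hε hη hF hf
  have c1 : ContinuousOn (fun z => (1 - (Complex.normSq z : ℂ)) * f z * LV γ ε (F z) (deriv F z))
      (ball 0 R) := ((continuousOn_const.sub cn).mul hf.continuousOn).mul cLV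
  have c2' : ContinuousOn (fun z => (f z + z * deriv f z) * V γ ε (F z)) (ball 0 R) :=
    (hf.continuousOn.add (continuousOn_id.mul hf'.continuousOn)).mul cV
  have e1 : ∫ z in ball (0 : ℂ) 1, ((1 - (Complex.normSq z : ℂ)) * f z * LV γ ε (F z) (deriv F z) +
        4 * (f z + z * deriv f z) * V γ ε (F z)) =
      (∫ z in ball (0 : ℂ) 1, (1 - (Complex.normSq z : ℂ)) * f z * LV γ ε (F z) (deriv F z)) +
      4 * ∫ z in ball (0 : ℂ) 1, (f z + z * deriv f z) * V γ ε (F z) := by
    rw [← integral_const_mul, ← integral_add (intC _ c1) ((intC _ c2').const_mul 4)]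
    refine integral_congr_ae (Eventually.of_forall fun z => ?_)
    simp only
    ring
  rw [e1] at hV
  -- bound of the boundary integral
  have contT : ∀ G : ℂ → ℂ, ContinuousOn G (ball 0 R) → Continuous (fun y : ℝ => G (cpt 1 y)) :=
    fun G hG => hG.comp_continuous (continuous_cpt_right 1) fun y => by
      rw [mem_ball_zero_iff, norm_cpt, abs_one]; exact hR
  have memT : ∀ y : ℝ, cpt 1 y ∈ closedBall (0 : ℂ) 1 := fun y => by
    rw [mem_closedBall_zero_iff, norm_cpt, abs_one]
  have cf := contT f hf.continuousOn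
  have hpi : -Real.pi ≤ Real.pi := by linarith [Real.pi_pos]
  set I0 : ℝ := ∫ y in (-Real.pi)..Real.pi, (‖f (cpt 1 y)‖ + η) with hI0
  have hbd : ‖∫ y in (-Real.pi)..Real.pi, 2 * f (cpt 1 y) * V γ ε (F (cpt 1 y))‖ ≤
      2 * (M ^ 2 + 1) ^ α * I0 := by
    refine (intervalIntegral.norm_integral_le_integral_norm hpi).trans ?_
    rw [hI0, ← intervalIntegral.integral_const_mul]
    refine intervalIntegral.integral_mono_on hpi ?_ ?_ fun y _ => ?_
    · exact ((continuous_const.mul cf).mul (contT _ cV)).norm.intervalIntegrable _ _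
    · exact (continuous_const.mul (cf.norm.add continuous_const)).intervalIntegrable _ _
    · rw [norm_mul, norm_mul]
      have h1 : ‖V γ ε (F (cpt 1 y))‖ ≤ (M ^ 2 + 1) ^ α :=
        (norm_V_le hε _).trans (Real.rpow_le_rpow (S_pos hε _).le
          (S_le hε hε1 (hM _ (memT y))) hα0.le)
      have h2 : 0 ≤ (M ^ 2 + 1) ^ α := Real.rpow_nonneg (by positivity) _
      have h3 : ‖(2 : ℂ)‖ = 2 := by norm_num
      rw [h3]
      have h4 := norm_nonneg (f (cpt 1 y))
      nlinarith [mul_le_mul_of_nonneg_left h1 h4, mul_nonneg h2 hη.le]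
  -- bound of the area integral
  set Kh : ℂ → ℝ := fun z => (1 - Complex.normSq z) * (hw α ε η F f z *
      (LPh α ε η (F z) (deriv F z) (f z) (deriv f z) +
        Complex.normSq (WPh α ε η (F z) (deriv F z) (f z) (deriv f z)))) +
        4 * hw α ε η F f z with hKh
  have cKh : ContinuousOn Kh (ball 0 R) :=
    ((continuousOn_const.sub Complex.continuous_normSq.continuousOn).mul
      (ch.mul (cL.add (cN _ cW)))).add (continuousOn_const.mul ch)
  have hKhint : ∫ z in ball (0 : ℂ) 1, Kh z = ∫ y in (-Real.pi)..Real.pi, 2 * hw α ε η F f (cpt 1 y) := by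
    have h1 : ((∫ z in ball (0 : ℂ) 1, Kh z : ℝ) : ℂ) =
        ((∫ y in (-Real.pi)..Real.pi, 2 * hw α ε η F f (cpt 1 y) : ℝ) : ℂ) := by
      rw [← intervalIntegral.integral_ofReal, ← hh, ← integral_complex_ofReal]
    exact_mod_cast h1
  have hptw : ∀ z ∈ ball (0 : ℂ) 1,
      ‖(1 - (Complex.normSq z : ℂ)) * f z * LV γ ε (F z) (deriv F z)‖ ≤ (C1 / c2) * Kh z := by
    intro z hz
    have hz1 : Complex.normSq z < 1 := by
      rw [Complex.normSq_eq_norm_sq]
      have := mem_ball_zero_iff.1 hz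
      have h0 := norm_nonneg z
      nlinarith
    have hn : ‖(1 - (Complex.normSq z : ℂ))‖ = 1 - Complex.normSq z := by
      have : (1 - (Complex.normSq z : ℂ)) = ((1 - Complex.normSq z : ℝ) : ℂ) := by push_cast; ring
      rw [this, Complex.norm_real, Real.norm_eq_abs, abs_of_pos (by linarith)]
    rw [norm_mul, norm_mul, hn]
    have hLV := norm_LV_le hγ hε (F z) (deriv F z)
    have hLP := LPh_ge (ε := ε) (η := η) hα0 hε hη (F z) (deriv F z) (f z) (deriv f z)
    have hfh := norm_le_hw (α := α) hε hη F f z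
    have hh0 : 0 ≤ hw α ε η F f z := (Real.exp_pos _).le
    have hWn := Complex.normSq_nonneg (WPh α ε η (F z) (deriv F z) (f z) (deriv f z))
    set Y : ℝ := (S ε (F z)) ^ (α - 1) * Complex.normSq (deriv F z) with hY
    have hY0 : 0 ≤ Y := mul_nonneg (Real.rpow_nonneg (S_pos hε _).le _) (Complex.normSq_nonneg _)
    have hLV' : ‖LV γ ε (F z) (deriv F z)‖ ≤ C1 * Y := by
      rw [hY, hC1, hα]; linarith
    have hLP' : c2 * Y ≤ LPh α ε η (F z) (deriv F z) (f z) (deriv f z) := by
      rw [hY, hc2]; linarith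
    have hd : 0 ≤ 1 - Complex.normSq z := by linarith
    calc (1 - Complex.normSq z) * ‖f z‖ * ‖LV γ ε (F z) (deriv F z)‖
        ≤ (1 - Complex.normSq z) * hw α ε η F f z * (C1 * Y) := by gcongr
      _ = (C1 / c2) * ((1 - Complex.normSq z) * (hw α ε η F f z * (c2 * Y))) := by
          field_simp
      _ ≤ (C1 / c2) * Kh z := by
          refine mul_le_mul_of_nonneg_left ?_ (by positivity)
          rw [hKh]
          have : hw α ε η F f z * (c2 * Y) ≤ hw α ε η F f z *
            (LPh α ε η (F z) (deriv F z) (f z) (deriv f z) +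
            Complex.normSq (WPh α ε η (F z) (deriv F z) (f z) (deriv f z))) :=
            mul_le_mul_of_nonneg_left (by linarith) hh0
          have := mul_le_mul_of_nonneg_left this hd
          linarith
  have harea : ‖∫ z in ball (0 : ℂ) 1, (1 - (Complex.normSq z : ℂ)) * f z * LV γ ε (F z) (deriv F z)‖
      ≤ (C1 / c2) * (2 * (Real.exp ((M ^ 2 + 1) ^ α) * I0)) := by
    refine (norm_integral_le_integral_norm _).trans ?_
    have h1 : ∫ z in ball (0 : ℂ) 1, ‖(1 - (Complex.normSq z : ℂ)) * f z * LV γ ε (F z) (deriv F z)‖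
        ≤ ∫ z in ball (0 : ℂ) 1, (C1 / c2) * Kh z :=
      setIntegral_mono_on (intC _ c1).norm ((intR _ cKh).const_mul _) measurableSet_ball hptw
    refine h1.trans ?_
    rw [integral_const_mul, hKhint]
    refine mul_le_mul_of_nonneg_left ?_ (by positivity)
    rw [← mul_assoc, hI0, ← intervalIntegral.integral_const_mul]
    have chT : Continuous (fun y : ℝ => hw α ε η F f (cpt 1 y)) :=
      ch.comp_continuous (continuous_cpt_right 1) fun y => by
        rw [mem_ball_zero_iff, norm_cpt, abs_one]; exact hR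
    refine intervalIntegral.integral_mono_on hpi ?_ ?_ fun y _ => ?_
    · exact (continuous_const.mul chT).intervalIntegrable _ _
    · exact (continuous_const.mul (cf.norm.add continuous_const)).intervalIntegrable _ _
    · rw [mul_assoc]
      exact mul_le_mul_of_nonneg_left (hw_le hα0 hε hε1 hη F f (hM _ (memT y))) (by norm_num)
  -- conclusion
  have e2 : 4 * ∫ z in ball (0 : ℂ) 1, (f z + z * deriv f z) * V γ ε (F z) =
      (∫ y in (-Real.pi)..Real.pi, 2 * f (cpt 1 y) * V γ ε (F (cpt 1 y))) -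
      ∫ z in ball (0 : ℂ) 1, (1 - (Complex.normSq z : ℂ)) * f z * LV γ ε (F z) (deriv F z) := by
    rw [← hV]; ring
  have e3 : 4 * ‖∫ z in ball (0 : ℂ) 1, (f z + z * deriv f z) * V γ ε (F z)‖ ≤
      2 * (M ^ 2 + 1) ^ α * I0 + (C1 / c2) * (2 * (Real.exp ((M ^ 2 + 1) ^ α) * I0)) := by
    have : 4 * ‖∫ z in ball (0 : ℂ) 1, (f z + z * deriv f z) * V γ ε (F z)‖ =
        ‖4 * ∫ z in ball (0 : ℂ) 1, (f z + z * deriv f z) * V γ ε (F z)‖ := by
      rw [norm_mul]; norm_num
    rw [this, e2]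
    exact (norm_sub_le _ _).trans (add_le_add hbd harea)
  have e4 : CK γ M * I0 = (1 / 4) * (2 * (M ^ 2 + 1) ^ α * I0 +
      (C1 / c2) * (2 * (Real.exp ((M ^ 2 + 1) ^ α) * I0))) := by
    unfold CK
    rw [hC1, hc2, hα]
    ring
  rw [e4]
  linarith

/-- **Key inequality.** -/
theorem KP {γ M R ε : ℝ} (hγ : -(1 / 2) < γ) (hR : 1 < R) (hε : 0 < ε) (hε1 : ε ≤ 1)
    {F f : ℂ → ℂ}
    (hF : DifferentiableOn ℂ F (ball 0 R)) (hf : DifferentiableOn ℂ f (ball 0 R))
    (hM : ∀ z ∈ closedBall (0 : ℂ) 1, ‖F z‖ ≤ M) :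
    ‖∫ z in ball (0 : ℂ) 1, (f z + z * deriv f z) * V γ ε (F z)‖ ≤
      CK γ M * ∫ y in (-Real.pi)..Real.pi, ‖f (cpt 1 y)‖ := by
  have h1 : ∀ η : ℝ, 0 < η → ‖∫ z in ball (0 : ℂ) 1, (f z + z * deriv f z) * V γ ε (F z)‖ ≤
      CK γ M * ((∫ y in (-Real.pi)..Real.pi, ‖f (cpt 1 y)‖) + 2 * Real.pi * η) := by
    intro η hη
    have h := KP_eta hγ hR hε hε1 hη hF hf hM
    have cf : Continuous (fun y : ℝ => f (cpt 1 y)) :=
      hf.continuousOn.comp_continuous (continuous_cpt_right 1) fun y => by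
        rw [mem_ball_zero_iff, norm_cpt, abs_one]; exact hR
    rw [intervalIntegral.integral_add (cf.norm.intervalIntegrable _ _)
      (continuous_const.intervalIntegrable _ _), intervalIntegral.integral_const, smul_eq_mul] at h
    convert h using 3
    ring
  have h2 : Tendsto (fun η : ℝ => CK γ M * ((∫ y in (-Real.pi)..Real.pi, ‖f (cpt 1 y)‖) +
      2 * Real.pi * η)) (𝓝[>] 0) (𝓝 (CK γ M * ((∫ y in (-Real.pi)..Real.pi, ‖f (cpt 1 y)‖) +
      2 * Real.pi * 0))) := by
    refine Tendsto.mono_left ?_ nhdsWithin_le_nhds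
    exact (continuous_const.mul (continuous_const.add
      (continuous_const.mul continuous_id))).tendsto 0
  rw [mul_zero, add_zero] at h2
  refine ge_of_tendsto h2 ?_
  filter_upwards [self_mem_nhdsWithin] with η hη
  exact h1 η hη

end

end Pool.Agent.Lib.MP_7d928b_an

/-!
The key inequality for bounded analytic functions on the open disc, with `ε = 0`.
-/

namespace Pool.Agent.Lib.MP_7d928b_an

open MeasureTheory Set Filter Topology Metric
open scoped ComplexConjugate

noncomputable section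

lemma tendsto_V {γ : ℝ} (hγ : -(1 / 2) < γ) {ε : ℕ → ℝ} (hε : ∀ n, 0 < ε n)
    (hε0 : Tendsto ε atTop (𝓝 0)) {a : ℕ → ℂ} {a₀ : ℂ} (ha : Tendsto a atTop (𝓝 a₀)) :
    Tendsto (fun n => V γ (ε n) (a n)) atTop (𝓝 (V γ 0 a₀)) := by
  have hS : Tendsto (fun n => S (ε n) (a n)) atTop (𝓝 (S 0 a₀)) := by
    unfold S
    exact ((Complex.continuous_normSq.tendsto a₀).comp ha).add (hε0.pow 2)
  by_cases h0 : a₀ = 0
  · subst h0
    have hV0 : V γ 0 0 = 0 := by simp [V]
    rw [hV0]
    have hS0 : S 0 0 = 0 := by simp [S]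
    rw [hS0] at hS
    have h1 : Tendsto (fun n => (S (ε n) (a n)) ^ (γ + 1 / 2)) atTop (𝓝 0) := by
      have := hS.rpow_const (p := γ + 1 / 2) (Or.inr (by linarith))
      rwa [Real.zero_rpow (by linarith)] at this
    exact squeeze_zero_norm (fun n => norm_V_le (hε n) (a n)) h1
  · have hS0 : S 0 a₀ ≠ 0 := by
      simp [S, h0]
    have h1 := hS.rpow_const (p := γ) (Or.inl hS0)
    unfold V
    exact ((Complex.continuous_ofReal.tendsto _).comp h1).mul
      ((Complex.continuous_conj.tendsto _).comp ha)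

lemma norm_V_zero_le {γ : ℝ} (hγ : -(1 / 2) < γ) {M : ℝ} {a : ℂ} (ha : ‖a‖ ≤ M) :
    ‖V γ 0 a‖ ≤ (M ^ 2 + 1) ^ (γ + 1 / 2) := by
  have h := tendsto_V hγ (ε := fun n : ℕ => 1 / ((n : ℝ) + 1)) (fun n => by positivity)
    tendsto_one_div_add_atTop_nhds_zero_nat (tendsto_const_nhds (x := a))
  refine le_of_tendsto h.norm (Eventually.of_forall fun n => ?_)
  have hε : (0 : ℝ) < 1 / ((n : ℝ) + 1) := by positivity
  refine (norm_V_le hε a).trans (Real.rpow_le_rpow (S_pos hε _).le (S_le hε ?_ ha) (by linarith))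
  rw [div_le_one (by positivity)]
  have : (0 : ℝ) ≤ n := Nat.cast_nonneg n
  linarith

/-- **Key inequality**, limiting form. -/
theorem KP0 {γ M R : ℝ} (hγ : -(1 / 2) < γ) (hR : 1 < R) {F f : ℂ → ℂ}
    (hF : DifferentiableOn ℂ F (ball 0 1)) (hf : DifferentiableOn ℂ f (ball 0 R))
    (hM : ∀ z ∈ ball (0 : ℂ) 1, ‖F z‖ ≤ M) :
    ‖∫ z in ball (0 : ℂ) 1, (f z + z * deriv f z) * V γ 0 (F z)‖ ≤
      CK γ M * ∫ y in (-Real.pi)..Real.pi, ‖f (cpt 1 y)‖ := by
  have hf' := hf.deriv isOpen_ball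
  have hsub : closedBall (0 : ℂ) 1 ⊆ ball 0 R := closedBall_subset_ball hR
  set ρ : ℕ → ℝ := fun n => 1 - 1 / ((n : ℝ) + 2) with hρ
  have hρ0 : ∀ n, 0 < ρ n := by
    intro n
    have : 1 / ((n : ℝ) + 2) < 1 := by
      rw [div_lt_one (by positivity)]
      have : (0 : ℝ) ≤ n := Nat.cast_nonneg n
      linarith
    simp only [hρ]; linarith
  have hρ1 : ∀ n, ρ n < 1 := by
    intro n
    have : 0 < 1 / ((n : ℝ) + 2) := by positivity
    simp only [hρ]; linarith
  have hρt : Tendsto ρ atTop (𝓝 1) := by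
    have h1 : Tendsto (fun n : ℕ => 1 / ((n : ℝ) + 2)) atTop (𝓝 0) := by
      have := (tendsto_const_div_atTop_nhds_zero_nat (1 : ℝ)).comp (tendsto_add_atTop_nat 2)
      refine this.congr fun n => ?_
      simp
    have := (tendsto_const_nhds (x := (1 : ℝ))).sub h1
    simpa [hρ] using this
  set ε : ℕ → ℝ := fun n => 1 / ((n : ℝ) + 1) with hεd
  have hε : ∀ n, 0 < ε n := fun n => by simp only [hεd]; positivity
  have hε1 : ∀ n, ε n ≤ 1 := by
    intro n
    simp only [hεd]
    rw [div_le_one (by positivity)]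
    have : (0 : ℝ) ≤ n := Nat.cast_nonneg n
    linarith
  have hεt : Tendsto ε atTop (𝓝 0) := tendsto_one_div_add_atTop_nhds_zero_nat
  -- the approximating inequalities
  have happ : ∀ n, ‖∫ z in ball (0 : ℂ) 1, (f z + z * deriv f z) *
      V γ (ε n) (F ((ρ n : ℂ) * z))‖ ≤ CK γ M * ∫ y in (-Real.pi)..Real.pi, ‖f (cpt 1 y)‖ := by
    intro n
    have hRn : 1 < min R (1 / ρ n) := lt_min hR (by
      rw [lt_div_iff₀ (hρ0 n)]; linarith [hρ1 n])
    refine KP (F := fun z => F ((ρ n : ℂ) * z)) hγ hRn (hε n) (hε1 n) ?_ ?_ ?_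
    · refine hF.comp (by fun_prop) fun z hz => ?_
      rw [mem_ball_zero_iff] at hz ⊢
      rw [norm_mul, Complex.norm_real, Real.norm_eq_abs, abs_of_pos (hρ0 n)]
      have : ‖z‖ < 1 / ρ n := lt_of_lt_of_le hz (min_le_right _ _)
      rw [lt_div_iff₀ (hρ0 n)] at this
      linarith
    · exact hf.mono (ball_subset_ball (min_le_left _ _))
    · intro z hz
      refine hM _ ?_
      rw [mem_closedBall_zero_iff] at hz
      rw [mem_ball_zero_iff, norm_mul, Complex.norm_real, Real.norm_eq_abs, abs_of_pos (hρ0 n)]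
      have := hρ1 n
      have := hρ0 n
      nlinarith [norm_nonneg z]
  -- passage to the limit
  obtain ⟨C, hC⟩ := (isCompact_closedBall (0 : ℂ) 1).exists_bound_of_continuousOn
    (f := fun z => f z + z * deriv f z)
    ((hf.continuousOn.add (continuousOn_id.mul hf'.continuousOn)).mono hsub)
  have hcontf : ContinuousOn (fun z => f z + z * deriv f z) (ball 0 1) :=
    (hf.continuousOn.add (continuousOn_id.mul hf'.continuousOn)).mono
      (ball_subset_closedBall.trans hsub)
  have hlim : Tendsto (fun n => ∫ z in ball (0 : ℂ) 1, (f z + z * deriv f z) *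
      V γ (ε n) (F ((ρ n : ℂ) * z))) atTop
      (𝓝 (∫ z in ball (0 : ℂ) 1, (f z + z * deriv f z) * V γ 0 (F z))) := by
    refine tendsto_integral_of_dominated_convergence (fun _ => C * (M ^ 2 + 1) ^ (γ + 1 / 2))
      ?_ ?_ ?_ ?_
    · intro n
      have hFn : ContinuousOn (fun z => F ((ρ n : ℂ) * z)) (ball 0 1) := by
        refine hF.continuousOn.comp (by fun_prop) fun z hz => ?_
        rw [mem_ball_zero_iff] at hz ⊢
        rw [norm_mul, Complex.norm_real, Real.norm_eq_abs, abs_of_pos (hρ0 n)]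
        have := hρ1 n
        have := hρ0 n
        nlinarith [norm_nonneg z]
      have cS : ContinuousOn (fun z => S (ε n) (F ((ρ n : ℂ) * z))) (ball 0 1) := by
        unfold S
        exact (Complex.continuous_normSq.comp_continuousOn hFn).add continuousOn_const
      refine ContinuousOn.aestronglyMeasurable ?_ measurableSet_ball
      refine hcontf.mul ?_
      unfold V
      exact (Complex.continuous_ofReal.comp_continuousOn
        (cS.rpow_const fun z _ => Or.inl (S_pos (hε n) _).ne')).mul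
        (Complex.continuous_conj.comp_continuousOn hFn)
    · exact integrableOn_const measure_ball_lt_top.ne
    · intro n
      refine (ae_restrict_iff' measurableSet_ball).2 (Eventually.of_forall fun z hz => ?_)
      rw [norm_mul]
      have h1 := hC z (ball_subset_closedBall hz)
      have hFz : ‖F ((ρ n : ℂ) * z)‖ ≤ M := by
        refine hM _ ?_
        rw [mem_ball_zero_iff] at hz ⊢
        rw [norm_mul, Complex.norm_real, Real.norm_eq_abs, abs_of_pos (hρ0 n)]
        have := hρ1 n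
        have := hρ0 n
        nlinarith [norm_nonneg z]
      have h2 : ‖V γ (ε n) (F ((ρ n : ℂ) * z))‖ ≤ (M ^ 2 + 1) ^ (γ + 1 / 2) :=
        (norm_V_le (hε n) _).trans (Real.rpow_le_rpow (S_pos (hε n) _).le
          (S_le (hε n) (hε1 n) hFz) (by linarith))
      exact mul_le_mul h1 h2 (norm_nonneg _) ((norm_nonneg _).trans h1)
    · refine (ae_restrict_iff' measurableSet_ball).2 (Eventually.of_forall fun z hz => ?_)
      refine tendsto_const_nhds.mul (tendsto_V hγ hε hεt ?_)
      have h1 : Tendsto (fun n => (ρ n : ℂ) * z) atTop (𝓝 ((1 : ℝ) * z)) :=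
        ((Complex.continuous_ofReal.tendsto 1).comp hρt).mul tendsto_const_nhds
      have h2 : ContinuousAt F z := hF.continuousOn.continuousAt (isOpen_ball.mem_nhds hz)
      have h3 : Tendsto F (𝓝 (((1 : ℝ) : ℂ) * z)) (𝓝 (F z)) := by
        simpa using h2.tendsto
      exact h3.comp h1
  exact le_of_tendsto hlim.norm (Eventually.of_forall happ)

end

end Pool.Agent.Lib.MP_7d928b_an
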