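import Mathlib
import Pool.Agent.Lib.MP_7d928b_an.Green
import Pool.Agent.Lib.MP_7d928b_an.KP

/-!
Taylor coefficients and circle integrals.
-/

namespace Pool.Agent.Lib.MP_7d928b_an

open MeasureTheory Set Filter Topology Metric
open scoped ComplexConjugate Nat

noncomputable section

/-- Taylor coefficient at `0`. -/
def cf (f : ℂ → ℂ) (n : ℕ) : ℂ := (n ! : ℂ)⁻¹ * iteratedDeriv n f 0

lemma hasSum_cf {R : ℝ} {f : ℂ → ℂ} (hf : DifferentiableOn ℂ f (ball 0 R)) {z : ℂ}
    (hz : z ∈ ball (0 : ℂ) R) : HasSum (fun n => cf f n * z ^ n) (f z) := by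
  have h := Complex.hasSum_taylorSeries_on_ball hf hz
  have e : (fun n => cf f n * z ^ n) =
      (fun n : ℕ ↦ (n ! : ℂ)⁻¹ • (z - 0) ^ n • iteratedDeriv n f 0) := by
    funext n
    simp only [cf, sub_zero, smul_eq_mul]
    ring
  rw [e]; exact h

lemma summable_cf {R : ℝ} {f : ℂ → ℂ} (hf : DifferentiableOn ℂ f (ball 0 R)) {r : ℝ}
    (hr0 : 0 ≤ r) (hr : r < R) : Summable (fun n => ‖cf f n‖ * r ^ n) := by
  have hz : (r : ℂ) ∈ ball (0 : ℂ) R := by
    rw [mem_ball_zero_iff, Complex.norm_real, Real.norm_eq_abs, abs_of_nonneg hr0]; exact hr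
  have h := (hasSum_cf hf hz).summable.norm
  refine h.congr fun n => ?_
  rw [norm_mul, norm_pow, Complex.norm_real, Real.norm_eq_abs, abs_of_nonneg hr0]

lemma integral_exp_int (m : ℤ) :
    ∫ y in (-Real.pi)..Real.pi, Complex.exp (m * y * Complex.I) =
      if m = 0 then 2 * (Real.pi : ℂ) else 0 := by
  split_ifs with h
  · subst h
    simp
    ring
  · have hc : (m * Complex.I : ℂ) ≠ 0 := by
      simp [h, Complex.I_ne_zero]
    have e : ∀ y : ℝ, Complex.exp (m * y * Complex.I) = Complex.exp (m * Complex.I * y) := by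
      intro y; ring_nf
    simp_rw [e]
    rw [integral_exp_mul_complex hc]
    have : Complex.exp (m * Complex.I * (Real.pi : ℝ)) =
        Complex.exp (m * Complex.I * ((-Real.pi : ℝ) : ℂ)) := by
      rw [Complex.exp_eq_exp_iff_exists_int]
      refine ⟨m, ?_⟩
      push_cast
      ring
    rw [this, sub_self, zero_div]

lemma cpt_pow (r y : ℝ) (n : ℕ) :
    cpt r y ^ n = (r : ℂ) ^ n * Complex.exp (n * y * Complex.I) := by
  rw [cpt, mul_pow, ← Complex.exp_nat_mul]
  congr 2
  ring

/-- Fourier coefficients of the circle restriction. -/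
lemma coef_integral {R : ℝ} {f : ℂ → ℂ} (hf : DifferentiableOn ℂ f (ball 0 R)) {r : ℝ}
    (hr0 : 0 ≤ r) (hr : r < R) (m : ℤ) :
    ∫ y in (-Real.pi)..Real.pi, Complex.exp (-(m * y * Complex.I)) * f (cpt r y) =
      if 0 ≤ m then 2 * (Real.pi : ℂ) * (cf f m.toNat * (r : ℂ) ^ m.toNat) else 0 := by
  have hsum := summable_cf hf hr0 hr
  have hS : HasSum (fun n : ℕ => ∫ y in (-Real.pi)..Real.pi,
      Complex.exp (-(m * y * Complex.I)) * (cf f n * cpt r y ^ n))
      (∫ y in (-Real.pi)..Real.pi, Complex.exp (-(m * y * Complex.I)) * f (cpt r y)) := by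
    refine intervalIntegral.hasSum_integral_of_dominated_convergence
      (fun n _ => ‖cf f n‖ * r ^ n) ?_ ?_ ?_ ?_ ?_
    · intro n
      refine Continuous.aestronglyMeasurable ?_
      unfold cpt
      fun_prop
    · intro n
      refine Eventually.of_forall fun y _ => ?_
      have h1 : ‖Complex.exp (-(m * y * Complex.I))‖ = 1 := by
        have : (-(m * y * Complex.I) : ℂ) = ((-(m * y) : ℝ) : ℂ) * Complex.I := by
          push_cast; ring
        rw [this, Complex.norm_exp_ofReal_mul_I]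
      rw [norm_mul, h1, one_mul, norm_mul, norm_pow, norm_cpt, abs_of_nonneg hr0]
    · exact Eventually.of_forall fun _ _ => hsum
    · exact continuous_const.intervalIntegrable _ _
    · refine Eventually.of_forall fun y _ => ?_
      refine (hasSum_cf hf ?_).mul_left _
      rw [mem_ball_zero_iff, norm_cpt, abs_of_nonneg hr0]; exact hr
  have hterm : ∀ n : ℕ, ∫ y in (-Real.pi)..Real.pi,
      Complex.exp (-(m * y * Complex.I)) * (cf f n * cpt r y ^ n) =
      if (n : ℤ) = m then 2 * (Real.pi : ℂ) * (cf f n * (r : ℂ) ^ n) else 0 := by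
    intro n
    have e : ∀ y : ℝ, Complex.exp (-(m * y * Complex.I)) * (cf f n * cpt r y ^ n) =
        (cf f n * (r : ℂ) ^ n) * Complex.exp (((n : ℤ) - m : ℤ) * y * Complex.I) := by
      intro y
      rw [cpt_pow]
      have : Complex.exp (((n : ℤ) - m : ℤ) * y * Complex.I) =
          Complex.exp (-(m * y * Complex.I)) * Complex.exp (n * y * Complex.I) := by
        rw [← Complex.exp_add]
        congr 1
        push_cast
        ring
      rw [this]
      ring
    simp_rw [e]
    rw [intervalIntegral.integral_const_mul, integral_exp_int]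
    by_cases h : (n : ℤ) = m
    · rw [if_pos h, if_pos (by omega)]; ring
    · rw [if_neg h, if_neg (by omega), mul_zero]
  simp_rw [hterm] at hS
  refine hS.unique ?_
  by_cases hm : 0 ≤ m
  · rw [if_pos hm]
    have : (fun n : ℕ => if (n : ℤ) = m then 2 * (Real.pi : ℂ) * (cf f n * (r : ℂ) ^ n) else 0) =
        fun n : ℕ => if n = m.toNat then 2 * (Real.pi : ℂ) * (cf f m.toNat * (r : ℂ) ^ m.toNat)
          else 0 := by
      funext n
      by_cases h : (n : ℤ) = m
      · have h' : n = m.toNat := by omega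
        rw [if_pos h, if_pos h', h']
      · have h' : n ≠ m.toNat := by omega
        rw [if_neg h, if_neg h']
    rw [this]
    exact hasSum_ite_eq _ _
  · rw [if_neg hm]
    have : (fun n : ℕ => if (n : ℤ) = m then 2 * (Real.pi : ℂ) * (cf f n * (r : ℂ) ^ n) else 0) =
        fun _ => 0 := by
      funext n
      rw [if_neg (by omega)]
    rw [this]
    exact hasSum_zero

/-- Parseval type pairing of two analytic functions on circles. -/
lemma hasSum_pairing {R R' : ℝ} {f g : ℂ → ℂ} (hf : DifferentiableOn ℂ f (ball 0 R))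
    (hg : DifferentiableOn ℂ g (ball 0 R')) {s t : ℝ} (hs0 : 0 ≤ s) (hs : s < R') (ht0 : 0 ≤ t)
    (ht : t < R) :
    HasSum (fun n : ℕ => 2 * (Real.pi : ℂ) * (cf g n * (s : ℂ) ^ n) * conj (cf f n * (t : ℂ) ^ n))
      (∫ y in (-Real.pi)..Real.pi, g (cpt s y) * conj (f (cpt t y))) := by
  have hsum := summable_cf hg hs0 hs
  have cf' : Continuous (fun y : ℝ => f (cpt t y)) :=
    hf.continuousOn.comp_continuous (continuous_cpt_right t) fun y => by
      rw [mem_ball_zero_iff, norm_cpt, abs_of_nonneg ht0]; exact ht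
  have hbd : ∃ C : ℝ, ∀ y : ℝ, ‖f (cpt t y)‖ ≤ C := by
    have hsub : closedBall (0 : ℂ) t ⊆ ball 0 R := closedBall_subset_ball ht
    obtain ⟨C, hC⟩ := (isCompact_closedBall (0 : ℂ) t).exists_bound_of_continuousOn
      (hf.continuousOn.mono hsub)
    refine ⟨C, fun y => hC _ ?_⟩
    rw [mem_closedBall_zero_iff, norm_cpt, abs_of_nonneg ht0]
  obtain ⟨C, hC⟩ := hbd
  have hC0 : 0 ≤ C := (norm_nonneg _).trans (hC 0)
  have hS : HasSum (fun n : ℕ => ∫ y in (-Real.pi)..Real.pi,
      (cf g n * cpt s y ^ n) * conj (f (cpt t y)))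
      (∫ y in (-Real.pi)..Real.pi, g (cpt s y) * conj (f (cpt t y))) := by
    refine intervalIntegral.hasSum_integral_of_dominated_convergence
      (fun n _ => (‖cf g n‖ * s ^ n) * C) ?_ ?_ ?_ ?_ ?_
    · intro n
      refine Continuous.aestronglyMeasurable ?_
      refine Continuous.mul ?_ (Complex.continuous_conj.comp cf')
      unfold cpt
      fun_prop
    · intro n
      refine Eventually.of_forall fun y _ => ?_
      rw [norm_mul, norm_mul, norm_pow, norm_cpt, abs_of_nonneg hs0, RCLike.norm_conj]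
      exact mul_le_mul_of_nonneg_left (hC y) (by positivity)
    · exact Eventually.of_forall fun _ _ => hsum.mul_right _
    · exact continuous_const.intervalIntegrable _ _
    · refine Eventually.of_forall fun y _ => ?_
      refine (hasSum_cf hg ?_).mul_right _
      rw [mem_ball_zero_iff, norm_cpt, abs_of_nonneg hs0]; exact hs
  have hterm : ∀ n : ℕ, ∫ y in (-Real.pi)..Real.pi, (cf g n * cpt s y ^ n) * conj (f (cpt t y)) =
      2 * (Real.pi : ℂ) * (cf g n * (s : ℂ) ^ n) * conj (cf f n * (t : ℂ) ^ n) := by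
    intro n
    have h := coef_integral hf ht0 ht n
    rw [if_pos (by omega), Int.toNat_natCast] at h
    have e : ∀ y : ℝ, (cf g n * cpt s y ^ n) * conj (f (cpt t y)) =
        (cf g n * (s : ℂ) ^ n) * conj (Complex.exp (-((n : ℤ) * y * Complex.I)) * f (cpt t y)) := by
      intro y
      rw [cpt_pow, map_mul, ← Complex.exp_conj]
      have : conj (-(((n : ℤ) : ℂ) * y * Complex.I)) = (n : ℂ) * y * Complex.I := by
        simp
      rw [this]
      ring
    simp_rw [e]
    rw [intervalIntegral.integral_const_mul]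
    have h2 : ∫ y in (-Real.pi)..Real.pi,
        conj (Complex.exp (-((n : ℤ) * y * Complex.I)) * f (cpt t y)) =
        conj (∫ y in (-Real.pi)..Real.pi, Complex.exp (-((n : ℤ) * y * Complex.I)) * f (cpt t y)) := by
      rw [intervalIntegral.integral_of_le (by linarith [Real.pi_pos]),
        intervalIntegral.integral_of_le (by linarith [Real.pi_pos]), integral_conj]
    rw [h2, h]
    simp only [map_mul, map_pow, Complex.conj_ofReal, map_ofNat]
    ring
  simp_rw [hterm] at hS
  exact hS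

/-- Area moments. -/
lemma area_moment {k : ℂ → ℂ} (hk : DifferentiableOn ℂ k (ball 0 1))
    (hi : IntegrableOn k (ball 0 1)) (n : ℕ) :
    ∫ z in ball (0 : ℂ) 1, z ^ n * conj (k z) = (Real.pi : ℂ) / (n + 1) * conj (cf k n) := by
  have hc : ContinuousOn (fun z : ℂ => z ^ n * conj (k z)) (ball 0 1) :=
    (continuousOn_id.pow n).mul (Complex.continuous_conj.comp_continuousOn hk.continuousOn)
  have hi' : IntegrableOn (fun z : ℂ => z ^ n * conj (k z)) (ball 0 1) := by
    refine Integrable.mono hi (hc.aestronglyMeasurable measurableSet_ball) ?_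
    refine (ae_restrict_iff' measurableSet_ball).2 (Eventually.of_forall fun z hz => ?_)
    rw [norm_mul, norm_pow, RCLike.norm_conj]
    have h1 : ‖z‖ ^ n ≤ 1 := pow_le_one₀ (norm_nonneg _) (mem_ball_zero_iff.1 hz).le
    have := norm_nonneg (k z)
    nlinarith
  rw [integral_ball_polar hc hi']
  have h1 : ∀ r ∈ uIoo (0 : ℝ) 1, (r : ℂ) * ∫ y in (-Real.pi)..Real.pi,
      cpt r y ^ n * conj (k (cpt r y)) = (2 * (Real.pi : ℂ) * conj (cf k n)) * (r : ℂ) ^ (2 * n + 1) := by
    intro r hr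
    rw [uIoo_of_le zero_le_one] at hr
    have h := coef_integral hk hr.1.le hr.2 n
    rw [if_pos (by omega), Int.toNat_natCast] at h
    have e : ∀ y : ℝ, cpt r y ^ n * conj (k (cpt r y)) =
        (r : ℂ) ^ n * conj (Complex.exp (-((n : ℤ) * y * Complex.I)) * k (cpt r y)) := by
      intro y
      rw [cpt_pow, map_mul, ← Complex.exp_conj]
      have : conj (-(((n : ℤ) : ℂ) * y * Complex.I)) = (n : ℂ) * y * Complex.I := by
        simp
      rw [this]
      ring
    simp_rw [e]
    rw [intervalIntegral.integral_const_mul]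
    have h2 : ∫ y in (-Real.pi)..Real.pi,
        conj (Complex.exp (-((n : ℤ) * y * Complex.I)) * k (cpt r y)) =
        conj (∫ y in (-Real.pi)..Real.pi, Complex.exp (-((n : ℤ) * y * Complex.I)) * k (cpt r y)) := by
      rw [intervalIntegral.integral_of_le (by linarith [Real.pi_pos]),
        intervalIntegral.integral_of_le (by linarith [Real.pi_pos]), integral_conj]
    rw [h2, h]
    simp only [map_mul, map_pow, Complex.conj_ofReal, map_ofNat]
    ring
  rw [intervalIntegral.integral_congr_uIoo h1, intervalIntegral.integral_const_mul]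
  have h3 : ∫ r in (0 : ℝ)..1, (r : ℂ) ^ (2 * n + 1) = 1 / (2 * n + 2) := by
    have : ∀ r : ℝ, (r : ℂ) ^ (2 * n + 1) = ((r ^ (2 * n + 1) : ℝ) : ℂ) := by intro r; push_cast; rfl
    simp_rw [this]
    rw [intervalIntegral.integral_ofReal, integral_pow]
    push_cast
    simp
    ring
  rw [h3]
  have : (n : ℂ) + 1 ≠ 0 := Nat.cast_add_one_ne_zero n
  field_simp

end

end Pool.Agent.Lib.MP_7d928b_an

/-!
The orthogonality relation for extremal functions.
-/

namespace Pool.Agent.Lib.MP_7d928b_an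

open MeasureTheory Set Filter Topology Metric
open scoped ComplexConjugate

noncomputable section

theorem extremal_re {p : ℝ} (hp : 1 < p) {k F f : ℂ → ℂ} {M B : ℝ}
    (hF : DifferentiableOn ℂ F (ball 0 1)) (hM : ∀ z ∈ ball (0 : ℂ) 1, ‖F z‖ ≤ M)
    (hkc : ContinuousOn k (ball 0 1)) (hki : IntegrableOn k (ball 0 1))
    (hF1 : ∫ z in ball (0 : ℂ) 1, ‖F z‖ ^ p = 1)
    (hext : ∀ g : ℂ → ℂ, DifferentiableOn ℂ g (ball 0 1) →
      IntegrableOn (fun z => ‖g z‖ ^ p) (ball 0 1) →
      ∫ z in ball (0 : ℂ) 1, ‖g z‖ ^ p = 1 →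
      (∫ z in ball (0 : ℂ) 1, g z * conj (k z)).re ≤ (∫ z in ball (0 : ℂ) 1, F z * conj (k z)).re)
    (hf : DifferentiableOn ℂ f (ball 0 1)) (hB : ∀ z ∈ ball (0 : ℂ) 1, ‖f z‖ ≤ B) :
    (∫ z in ball (0 : ℂ) 1, f z * conj (k z)).re =
      (∫ z in ball (0 : ℂ) 1, F z * conj (k z)).re *
        ∫ z in ball (0 : ℂ) 1, ‖F z‖ ^ (p - 2) * (conj (F z) * f z).re := by
  set lam : ℝ := (∫ z in ball (0 : ℂ) 1, F z * conj (k z)).re with hlam
  have hM0 : 0 ≤ M := (norm_nonneg _).trans (hM 0 (by simp))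
  have hB0 : 0 ≤ B := (norm_nonneg _).trans (hB 0 (by simp))
  have hvol : volume (ball (0 : ℂ) 1) ≠ ⊤ := measure_ball_lt_top.ne
  -- integrability of products with k
  have hint : ∀ (g : ℂ → ℂ) (C : ℝ), DifferentiableOn ℂ g (ball 0 1) →
      (∀ z ∈ ball (0 : ℂ) 1, ‖g z‖ ≤ C) → IntegrableOn (fun z => g z * conj (k z)) (ball 0 1) := by
    intro g C hg hC
    refine Integrable.mono (hki.norm.const_mul C) ?_ ?_
    · exact (hg.continuousOn.mul (Complex.continuous_conj.comp_continuousOn hkc)).aestronglyMeasurable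
        measurableSet_ball
    · refine (ae_restrict_iff' measurableSet_ball).2 (Eventually.of_forall fun z hz => ?_)
      rw [norm_mul, RCLike.norm_conj, norm_mul, norm_norm, Real.norm_eq_abs]
      exact mul_le_mul_of_nonneg_right ((hC z hz).trans (le_abs_self C)) (norm_nonneg _)
  have hpowint : ∀ (g : ℂ → ℂ) (C : ℝ), DifferentiableOn ℂ g (ball 0 1) →
      (∀ z ∈ ball (0 : ℂ) 1, ‖g z‖ ≤ C) → IntegrableOn (fun z => ‖g z‖ ^ p) (ball 0 1) := by
    intro g C hg hC
    refine Integrable.mono (g := fun _ => C ^ p) (integrableOn_const hvol) ?_ ?_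
    · exact (hg.continuousOn.norm.rpow_const fun z _ => Or.inr (by linarith)).aestronglyMeasurable
        measurableSet_ball
    · refine (ae_restrict_iff' measurableSet_ball).2 (Eventually.of_forall fun z hz => ?_)
      have h1 : 0 ≤ ‖g z‖ ^ p := Real.rpow_nonneg (norm_nonneg _) _
      have h2 : ‖g z‖ ^ p ≤ C ^ p := Real.rpow_le_rpow (norm_nonneg _) (hC z hz) (by linarith)
      rw [Real.norm_eq_abs, Real.norm_eq_abs, abs_of_nonneg h1, abs_of_nonneg (h1.trans h2)]
      exact h2
  -- the function J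
  set J : ℝ → ℝ := fun t => ∫ z in ball (0 : ℂ) 1, ‖F z + (t : ℂ) * f z‖ ^ p with hJ
  have hJ0 : J 0 = 1 := by simp only [hJ, Complex.ofReal_zero, zero_mul, add_zero]; exact hF1
  have hdiffFt : ∀ t : ℝ, DifferentiableOn ℂ (fun z => F z + (t : ℂ) * f z) (ball 0 1) := fun t =>
    hF.add (hf.const_mul _)
  have hbdFt : ∀ t : ℝ, |t| ≤ 1 → ∀ z ∈ ball (0 : ℂ) 1, ‖F z + (t : ℂ) * f z‖ ≤ M + B := by
    intro t ht z hz
    refine (norm_add_le _ _).trans (add_le_add (hM z hz) ?_)
    rw [norm_mul, Complex.norm_real, Real.norm_eq_abs]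
    have := hB z hz
    have := norm_nonneg (f z)
    nlinarith [abs_nonneg t]
  have hJd : HasDerivAt J (∫ z in ball (0 : ℂ) 1, p * ‖F z‖ ^ (p - 2) * (conj (F z) * f z).re) 0 := by
    have hd : ∀ (z : ℂ) (t : ℝ), HasDerivAt (fun t : ℝ => ‖F z + (t : ℂ) * f z‖ ^ p)
        (p * ‖F z + (t : ℂ) * f z‖ ^ (p - 2) * (conj (F z + (t : ℂ) * f z) * f z).re) t := by
      intro z t
      have h1 := hasFDerivAt_norm_rpow (F z + (t : ℂ) * f z) hp
      have h2 : HasDerivAt (fun t : ℝ => F z + (t : ℂ) * f z) (f z) t := by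
        have h3 := ((Complex.ofRealCLM.hasDerivAt (x := t)).mul_const (f z)).const_add (F z)
        simpa using h3
      have h4 := h1.comp_hasDerivAt t h2
      refine h4.congr_deriv ?_
      simp only [_root_.smul_apply, innerSL_apply_apply, smul_eq_mul]
      congr 1
      simp only [Complex.inner, mul_comm]
    have hs : ball (0 : ℝ) 1 ∈ 𝓝 (0 : ℝ) := ball_mem_nhds _ one_pos
    have key := hasDerivAt_integral_of_dominated_loc_of_deriv_le
      (μ := volume.restrict (ball (0 : ℂ) 1))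
      (F := fun (t : ℝ) (z : ℂ) => ‖F z + (t : ℂ) * f z‖ ^ p)
      (F' := fun (t : ℝ) (z : ℂ) =>
        p * ‖F z + (t : ℂ) * f z‖ ^ (p - 2) * (conj (F z + (t : ℂ) * f z) * f z).re)
      (x₀ := 0) (bound := fun _ => p * (M + B) ^ (p - 1) * B) hs ?_ ?_ ?_ ?_ ?_ ?_
    · simpa using key.2
    · refine Eventually.of_forall fun t => ?_
      exact ((hdiffFt t).continuousOn.norm.rpow_const fun z _ =>
        Or.inr (by linarith)).aestronglyMeasurable measurableSet_ball
    · exact hpowint _ (M + B) (hdiffFt 0) (hbdFt 0 (by simp))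
    · have hm : AEMeasurable (fun z => F z + ((0 : ℝ) : ℂ) * f z)
          (volume.restrict (ball (0 : ℂ) 1)) :=
        ((hdiffFt 0).continuousOn.aestronglyMeasurable measurableSet_ball).aemeasurable
      have hmf : AEMeasurable f (volume.restrict (ball (0 : ℂ) 1)) :=
        (hf.continuousOn.aestronglyMeasurable measurableSet_ball).aemeasurable
      have h1 : AEMeasurable (fun z => ‖F z + ((0 : ℝ) : ℂ) * f z‖ ^ (p - 2))
          (volume.restrict (ball (0 : ℂ) 1)) := hm.norm.pow_const _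
      have h2 : AEMeasurable (fun z => (conj (F z + ((0 : ℝ) : ℂ) * f z) * f z).re)
          (volume.restrict (ball (0 : ℂ) 1)) :=
        Complex.measurable_re.comp_aemeasurable
          ((Complex.continuous_conj.measurable.comp_aemeasurable hm).mul hmf)
      exact ((h1.const_mul p).mul h2).aestronglyMeasurable
    · refine (ae_restrict_iff' measurableSet_ball).2 (Eventually.of_forall fun z hz t ht => ?_)
      have ht' : |t| ≤ 1 := by
        rw [mem_ball_zero_iff, Real.norm_eq_abs] at ht; exact ht.le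
      set a := F z + (t : ℂ) * f z with ha
      have ha1 : ‖a‖ ≤ M + B := hbdFt t ht' z hz
      have h1 : |(conj a * f z).re| ≤ ‖a‖ * ‖f z‖ := by
        refine (Complex.abs_re_le_norm _).trans ?_
        rw [norm_mul, RCLike.norm_conj]
      have hp0 : 0 < p := by linarith
      rw [Real.norm_eq_abs, abs_mul, abs_mul, abs_of_pos hp0,
        abs_of_nonneg (Real.rpow_nonneg (norm_nonneg _) _)]
      have h2 : ‖a‖ ^ (p - 2) * ‖a‖ ≤ (M + B) ^ (p - 1) := by
        by_cases h0 : ‖a‖ = 0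
        · rw [h0, mul_zero]; positivity
        · have hpos : 0 < ‖a‖ := lt_of_le_of_ne (norm_nonneg _) (Ne.symm h0)
          rw [← Real.rpow_add_one h0]
          have : p - 2 + 1 = p - 1 := by ring
          rw [this]
          exact Real.rpow_le_rpow hpos.le ha1 (by linarith)
      have h3 : 0 ≤ ‖a‖ ^ (p - 2) := Real.rpow_nonneg (norm_nonneg _) _
      calc p * ‖a‖ ^ (p - 2) * |(conj a * f z).re|
          ≤ p * ‖a‖ ^ (p - 2) * (‖a‖ * ‖f z‖) := by gcongr
        _ = p * (‖a‖ ^ (p - 2) * ‖a‖) * ‖f z‖ := by ring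
        _ ≤ p * (M + B) ^ (p - 1) * B := by
            have h4 := hB z hz
            have h5 : 0 ≤ (M + B) ^ (p - 1) := by positivity
            gcongr
    · exact integrableOn_const hvol
    · exact Eventually.of_forall fun z t _ => hd z t
  -- the comparison function
  set b : ℝ := (∫ z in ball (0 : ℂ) 1, f z * conj (k z)).re with hb
  have hlin : ∀ t : ℝ, (∫ z in ball (0 : ℂ) 1, (F z + (t : ℂ) * f z) * conj (k z)).re = lam + t * b := by
    intro t
    have e : ∀ z, (F z + (t : ℂ) * f z) * conj (k z) = F z * conj (k z) + (t : ℂ) * (f z * conj (k z)) := by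
      intro z; ring
    simp_rw [e]
    rw [integral_add (hint F M hF hM) ((hint f B hf hB).const_mul _), integral_const_mul,
      Complex.add_re, Complex.re_ofReal_mul]
  set D : ℝ → ℝ := fun t => lam * (J t) ^ (1 / p) - (lam + t * b) with hD
  have hp0 : 0 < p := by linarith
  have hDd : HasDerivAt D (lam * ((∫ z in ball (0 : ℂ) 1, p * ‖F z‖ ^ (p - 2) * (conj (F z) * f z).re)
      * (1 / p) * (J 0) ^ (1 / p - 1)) - b) 0 := by
    have h1 := (hJd.rpow_const (p := 1 / p) (Or.inl (by rw [hJ0]; exact one_ne_zero))).const_mul lam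
    have h2 : HasDerivAt (fun t : ℝ => lam + t * b) b 0 := by
      simpa using ((hasDerivAt_id (0 : ℝ)).mul_const b).const_add lam
    exact h1.sub h2
  have hmin : IsLocalMin D 0 := by
    have hJcont : ContinuousAt J 0 := hJd.continuousAt
    have hpos : ∀ᶠ t in 𝓝 (0 : ℝ), 0 < J t := by
      have : (0 : ℝ) < J 0 := by rw [hJ0]; exact one_pos
      exact hJcont.eventually (lt_mem_nhds this)
    have hball : ∀ᶠ t in 𝓝 (0 : ℝ), |t| ≤ 1 := by
      filter_upwards [ball_mem_nhds (0 : ℝ) one_pos] with t ht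
      rw [mem_ball_zero_iff, Real.norm_eq_abs] at ht
      exact ht.le
    filter_upwards [hpos, hball] with t ht htb
    have hD0 : D 0 = 0 := by simp [hD, hJ0]
    rw [hD0]
    set N : ℝ := (J t) ^ (1 / p) with hN
    have hNpos : 0 < N := Real.rpow_pos_of_pos ht _
    have hNp : N ^ p = J t := by
      rw [hN, ← Real.rpow_mul ht.le, one_div_mul_cancel hp0.ne', Real.rpow_one]
    have hpw : ∀ z, ‖((N⁻¹ : ℝ) : ℂ) * (F z + (t : ℂ) * f z)‖ ^ p =
        (J t)⁻¹ * ‖F z + (t : ℂ) * f z‖ ^ p := by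
      intro z
      rw [norm_mul, Complex.norm_real, Real.norm_eq_abs, abs_of_pos (inv_pos.2 hNpos),
        Real.mul_rpow (inv_pos.2 hNpos).le (norm_nonneg _), Real.inv_rpow hNpos.le, hNp]
    have h := hext (fun z => ((N⁻¹ : ℝ) : ℂ) * (F z + (t : ℂ) * f z)) ((hdiffFt t).const_mul _)
      (by
        simp_rw [hpw]
        exact (hpowint _ (M + B) (hdiffFt t) (hbdFt t htb)).const_mul _)
      (by
        simp_rw [hpw]
        rw [integral_const_mul]
        exact inv_mul_cancel₀ ht.ne')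
    have e : ∀ z, ((N⁻¹ : ℝ) : ℂ) * (F z + (t : ℂ) * f z) * conj (k z) =
        ((N⁻¹ : ℝ) : ℂ) * ((F z + (t : ℂ) * f z) * conj (k z)) := by intro z; ring
    simp_rw [e] at h
    rw [integral_const_mul, Complex.re_ofReal_mul, hlin t, inv_mul_le_iff₀ hNpos] at h
    simp only [hD]
    linarith
  have h0 := hmin.hasDerivAt_eq_zero hDd
  rw [hJ0, Real.one_rpow, mul_one] at h0
  have e : ∫ z in ball (0 : ℂ) 1, p * ‖F z‖ ^ (p - 2) * (conj (F z) * f z).re =
      p * ∫ z in ball (0 : ℂ) 1, ‖F z‖ ^ (p - 2) * (conj (F z) * f z).re := by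
    rw [← integral_const_mul]
    congr 1
    funext z
    ring
  rw [e] at h0
  have : p * (∫ z in ball (0 : ℂ) 1, ‖F z‖ ^ (p - 2) * (conj (F z) * f z).re) * (1 / p) =
      ∫ z in ball (0 : ℂ) 1, ‖F z‖ ^ (p - 2) * (conj (F z) * f z).re := by
    field_simp
  rw [this] at h0
  linarith

lemma V_zero_eq {p : ℝ} (_hp : 1 < p) (a : ℂ) :
    V ((p - 2) / 2) 0 a = ((‖a‖ ^ (p - 2) : ℝ) : ℂ) * conj a := by
  by_cases h : a = 0
  · subst h; simp [V]
  · unfold V S
    congr 2
    have hpos : 0 < ‖a‖ := norm_pos_iff.2 h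
    rw [Complex.normSq_eq_norm_sq, zero_pow two_ne_zero, add_zero, ← Real.rpow_natCast,
      ← Real.rpow_mul hpos.le]
    congr 1
    push_cast
    ring

theorem extremal_identity {p : ℝ} (hp : 1 < p) {k F f : ℂ → ℂ} {M B : ℝ}
    (hF : DifferentiableOn ℂ F (ball 0 1)) (hM : ∀ z ∈ ball (0 : ℂ) 1, ‖F z‖ ≤ M)
    (hkc : ContinuousOn k (ball 0 1)) (hki : IntegrableOn k (ball 0 1))
    (hF1 : ∫ z in ball (0 : ℂ) 1, ‖F z‖ ^ p = 1)
    (hext : ∀ g : ℂ → ℂ, DifferentiableOn ℂ g (ball 0 1) →
      IntegrableOn (fun z => ‖g z‖ ^ p) (ball 0 1) →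
      ∫ z in ball (0 : ℂ) 1, ‖g z‖ ^ p = 1 →
      (∫ z in ball (0 : ℂ) 1, g z * conj (k z)).re ≤ (∫ z in ball (0 : ℂ) 1, F z * conj (k z)).re)
    (hf : DifferentiableOn ℂ f (ball 0 1)) (hB : ∀ z ∈ ball (0 : ℂ) 1, ‖f z‖ ≤ B) :
    ∫ z in ball (0 : ℂ) 1, f z * conj (k z) =
      ((∫ z in ball (0 : ℂ) 1, F z * conj (k z)).re : ℂ) *
        ∫ z in ball (0 : ℂ) 1, f z * V ((p - 2) / 2) 0 (F z) := by
  have hvol : volume (ball (0 : ℂ) 1) ≠ ⊤ := measure_ball_lt_top.ne
  have hγ : -(1 / 2) < (p - 2) / 2 := by linarith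
  have hI : IntegrableOn (fun z => f z * V ((p - 2) / 2) 0 (F z)) (ball 0 1) := by
    have : IsFiniteMeasure (volume.restrict (ball (0 : ℂ) 1)) :=
      ⟨by rw [Measure.restrict_apply_univ]; exact measure_ball_lt_top⟩
    refine Integrable.mono (g := fun _ => B * (M ^ 2 + 1) ^ ((p - 2) / 2 + 1 / 2))
      (integrable_const _) ?_ ?_
    · have hm : AEMeasurable F (volume.restrict (ball (0 : ℂ) 1)) :=
        (hF.continuousOn.aestronglyMeasurable measurableSet_ball).aemeasurable
      have hmf : AEMeasurable f (volume.restrict (ball (0 : ℂ) 1)) :=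
        (hf.continuousOn.aestronglyMeasurable measurableSet_ball).aemeasurable
      have hmV : AEMeasurable (fun z => V ((p - 2) / 2) 0 (F z)) (volume.restrict (ball (0 : ℂ) 1)) := by
        simp_rw [V_zero_eq hp]
        exact (Complex.measurable_ofReal.comp_aemeasurable (hm.norm.pow_const _)).mul
          (Complex.continuous_conj.measurable.comp_aemeasurable hm)
      exact (hmf.mul hmV).aestronglyMeasurable
    · refine (ae_restrict_iff' measurableSet_ball).2 (Eventually.of_forall fun z hz => ?_)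
      rw [norm_mul, Real.norm_eq_abs]
      refine le_trans ?_ (le_abs_self _)
      exact mul_le_mul (hB z hz) (norm_V_zero_le hγ (hM z hz)) (norm_nonneg _)
        ((norm_nonneg _).trans (hB z hz))
  have hintk : IntegrableOn (fun z => f z * conj (k z)) (ball 0 1) := by
    refine Integrable.mono (hki.norm.const_mul B) ?_ ?_
    · exact (hf.continuousOn.mul (Complex.continuous_conj.comp_continuousOn hkc)).aestronglyMeasurable
        measurableSet_ball
    · refine (ae_restrict_iff' measurableSet_ball).2 (Eventually.of_forall fun z hz => ?_)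
      rw [norm_mul, RCLike.norm_conj, norm_mul, norm_norm, Real.norm_eq_abs]
      exact mul_le_mul_of_nonneg_right ((hB z hz).trans (le_abs_self B)) (norm_nonneg _)
  have hre : ∀ (c : ℂ), ‖c‖ = 1 → (c * ∫ z in ball (0 : ℂ) 1, f z * conj (k z)).re =
      (c * (((∫ z in ball (0 : ℂ) 1, F z * conj (k z)).re : ℂ) *
        ∫ z in ball (0 : ℂ) 1, f z * V ((p - 2) / 2) 0 (F z))).re := by
    intro c hc
    have h := extremal_re hp hF hM hkc hki hF1 hext (f := fun z => c * f z) (B := B)
      (hf.const_mul c) (fun z hz => by rw [norm_mul, hc, one_mul]; exact hB z hz)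
    have e1 : ∫ z in ball (0 : ℂ) 1, c * f z * conj (k z) =
        c * ∫ z in ball (0 : ℂ) 1, f z * conj (k z) := by
      rw [← integral_const_mul]; congr 1; funext z; ring
    rw [e1] at h
    rw [h]
    have e2 : c * (((∫ z in ball (0 : ℂ) 1, F z * conj (k z)).re : ℂ) *
        ∫ z in ball (0 : ℂ) 1, f z * V ((p - 2) / 2) 0 (F z)) =
        ((∫ z in ball (0 : ℂ) 1, F z * conj (k z)).re : ℂ) *
          ∫ z in ball (0 : ℂ) 1, c * (f z * V ((p - 2) / 2) 0 (F z)) := by
      rw [integral_const_mul]; ring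
    rw [e2, Complex.re_ofReal_mul]
    congr 1
    have e3 : (∫ z in ball (0 : ℂ) 1, c * (f z * V ((p - 2) / 2) 0 (F z))).re =
        ∫ z in ball (0 : ℂ) 1, (c * (f z * V ((p - 2) / 2) 0 (F z))).re := by
      have := integral_re (hI.const_mul c)
      simpa using this.symm
    rw [e3]
    congr 1
    funext z
    rw [V_zero_eq hp]
    have : c * (f z * (((‖F z‖ ^ (p - 2) : ℝ) : ℂ) * conj (F z))) =
        ((‖F z‖ ^ (p - 2) : ℝ) : ℂ) * (conj (F z) * (c * f z)) := by ring
    rw [this, Complex.re_ofReal_mul]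
  apply Complex.ext
  · have := hre 1 (by simp)
    rwa [one_mul, one_mul] at this
  · have := hre (-Complex.I) (by simp)
    rw [Complex.mul_re, Complex.mul_re] at this
    simpa using this

end

end Pool.Agent.Lib.MP_7d928b_an

/-!
From the functional bound to the Garsia norm bound.
-/

namespace Pool.Agent.Lib.MP_7d928b_an

open MeasureTheory Set Filter Topology Metric
open scoped ComplexConjugate

noncomputable section

lemma cpt_re_log_deriv (r y : ℝ) {R : ℝ} {g : ℂ → ℂ} (hg : DifferentiableOn ℂ g (ball 0 R))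
    (hr : |r| < R) :
    HasDerivAt (fun y : ℝ => g (cpt r y)) (Complex.I * zd g (cpt r y)) y := by
  have hmem : cpt r y ∈ ball (0 : ℂ) R := by rw [mem_ball_zero_iff, norm_cpt]; exact hr
  have h1 : HasDerivAt g (deriv g (cpt r y)) (cpt r y) :=
    (hg.differentiableAt (isOpen_ball.mem_nhds hmem)).hasDerivAt
  have h2 : HasDerivAt (fun w : ℂ => (r : ℂ) * Complex.exp (w * Complex.I))
      ((r : ℂ) * (Complex.exp (y * Complex.I) * (1 * Complex.I))) (y : ℂ) :=
    (((hasDerivAt_id (y : ℂ)).mul_const Complex.I).cexp).const_mul _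
  have h3 := (h1.comp (y : ℂ) h2).comp_ofReal
  refine h3.congr_deriv ?_
  simp only [zd, cpt]
  ring

/-- Coefficients of `g + z g'`. -/
lemma cf_add_zd {R : ℝ} (hR : 0 < R) {g : ℂ → ℂ} (hg : DifferentiableOn ℂ g (ball 0 R)) (n : ℕ) :
    cf (fun z => g z + z * deriv g z) n = (n + 1) * cf g n := by
  set r : ℝ := R / 2 with hr
  have hr0 : 0 < r := by positivity
  have hrR : r < R := by rw [hr]; linarith
  have habs : |r| < R := by rw [abs_of_pos hr0]; exact hrR
  have hz : DifferentiableOn ℂ (zd g) (ball 0 R) := zd_differentiableOn hg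
  have hh : DifferentiableOn ℂ (fun z => g z + z * deriv g z) (ball 0 R) := hg.add hz
  have c1 := coef_integral hh hr0.le hrR n
  have c2 := coef_integral hg hr0.le hrR n
  rw [if_pos (by omega), Int.toNat_natCast] at c1 c2
  have cg : Continuous (fun y : ℝ => g (cpt r y)) :=
    hg.continuousOn.comp_continuous (continuous_cpt_right r) fun y => by
      rw [mem_ball_zero_iff, norm_cpt]; exact habs
  have cz : Continuous (fun y : ℝ => zd g (cpt r y)) :=
    hz.continuousOn.comp_continuous (continuous_cpt_right r) fun y => by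
      rw [mem_ball_zero_iff, norm_cpt]; exact habs
  have ce : Continuous (fun y : ℝ => Complex.exp (-((n : ℤ) * y * Complex.I))) := by fun_prop
  -- integration by parts
  have hparts : ∫ y in (-Real.pi)..Real.pi, Complex.exp (-((n : ℤ) * y * Complex.I)) *
      (Complex.I * zd g (cpt r y)) =
      Complex.I * n * ∫ y in (-Real.pi)..Real.pi,
        Complex.exp (-((n : ℤ) * y * Complex.I)) * g (cpt r y) := by
    have hu : ∀ y ∈ uIcc (-Real.pi) Real.pi,
        HasDerivAt (fun y : ℝ => Complex.exp (-((n : ℤ) * y * Complex.I)))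
          (-(n * Complex.I) * Complex.exp (-((n : ℤ) * y * Complex.I))) y := by
      intro y _
      have h1 : HasDerivAt (fun w : ℂ => Complex.exp (-((n : ℤ) * w * Complex.I)))
          (Complex.exp (-((n : ℤ) * (y : ℂ) * Complex.I)) * (-(((n : ℤ) * 1) * Complex.I))) (y : ℂ) :=
        ((((hasDerivAt_id (y : ℂ)).const_mul ((n : ℤ) : ℂ)).mul_const Complex.I).neg).cexp
      refine h1.comp_ofReal.congr_deriv ?_
      push_cast
      ring
    have hv : ∀ y ∈ uIcc (-Real.pi) Real.pi,
        HasDerivAt (fun y : ℝ => g (cpt r y)) (Complex.I * zd g (cpt r y)) y := fun y _ =>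
      cpt_re_log_deriv r y hg habs
    have hip := intervalIntegral.integral_mul_deriv_eq_deriv_mul hu hv
      ((continuous_const.mul ce).intervalIntegrable _ _)
      ((continuous_const.mul cz).intervalIntegrable _ _)
    rw [hip]
    have hb1 : cpt r Real.pi = cpt r (-Real.pi) := by
      simp only [cpt]
      congr 1
      rw [Complex.exp_eq_exp_iff_exists_int]
      exact ⟨1, by push_cast; ring⟩
    have hb2 : Complex.exp (-((n : ℤ) * (Real.pi : ℝ) * Complex.I)) =
        Complex.exp (-((n : ℤ) * ((-Real.pi : ℝ) : ℂ) * Complex.I)) := by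
      rw [Complex.exp_eq_exp_iff_exists_int]
      exact ⟨-n, by push_cast; ring⟩
    rw [hb1, hb2, sub_self, zero_sub, ← intervalIntegral.integral_const_mul,
      ← intervalIntegral.integral_neg]
    refine intervalIntegral.integral_congr fun y _ => ?_
    ring
  have hsplit : ∫ y in (-Real.pi)..Real.pi, Complex.exp (-((n : ℤ) * y * Complex.I)) *
      ((fun z => g z + z * deriv g z) (cpt r y)) =
      (∫ y in (-Real.pi)..Real.pi, Complex.exp (-((n : ℤ) * y * Complex.I)) * g (cpt r y)) +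
      ∫ y in (-Real.pi)..Real.pi, Complex.exp (-((n : ℤ) * y * Complex.I)) * zd g (cpt r y) := by
    rw [← intervalIntegral.integral_add]
    · refine intervalIntegral.integral_congr fun y _ => ?_
      simp only [zd]
      ring
    · exact (ce.mul cg).intervalIntegrable _ _
    · exact (ce.mul cz).intervalIntegrable _ _
  have hzz : ∫ y in (-Real.pi)..Real.pi, Complex.exp (-((n : ℤ) * y * Complex.I)) * zd g (cpt r y) =
      n * ∫ y in (-Real.pi)..Real.pi,
        Complex.exp (-((n : ℤ) * y * Complex.I)) * g (cpt r y) := by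
    have e : ∫ y in (-Real.pi)..Real.pi, Complex.exp (-((n : ℤ) * y * Complex.I)) *
      (Complex.I * zd g (cpt r y)) = Complex.I * ∫ y in (-Real.pi)..Real.pi,
        Complex.exp (-((n : ℤ) * y * Complex.I)) * zd g (cpt r y) := by
      rw [← intervalIntegral.integral_const_mul]
      refine intervalIntegral.integral_congr fun y _ => ?_
      ring
    rw [e, mul_assoc] at hparts
    exact mul_left_cancel₀ Complex.I_ne_zero hparts
  rw [hsplit, hzz, c2] at c1
  have hrn : (r : ℂ) ^ n ≠ 0 := pow_ne_zero _ (by exact_mod_cast hr0.ne')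
  have hpi : (2 * (Real.pi : ℂ)) ≠ 0 := by
    have := Real.pi_ne_zero
    simp [this]
  have c3 : (2 * (Real.pi : ℂ)) * (r : ℂ) ^ n * cf (fun z => g z + z * deriv g z) n =
      (2 * (Real.pi : ℂ)) * (r : ℂ) ^ n * ((n + 1) * cf g n) := by
    linear_combination -c1
  exact mul_left_cancel₀ (mul_ne_zero hpi hrn) c3

/-- Coefficients of a dilation. -/
lemma cf_dilate {R ρ : ℝ} (hR : 1 < R) (hρ0 : 0 < ρ) (hρ1 : ρ < 1) {G : ℂ → ℂ}
    (hG : DifferentiableOn ℂ G (ball 0 R)) (n : ℕ) :
    cf (fun z => G ((ρ : ℂ) * z)) n = (ρ : ℂ) ^ n * cf G n := by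
  have hGρ : DifferentiableOn ℂ (fun z => G ((ρ : ℂ) * z)) (ball 0 R) := by
    refine hG.comp (by fun_prop) fun z hz => ?_
    rw [mem_ball_zero_iff] at hz ⊢
    rw [norm_mul, Complex.norm_real, Real.norm_eq_abs, abs_of_pos hρ0]
    nlinarith [norm_nonneg z]
  have c1 := coef_integral hGρ zero_le_one hR n
  have c2 := coef_integral hG hρ0.le (hρ1.trans hR) n
  rw [if_pos (by omega), Int.toNat_natCast] at c1 c2
  have e : ∀ y : ℝ, (ρ : ℂ) * cpt 1 y = cpt ρ y := by intro y; simp [cpt]
  simp only [e] at c1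
  rw [c2] at c1
  have hpi : (2 * (Real.pi : ℂ)) ≠ 0 := by
    have := Real.pi_ne_zero
    simp [this]
  have := mul_left_cancel₀ hpi c1
  simp only [Complex.ofReal_one, one_pow, mul_one] at this
  rw [← this]; ring

/-- The area pairing. -/
lemma hasSum_area {R : ℝ} (hR : 1 < R) {g k : ℂ → ℂ} (hg : DifferentiableOn ℂ g (ball 0 R))
    (hk : DifferentiableOn ℂ k (ball 0 1)) (hki : IntegrableOn k (ball 0 1)) :
    HasSum (fun n => (Real.pi : ℂ) * (cf g n * conj (cf k n)))
      (∫ z in ball (0 : ℂ) 1, (g z + z * deriv g z) * conj (k z)) := by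
  have hh : DifferentiableOn ℂ (fun z => g z + z * deriv g z) (ball 0 R) :=
    hg.add (differentiableOn_id.mul (hg.deriv isOpen_ball))
  have hsum := summable_cf hh zero_le_one hR
  simp only [one_pow, mul_one] at hsum
  have hS : HasSum (fun n => ∫ z in ball (0 : ℂ) 1,
      (cf (fun z => g z + z * deriv g z) n * z ^ n) * conj (k z))
      (∫ z in ball (0 : ℂ) 1, (g z + z * deriv g z) * conj (k z)) := by
    refine hasSum_integral_of_dominated_convergence
      (fun n z => ‖cf (fun z => g z + z * deriv g z) n‖ * ‖k z‖) ?_ ?_ ?_ ?_ ?_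
    · intro n
      refine ContinuousOn.aestronglyMeasurable ?_ measurableSet_ball
      exact (continuousOn_const.mul (continuousOn_id.pow n)).mul
        (Complex.continuous_conj.comp_continuousOn hk.continuousOn)
    · intro n
      refine (ae_restrict_iff' measurableSet_ball).2 (Eventually.of_forall fun z hz => ?_)
      rw [norm_mul, norm_mul, norm_pow, RCLike.norm_conj]
      have h1 : ‖z‖ ^ n ≤ 1 := pow_le_one₀ (norm_nonneg _) (mem_ball_zero_iff.1 hz).le
      refine mul_le_mul_of_nonneg_right ?_ (norm_nonneg _)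
      exact mul_le_of_le_one_right (norm_nonneg _) h1
    · exact Eventually.of_forall fun z => hsum.mul_right _
    · have e : (fun z => ∑' n, ‖cf (fun z => g z + z * deriv g z) n‖ * ‖k z‖) =
          fun z => (∑' n, ‖cf (fun z => g z + z * deriv g z) n‖) * ‖k z‖ := by
        funext z
        rw [tsum_mul_right]
      rw [e]
      exact hki.norm.const_mul _
    · refine (ae_restrict_iff' measurableSet_ball).2 (Eventually.of_forall fun z hz => ?_)
      exact (hasSum_cf hh (ball_subset_ball hR.le hz)).mul_right _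
  have hterm : ∀ n : ℕ, ∫ z in ball (0 : ℂ) 1,
      (cf (fun z => g z + z * deriv g z) n * z ^ n) * conj (k z) =
      (Real.pi : ℂ) * (cf g n * conj (cf k n)) := by
    intro n
    have e : ∀ z : ℂ, (cf (fun z => g z + z * deriv g z) n * z ^ n) * conj (k z) =
        cf (fun z => g z + z * deriv g z) n * (z ^ n * conj (k z)) := fun z => by ring
    simp_rw [e]
    rw [integral_const_mul, area_moment hk hki, cf_add_zd (by linarith) hg]
    have : (n : ℂ) + 1 ≠ 0 := Nat.cast_add_one_ne_zero n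
    field_simp
  simp_rw [hterm] at hS
  exact hS

end

end Pool.Agent.Lib.MP_7d928b_an

/-!
Poisson kernel on the circle and monotonicity of integral means.
-/

namespace Pool.Agent.Lib.MP_7d928b_an

open MeasureTheory Set Filter Topology Metric
open scoped ComplexConjugate

noncomputable section

/-- Poisson kernel of the unit disc at the circle point `e^{is}`. -/
def PK (w : ℂ) (s : ℝ) : ℝ := (1 - ‖w‖ ^ 2) / ‖cpt 1 s - w‖ ^ 2

lemma cpt_sub_ne {w : ℂ} (hw : ‖w‖ < 1) (s : ℝ) : 0 < ‖cpt 1 s - w‖ := by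
  have h1 : ‖cpt 1 s‖ = 1 := by rw [norm_cpt, abs_one]
  have h2 := norm_sub_norm_le (cpt 1 s) w
  linarith

lemma PK_nonneg {w : ℂ} (hw : ‖w‖ < 1) (s : ℝ) : 0 ≤ PK w s := by
  unfold PK
  have : ‖w‖ ^ 2 ≤ 1 := by nlinarith [norm_nonneg w]
  exact div_nonneg (by linarith) (by positivity)

lemma continuous_PK {w : ℂ} (hw : ‖w‖ < 1) : Continuous (PK w) := by
  unfold PK
  refine continuous_const.div (((continuous_cpt_right 1).sub continuous_const).norm.pow 2) ?_
  intro s
  have := cpt_sub_ne hw s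
  positivity

theorem poisson_repr {R : ℝ} (hR : 1 < R) {G : ℂ → ℂ} (hG : DifferentiableOn ℂ G (ball 0 R))
    {w : ℂ} (hw : ‖w‖ < 1) :
    ∫ s in (-Real.pi)..Real.pi, (PK w s : ℂ) * G (cpt 1 s) = 2 * Real.pi * G w := by
  have hd : DiffContOnCl ℂ G (ball 0 1) := by
    refine DifferentiableOn.diffContOnCl (hG.mono ?_)
    refine (closure_ball_subset_closedBall).trans (closedBall_subset_ball hR)
  have hw' : w ∈ ball (0 : ℂ) 1 := by rwa [mem_ball_zero_iff]
  have h := hd.circleAverage_poissonKernel_smul' hw'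
  rw [Real.circleAverage_eq_integral_add (-Real.pi)] at h
  rw [intervalIntegral.integral_comp_add_right (fun θ =>
    ((‖circleMap 0 1 θ - 0‖ ^ 2 - ‖w - 0‖ ^ 2) / ‖circleMap 0 1 θ - 0 - (w - 0)‖ ^ 2) •
      G (circleMap 0 1 θ)) (-Real.pi)] at h
  have e1 : (0 : ℝ) + -Real.pi = -Real.pi := by ring
  have e2 : 2 * Real.pi + -Real.pi = Real.pi := by ring
  rw [e1, e2] at h
  have e3 : ∀ s : ℝ, ((‖circleMap 0 1 s - 0‖ ^ 2 - ‖w - 0‖ ^ 2) /
      ‖circleMap 0 1 s - 0 - (w - 0)‖ ^ 2) • G (circleMap 0 1 s) = (PK w s : ℂ) * G (cpt 1 s) := by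
    intro s
    have : circleMap 0 1 s = cpt 1 s := by simp [circleMap, cpt]
    rw [this, sub_zero, sub_zero, norm_cpt, abs_one, one_pow, Complex.real_smul, PK]
  simp_rw [e3] at h
  rw [← h, Complex.real_smul, ← mul_assoc]
  have hpi : (2 * (Real.pi : ℂ)) ≠ 0 := by
    have := Real.pi_ne_zero
    simp [this]
  push_cast
  rw [mul_inv_cancel₀ hpi, one_mul]

lemma integral_PK {w : ℂ} (hw : ‖w‖ < 1) : ∫ s in (-Real.pi)..Real.pi, PK w s = 2 * Real.pi := by
  have h := poisson_repr (R := 2) (by norm_num) (G := fun _ => 1)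
    (differentiableOn_const _) hw
  simp only [mul_one] at h
  rw [intervalIntegral.integral_ofReal] at h
  exact_mod_cast h

lemma PK_symm (ρ s y : ℝ) : PK (cpt ρ y) s = PK (cpt ρ s) y := by
  unfold PK
  rw [norm_cpt, norm_cpt]
  congr 1
  have key : ∀ s y : ℝ, ‖cpt 1 s - cpt ρ y‖ ^ 2 = 1 + ρ ^ 2 - 2 * ρ * Real.cos (s - y) := by
    intro s y
    rw [← Complex.normSq_eq_norm_sq, Complex.normSq_apply]
    simp only [cpt, Complex.exp_mul_I, Complex.sub_re, Complex.sub_im, Complex.mul_re,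
      Complex.mul_im, Complex.ofReal_re, Complex.ofReal_im, Complex.add_re, Complex.add_im,
      Complex.I_re, Complex.I_im, ← Complex.ofReal_cos, ← Complex.ofReal_sin, Real.cos_sub]
    have h1 := Real.sin_sq_add_cos_sq s
    have h2 := Real.sin_sq_add_cos_sq y
    nlinarith
  rw [key, key, ← Real.cos_neg (s - y), neg_sub]

theorem mean_mono {R ρ : ℝ} (hR : 1 < R) (hρ0 : 0 ≤ ρ) (hρ1 : ρ < 1) {G : ℂ → ℂ}
    (hG : DifferentiableOn ℂ G (ball 0 R)) :
    ∫ y in (-Real.pi)..Real.pi, ‖G (cpt ρ y)‖ ≤ ∫ y in (-Real.pi)..Real.pi, ‖G (cpt 1 y)‖ := by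
  have hpi : (-Real.pi) ≤ Real.pi := by linarith [Real.pi_pos]
  have hn : ∀ y, ‖cpt ρ y‖ < 1 := fun y => by rw [norm_cpt, abs_of_nonneg hρ0]; exact hρ1
  have cG1 : Continuous (fun y : ℝ => G (cpt 1 y)) :=
    hG.continuousOn.comp_continuous (continuous_cpt_right 1) fun y => by
      rw [mem_ball_zero_iff, norm_cpt, abs_one]; exact hR
  have cGρ : Continuous (fun y : ℝ => G (cpt ρ y)) :=
    hG.continuousOn.comp_continuous (continuous_cpt_right ρ) fun y => by
      rw [mem_ball_zero_iff]; exact (hn y).trans hR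
  have cPK : Continuous (fun p : ℝ × ℝ => PK (cpt ρ p.1) p.2) := by
    unfold PK
    refine (continuous_const.sub (Continuous.pow ?_ 2)).div (Continuous.pow ?_ 2) ?_
    · exact (continuous_cpt.comp (continuous_const.prodMk continuous_fst)).norm
    · exact ((continuous_cpt.comp (continuous_const.prodMk continuous_snd)).sub
        (continuous_cpt.comp (continuous_const.prodMk continuous_fst))).norm
    · intro p
      have := cpt_sub_ne (hn p.1) p.2
      positivity
  -- pointwise
  have hpt : ∀ y, 2 * Real.pi * ‖G (cpt ρ y)‖ ≤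
      ∫ s in (-Real.pi)..Real.pi, PK (cpt ρ y) s * ‖G (cpt 1 s)‖ := by
    intro y
    have h := poisson_repr hR hG (hn y)
    have h2 : ‖∫ s in (-Real.pi)..Real.pi, (PK (cpt ρ y) s : ℂ) * G (cpt 1 s)‖ ≤
        ∫ s in (-Real.pi)..Real.pi, ‖(PK (cpt ρ y) s : ℂ) * G (cpt 1 s)‖ :=
      intervalIntegral.norm_integral_le_integral_norm hpi
    rw [h] at h2
    have e1 : ‖(2 * Real.pi * G (cpt ρ y) : ℂ)‖ = 2 * Real.pi * ‖G (cpt ρ y)‖ := by
      rw [norm_mul, norm_mul, Complex.norm_real, Complex.norm_ofNat, Real.norm_eq_abs,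
        abs_of_pos Real.pi_pos]
    rw [e1] at h2
    refine h2.trans (le_of_eq (intervalIntegral.integral_congr fun s _ => ?_))
    rw [norm_mul, Complex.norm_real, Real.norm_eq_abs, abs_of_nonneg (PK_nonneg (hn y) s)]
  have hint : 2 * Real.pi * ∫ y in (-Real.pi)..Real.pi, ‖G (cpt ρ y)‖ ≤
      ∫ y in (-Real.pi)..Real.pi, ∫ s in (-Real.pi)..Real.pi, PK (cpt ρ y) s * ‖G (cpt 1 s)‖ := by
    rw [← intervalIntegral.integral_const_mul]
    refine intervalIntegral.integral_mono_on hpi ?_ ?_ fun y _ => hpt y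
    · exact (continuous_const.mul cGρ.norm).intervalIntegrable _ _
    · refine Continuous.intervalIntegrable ?_ _ _
      refine intervalIntegral.continuous_parametric_intervalIntegral_of_continuous' ?_ _ _
      exact cPK.mul (cG1.norm.comp continuous_snd)
  have hswap : ∫ y in (-Real.pi)..Real.pi, ∫ s in (-Real.pi)..Real.pi,
      PK (cpt ρ y) s * ‖G (cpt 1 s)‖ = ∫ s in (-Real.pi)..Real.pi, ∫ y in (-Real.pi)..Real.pi,
      PK (cpt ρ y) s * ‖G (cpt 1 s)‖ := by
    refine intervalIntegral_intervalIntegral_swap ?_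
    exact ((cPK.mul (cG1.norm.comp continuous_snd)).continuousOn.integrableOn_compact
      (isCompact_uIcc.prod isCompact_uIcc)).mono_set (prod_mono uIoc_subset_uIcc uIoc_subset_uIcc)
  have hin : ∀ s : ℝ, ∫ y in (-Real.pi)..Real.pi, PK (cpt ρ y) s * ‖G (cpt 1 s)‖ =
      2 * Real.pi * ‖G (cpt 1 s)‖ := by
    intro s
    rw [intervalIntegral.integral_mul_const]
    congr 1
    rw [← integral_PK (hn s)]
    exact intervalIntegral.integral_congr fun y _ => PK_symm ρ s y
  rw [hswap] at hint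
  simp_rw [hin] at hint
  rw [intervalIntegral.integral_const_mul] at hint
  exact le_of_mul_le_mul_left hint (by positivity)

end

end Pool.Agent.Lib.MP_7d928b_an

/-!
The Garsia type bound for the dilates of the kernel.
-/

namespace Pool.Agent.Lib.MP_7d928b_an

open MeasureTheory Set Filter Topology Metric
open scoped ComplexConjugate

noncomputable section

/-- The pairing bound: the functional `G ↦ ∫ G conj k_ρ` is controlled by the `L¹` norm on the
circle, uniformly in `ρ`. -/
def PB (k : ℂ → ℂ) (Λ : ℝ) : Prop :=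
  ∀ (R : ℝ) (G : ℂ → ℂ) (ρ : ℝ), 1 < R → DifferentiableOn ℂ G (ball 0 R) → 0 < ρ → ρ < 1 →
    ‖∫ y in (-Real.pi)..Real.pi, G (cpt 1 y) * conj (k (cpt ρ y))‖ ≤
      2 * Λ * ∫ y in (-Real.pi)..Real.pi, ‖G (cpt 1 y)‖

lemma CK_nonneg {γ M : ℝ} (hγ : -(1 / 2) < γ) : 0 ≤ CK γ M := by
  unfold CK
  have h1 : 0 < γ + 1 / 2 := by linarith
  have h2 : 0 < min (γ + 1 / 2) 1 := lt_min h1 one_pos
  have h3 : 0 ≤ max (γ + 1) 2 := le_max_of_le_right (by norm_num)
  positivity

theorem pairing_bound {p : ℝ} (hp : 1 < p) {k F : ℂ → ℂ} {M : ℝ}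
    (hF : DifferentiableOn ℂ F (ball 0 1)) (hM : ∀ z ∈ ball (0 : ℂ) 1, ‖F z‖ ≤ M)
    (hk : DifferentiableOn ℂ k (ball 0 1)) (hki : IntegrableOn k (ball 0 1))
    (hF1 : ∫ z in ball (0 : ℂ) 1, ‖F z‖ ^ p = 1)
    (hext : ∀ g : ℂ → ℂ, DifferentiableOn ℂ g (ball 0 1) →
      IntegrableOn (fun z => ‖g z‖ ^ p) (ball 0 1) →
      ∫ z in ball (0 : ℂ) 1, ‖g z‖ ^ p = 1 →
      (∫ z in ball (0 : ℂ) 1, g z * conj (k z)).re ≤ (∫ z in ball (0 : ℂ) 1, F z * conj (k z)).re) :
    PB k (|(∫ z in ball (0 : ℂ) 1, F z * conj (k z)).re| * CK ((p - 2) / 2) M) := by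
  intro R G ρ hR hG hρ0 hρ1
  have hM0 : 0 ≤ M := (norm_nonneg _).trans (hM 0 (by simp))
  have hγ : -(1 / 2) < (p - 2) / 2 := by linarith
  have hCK : 0 ≤ CK ((p - 2) / 2) M := CK_nonneg hγ
  set Gρ : ℂ → ℂ := fun z => G ((ρ : ℂ) * z) with hGρ
  have hGρd : DifferentiableOn ℂ Gρ (ball 0 R) := by
    refine hG.comp (by fun_prop) fun z hz => ?_
    rw [mem_ball_zero_iff] at hz ⊢
    rw [norm_mul, Complex.norm_real, Real.norm_eq_abs, abs_of_pos hρ0]
    nlinarith [norm_nonneg z]
  -- the pairing as an area integral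
  have hid : ∫ y in (-Real.pi)..Real.pi, G (cpt 1 y) * conj (k (cpt ρ y)) =
      2 * ∫ z in ball (0 : ℂ) 1, (Gρ z + z * deriv Gρ z) * conj (k z) := by
    have h1 := hasSum_pairing hk hG zero_le_one hR hρ0.le hρ1
    have h2 := (hasSum_area hR hGρd hk hki).mul_left 2
    have e : (fun n : ℕ => (2 : ℂ) * ((Real.pi : ℂ) * (cf Gρ n * conj (cf k n)))) =
        fun n : ℕ => 2 * (Real.pi : ℂ) * (cf G n * ((1 : ℝ) : ℂ) ^ n) *
          conj (cf k n * (ρ : ℂ) ^ n) := by
      funext n
      rw [cf_dilate hR hρ0 hρ1 hG n, map_mul, map_pow, Complex.conj_ofReal]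
      push_cast
      ring
    rw [e] at h2
    exact h1.unique h2
  set f : ℂ → ℂ := fun z => Gρ z + z * deriv Gρ z with hf
  have hfd : DifferentiableOn ℂ f (ball 0 R) :=
    hGρd.add (differentiableOn_id.mul (hGρd.deriv isOpen_ball))
  have hsub : closedBall (0 : ℂ) 1 ⊆ ball 0 R := closedBall_subset_ball hR
  obtain ⟨B, hB⟩ := (isCompact_closedBall (0 : ℂ) 1).exists_bound_of_continuousOn
    (hfd.continuousOn.mono hsub)
  have hext' := extremal_identity hp hF hM hk.continuousOn hki hF1 hext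
    (hfd.mono (ball_subset_ball hR.le)) (fun z hz => hB z (ball_subset_closedBall hz))
  have hkp := KP0 hγ hR hF hGρd hM
  have hmean := mean_mono hR hρ0.le hρ1 hG
  have e1 : ∀ y : ℝ, Gρ (cpt 1 y) = G (cpt ρ y) := by intro y; simp [hGρ, cpt]
  simp_rw [e1] at hkp
  rw [hid, hext', norm_mul, norm_mul, Complex.norm_real, Complex.norm_ofNat, Real.norm_eq_abs]
  calc 2 * (|(∫ z in ball (0 : ℂ) 1, F z * conj (k z)).re| *
        ‖∫ z in ball (0 : ℂ) 1, f z * V ((p - 2) / 2) 0 (F z)‖)
      ≤ 2 * (|(∫ z in ball (0 : ℂ) 1, F z * conj (k z)).re| *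
        (CK ((p - 2) / 2) M * ∫ y in (-Real.pi)..Real.pi, ‖G (cpt 1 y)‖)) := by
        refine mul_le_mul_of_nonneg_left (mul_le_mul_of_nonneg_left ?_ (abs_nonneg _)) (by norm_num)
        exact hkp.trans (mul_le_mul_of_nonneg_left hmean hCK)
    _ = _ := by ring

/-- Garsia bound. -/
theorem garsia {k : ℂ → ℂ} {Λ : ℝ} (hk : DifferentiableOn ℂ k (ball 0 1))
    (hPB : PB k Λ) {ρ : ℝ} (hρ0 : 0 < ρ) (hρ1 : ρ < 1) {a : ℂ} (ha : ‖a‖ < 1) :
    ∫ y in (-Real.pi)..Real.pi, PK a y * ‖k (cpt ρ y) - k (ρ * a)‖ ^ 2 ≤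
      8 * Real.pi * Λ ^ 2 := by
  have hpi : (-Real.pi) ≤ Real.pi := by linarith [Real.pi_pos]
  set K : ℂ → ℂ := fun z => k ((ρ : ℂ) * z) with hK
  -- radius
  obtain ⟨R, hR1, hRρ, hRa⟩ : ∃ R : ℝ, 1 < R ∧ R * ρ ≤ 1 ∧ R * ‖a‖ < 1 := by
    have hm : max ρ ‖a‖ < 1 := max_lt hρ1 ha
    set m := max ρ ‖a‖ with hm'
    have hm0 : 0 < m := lt_max_of_lt_left hρ0
    refine ⟨2 / (1 + m), ?_, ?_, ?_⟩
    · rw [lt_div_iff₀ (by linarith)]; linarith
    · have h1 : ρ ≤ m := le_max_left _ _
      rw [div_mul_eq_mul_div, div_le_one (by linarith)]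
      linarith
    · have h1 : ‖a‖ ≤ m := le_max_right _ _
      rw [div_mul_eq_mul_div, div_lt_one (by linarith)]
      linarith
  have hR0 : 0 < R := by linarith
  have hKd : DifferentiableOn ℂ K (ball 0 R) := by
    refine hk.comp (by fun_prop) fun z hz => ?_
    rw [mem_ball_zero_iff] at hz ⊢
    rw [norm_mul, Complex.norm_real, Real.norm_eq_abs, abs_of_pos hρ0]
    nlinarith [norm_nonneg z]
  have haR : a ∈ ball (0 : ℂ) R := by rw [mem_ball_zero_iff]; linarith
  have hne : ∀ z ∈ ball (0 : ℂ) R, 1 - conj a * z ≠ 0 := by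
    intro z hz h0
    rw [mem_ball_zero_iff] at hz
    have h1 : conj a * z = 1 := by linear_combination -h0
    have h2 : ‖a‖ * ‖z‖ = 1 := by
      rw [← RCLike.norm_conj a, ← norm_mul, h1, norm_one]
    nlinarith [norm_nonneg a, norm_nonneg z]
  set G : ℂ → ℂ := fun z => ((1 - ‖a‖ ^ 2 : ℝ) : ℂ) * (z * dslope K a z) / (1 - conj a * z) with hG
  have hGd : DifferentiableOn ℂ G (ball 0 R) := by
    refine DifferentiableOn.div ?_ (by fun_prop) hne
    refine (differentiableOn_id.mul ?_).const_mul _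
    exact (Complex.differentiableOn_dslope (isOpen_ball.mem_nhds haR)).2 hKd
  have hGc : ∀ y : ℝ, G (cpt 1 y) = (PK a y : ℂ) * (k (cpt ρ y) - k (ρ * a)) := by
    intro y
    have h1 : ‖cpt 1 y‖ = 1 := by rw [norm_cpt, abs_one]
    have hz1 : cpt 1 y * conj (cpt 1 y) = 1 := by
      rw [Complex.mul_conj, Complex.normSq_eq_norm_sq, h1]; simp
    have hna : cpt 1 y ≠ a := by
      intro h; rw [h] at h1; linarith
    have hna' : cpt 1 y - a ≠ 0 := sub_ne_zero.2 hna
    have hK1 : K (cpt 1 y) = k (cpt ρ y) := by simp [hK, cpt]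
    have hcn : conj (cpt 1 y) - conj a ≠ 0 := by
      rw [← map_sub]
      exact (map_ne_zero _).2 hna'
    have hden : 1 - conj a * cpt 1 y = cpt 1 y * (conj (cpt 1 y) - conj a) := by
      rw [mul_sub, hz1]; ring
    have hz0 : cpt 1 y ≠ 0 := by
      intro h; rw [h, norm_zero] at h1; exact zero_ne_one h1
    have hPK : (PK a y : ℂ) = ((1 - ‖a‖ ^ 2 : ℝ) : ℂ) / ((cpt 1 y - a) * (conj (cpt 1 y) - conj a)) := by
      rw [PK, Complex.ofReal_div, ← map_sub, Complex.mul_conj, Complex.normSq_eq_norm_sq]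
    rw [hPK]
    simp only [hG]
    rw [dslope_of_ne _ hna, slope_def_field, hden, hK1]
    simp only [hK]
    field_simp
  have hG0 : G 0 = 0 := by simp [hG]
  have hPK0 := PK_nonneg ha
  have cPK := continuous_PK ha
  have ck : Continuous (fun y : ℝ => k (cpt ρ y)) :=
    hk.continuousOn.comp_continuous (continuous_cpt_right ρ) fun y => by
      rw [mem_ball_zero_iff, norm_cpt, abs_of_pos hρ0]; exact hρ1
  have cG : Continuous (fun y : ℝ => G (cpt 1 y)) :=
    hGd.continuousOn.comp_continuous (continuous_cpt_right 1) fun y => by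
      rw [mem_ball_zero_iff, norm_cpt, abs_one]; exact hR1
  -- mean of G
  have hGmean : ∫ y in (-Real.pi)..Real.pi, G (cpt 1 y) = 0 := by
    have := coef_integral hGd zero_le_one hR1 0
    simp only [Int.cast_zero, zero_mul, neg_zero, Complex.exp_zero, one_mul, le_refl, if_true,
      Int.toNat_zero, pow_zero, mul_one] at this
    rw [this, cf]
    simp [hG0]
  have hB := hPB R G ρ hR1 hGd hρ0 hρ1
  -- X
  set X := ∫ y in (-Real.pi)..Real.pi, PK a y * ‖k (cpt ρ y) - k (ρ * a)‖ ^ 2 with hX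
  have hXeq : ∫ y in (-Real.pi)..Real.pi, G (cpt 1 y) * conj (k (cpt ρ y)) = (X : ℂ) := by
    have e1 : ∀ y : ℝ, G (cpt 1 y) * conj (k (cpt ρ y)) =
        ((PK a y * ‖k (cpt ρ y) - k (ρ * a)‖ ^ 2 : ℝ) : ℂ) +
          G (cpt 1 y) * conj (k (ρ * a)) := by
      intro y
      have h2 : ((‖k (cpt ρ y) - k (ρ * a)‖ ^ 2 : ℝ) : ℂ) =
          (k (cpt ρ y) - k (ρ * a)) * conj (k (cpt ρ y) - k (ρ * a)) := by
        rw [Complex.mul_conj, Complex.normSq_eq_norm_sq]
      rw [Complex.ofReal_mul, h2, hGc, map_sub]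
      ring
    simp_rw [e1]
    rw [intervalIntegral.integral_add, intervalIntegral.integral_ofReal,
      intervalIntegral.integral_mul_const, hGmean, zero_mul, add_zero]
    · refine Continuous.intervalIntegrable ?_ _ _
      exact Complex.continuous_ofReal.comp (cPK.mul ((ck.sub continuous_const).norm.pow 2))
    · exact (cG.mul continuous_const).intervalIntegrable _ _
  have hX0 : 0 ≤ X := by
    refine intervalIntegral.integral_nonneg hpi fun y _ => mul_nonneg (hPK0 y) (by positivity)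
  rw [hXeq, Complex.norm_real, Real.norm_eq_abs, abs_of_nonneg hX0] at hB
  have hAM : 2 * Λ * ∫ y in (-Real.pi)..Real.pi, ‖G (cpt 1 y)‖ ≤
      ∫ y in (-Real.pi)..Real.pi, ((1 / 2) * (PK a y * ‖k (cpt ρ y) - k (ρ * a)‖ ^ 2) +
        2 * Λ ^ 2 * PK a y) := by
    rw [← intervalIntegral.integral_const_mul]
    refine intervalIntegral.integral_mono_on hpi ?_ ?_ fun y _ => ?_
    · exact (continuous_const.mul cG.norm).intervalIntegrable _ _
    · refine Continuous.intervalIntegrable ?_ _ _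
      exact (continuous_const.mul (cPK.mul ((ck.sub continuous_const).norm.pow 2))).add
        (continuous_const.mul cPK)
    · rw [hGc, norm_mul, Complex.norm_real, Real.norm_eq_abs, abs_of_nonneg (hPK0 y)]
      have h3 : 2 * Λ * ‖k (cpt ρ y) - k (ρ * a)‖ ≤
          (1 / 2) * ‖k (cpt ρ y) - k (ρ * a)‖ ^ 2 + 2 * Λ ^ 2 := by
        nlinarith [sq_nonneg (‖k (cpt ρ y) - k (ρ * a)‖ - 2 * Λ)]
      have := mul_le_mul_of_nonneg_left h3 (hPK0 y)
      linarith
  rw [intervalIntegral.integral_add, intervalIntegral.integral_const_mul,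
    intervalIntegral.integral_const_mul, integral_PK ha, ← hX] at hAM
  · nlinarith
  · refine Continuous.intervalIntegrable ?_ _ _
    exact (continuous_const.mul (cPK.mul ((ck.sub continuous_const).norm.pow 2)))
  · exact (continuous_const.mul cPK).intervalIntegrable _ _

end

end Pool.Agent.Lib.MP_7d928b_an
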