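import Mathlib
import Pool.Agent.Lib.MP_7d928b_an.Bound

/-!
From harmonic measure to arcs.
-/

namespace Pool.Agent.Lib.MP_7d928b_an

open MeasureTheory Set Filter Topology Metric
open scoped ComplexConjugate

noncomputable section

lemma PK_lower {α h y : ℝ} (hh0 : 0 < h) (hh : h ≤ Real.pi) (hy : |y - α| ≤ h) :
    Real.pi / (h * (1 + Real.pi ^ 2)) ≤ PK (cpt (1 - h / Real.pi) α) y := by
  have hpi := Real.pi_pos
  set s : ℝ := h / Real.pi with hs
  have hs0 : 0 < s := by positivity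
  have hs1 : s ≤ 1 := by rw [hs, div_le_one hpi]; exact hh
  have hhs : h = s * Real.pi := by rw [hs]; field_simp
  have key : ‖cpt 1 y - cpt (1 - s) α‖ ^ 2 = 1 + (1 - s) ^ 2 - 2 * (1 - s) * Real.cos (y - α) := by
    rw [← Complex.normSq_eq_norm_sq, Complex.normSq_apply]
    simp only [cpt, Complex.exp_mul_I, Complex.sub_re, Complex.sub_im, Complex.mul_re,
      Complex.mul_im, Complex.ofReal_re, Complex.ofReal_im, Complex.add_re, Complex.add_im,
      Complex.I_re, Complex.I_im, ← Complex.ofReal_cos, ← Complex.ofReal_sin, Real.cos_sub]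
    have h1 := Real.sin_sq_add_cos_sq α
    have h2 := Real.sin_sq_add_cos_sq y
    nlinarith
  have hcos : 1 - (y - α) ^ 2 / 2 ≤ Real.cos (y - α) := Real.one_sub_sq_div_two_le_cos
  have hsq : (y - α) ^ 2 ≤ h ^ 2 := by
    rw [← sq_abs (y - α)]
    exact pow_le_pow_left₀ (abs_nonneg _) hy 2
  have hden : ‖cpt 1 y - cpt (1 - s) α‖ ^ 2 ≤ s ^ 2 * (1 + Real.pi ^ 2) := by
    rw [key]
    have h3 : (1 - s) * (1 - Real.cos (y - α)) ≤ 1 * (h ^ 2 / 2) := by
      refine mul_le_mul (by linarith) (by linarith) ?_ (by norm_num)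
      linarith [Real.cos_le_one (y - α)]
    rw [hhs] at h3
    nlinarith
  have hn : ‖cpt (1 - s) α‖ = 1 - s := by rw [norm_cpt, abs_of_nonneg (by linarith)]
  have hn1 : ‖cpt (1 - s) α‖ < 1 := by rw [hn]; linarith
  have hpos := cpt_sub_ne hn1 y
  unfold PK
  rw [div_le_div_iff₀ (by positivity) (by positivity), hn, hhs]
  have h4 : Real.pi * ‖cpt 1 y - cpt (1 - s) α‖ ^ 2 ≤ Real.pi * (s ^ 2 * (1 + Real.pi ^ 2)) :=
    mul_le_mul_of_nonneg_left hden hpi.le
  have h5 : s ≤ 1 - (1 - s) ^ 2 := by nlinarith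
  have h6 : s * (s * Real.pi * (1 + Real.pi ^ 2)) ≤ (1 - (1 - s) ^ 2) * (s * Real.pi * (1 + Real.pi ^ 2)) :=
    mul_le_mul_of_nonneg_right h5 (by positivity)
  linarith

/-- Mean oscillation on arcs, for the dilates. -/
theorem arc_bound {k : ℂ → ℂ} {Λ : ℝ} (hk : DifferentiableOn ℂ k (ball 0 1))
    (hPB : PB k Λ) {ρ : ℝ} (hρ0 : 0 < ρ) (hρ1 : ρ < 1) {a b : ℝ} (hab : a < b)
    (hab2 : b - a ≤ 2 * Real.pi) :
    ∃ c : ℂ, ∫ y in a..b, ‖k (cpt ρ y) - c‖ ^ 2 ≤ (b - a) * (4 * (1 + Real.pi ^ 2) * Λ ^ 2) := by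
  have hpi := Real.pi_pos
  set h : ℝ := (b - a) / 2 with hh
  set α : ℝ := (a + b) / 2 with hα
  have hh0 : 0 < h := by rw [hh]; linarith
  have hh1 : h ≤ Real.pi := by rw [hh]; linarith
  set w : ℂ := cpt (1 - h / Real.pi) α with hw
  have hs0 : 0 < h / Real.pi := by positivity
  have hs1 : h / Real.pi ≤ 1 := by rw [div_le_one hpi]; exact hh1
  have hwn : ‖w‖ < 1 := by
    rw [hw, norm_cpt, abs_of_nonneg (by linarith)]; linarith
  have hg := garsia hk hPB hρ0 hρ1 hwn
  refine ⟨k (ρ * w), ?_⟩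
  have hPK0 := PK_nonneg hwn
  have cPK := continuous_PK hwn
  have ck : Continuous (fun y : ℝ => k (cpt ρ y)) :=
    hk.continuousOn.comp_continuous (continuous_cpt_right ρ) fun y => by
      rw [mem_ball_zero_iff, norm_cpt, abs_of_pos hρ0]; exact hρ1
  have hper : ∀ y : ℝ, cpt ρ (y + 2 * Real.pi) = cpt ρ y := by
    intro y
    simp only [cpt]
    congr 1
    rw [Complex.exp_eq_exp_iff_exists_int]
    exact ⟨1, by push_cast; ring⟩
  have hper1 : ∀ y : ℝ, cpt 1 (y + 2 * Real.pi) = cpt 1 y := by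
    intro y
    simp only [cpt]
    congr 1
    rw [Complex.exp_eq_exp_iff_exists_int]
    exact ⟨1, by push_cast; ring⟩
  set Φ : ℝ → ℝ := fun y => PK w y * ‖k (cpt ρ y) - k (ρ * w)‖ ^ 2 with hΦ
  have hΦper : Function.Periodic Φ (2 * Real.pi) := by
    intro y
    simp only [hΦ, PK, hper, hper1]
  have hΦ0 : ∀ y, 0 ≤ Φ y := fun y => mul_nonneg (hPK0 y) (by positivity)
  have cΦ : Continuous Φ := cPK.mul ((ck.sub continuous_const).norm.pow 2)
  have hfull : ∫ y in a..(a + 2 * Real.pi), Φ y = ∫ y in (-Real.pi)..Real.pi, Φ y := by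
    have := hΦper.intervalIntegral_add_eq a (-Real.pi)
    rw [this]
    congr 1
    ring
  have hsubint : ∫ y in a..b, Φ y ≤ ∫ y in a..(a + 2 * Real.pi), Φ y := by
    refine intervalIntegral.integral_mono_interval le_rfl hab.le (by linarith) ?_ ?_
    · exact Eventually.of_forall fun y => hΦ0 y
    · exact cΦ.intervalIntegrable _ _
  have hlow : ∫ y in a..b, Real.pi / (h * (1 + Real.pi ^ 2)) * ‖k (cpt ρ y) - k (ρ * w)‖ ^ 2 ≤
      ∫ y in a..b, Φ y := by
    refine intervalIntegral.integral_mono_on hab.le ?_ (cΦ.intervalIntegrable _ _) fun y hy => ?_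
    · exact (continuous_const.mul ((ck.sub continuous_const).norm.pow 2)).intervalIntegrable _ _
    · refine mul_le_mul_of_nonneg_right ?_ (by positivity)
      refine PK_lower hh0 hh1 ?_
      rw [abs_le]
      constructor
      · rw [hα, hh]; linarith [hy.1]
      · rw [hα, hh]; linarith [hy.2]
  rw [intervalIntegral.integral_const_mul] at hlow
  have htot : Real.pi / (h * (1 + Real.pi ^ 2)) * ∫ y in a..b, ‖k (cpt ρ y) - k (ρ * w)‖ ^ 2 ≤
      8 * Real.pi * Λ ^ 2 := by
    calc _ ≤ _ := hlow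
      _ ≤ _ := hsubint
      _ = _ := hfull
      _ ≤ _ := hg
  have hba : b - a = 2 * h := by rw [hh]; ring
  rw [hba]
  rw [div_mul_eq_mul_div, div_le_iff₀ (by positivity)] at htot
  have h7 : Real.pi * ∫ y in a..b, ‖k (cpt ρ y) - k (ρ * w)‖ ^ 2 ≤
      Real.pi * (2 * h * (4 * (1 + Real.pi ^ 2) * Λ ^ 2)) := by
    refine htot.trans (le_of_eq ?_)
    ring
  exact le_of_mul_le_mul_left h7 hpi

end

end Pool.Agent.Lib.MP_7d928b_an

/-!
The boundary function of the kernel and its mean oscillation.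
-/

namespace Pool.Agent.Lib.MP_7d928b_an

open MeasureTheory Set Filter Topology Metric
open scoped ComplexConjugate

noncomputable section

lemma PK_zero (y : ℝ) : PK 0 y = 1 := by
  unfold PK
  rw [sub_zero, norm_cpt, norm_zero]
  simp

/-- The Taylor coefficients of the kernel are square summable. -/
theorem summable_sq {k : ℂ → ℂ} {Λ : ℝ} (hk : DifferentiableOn ℂ k (ball 0 1)) (hPB : PB k Λ) :
    Summable (fun n => ‖cf k n‖ ^ 2) := by
  have hpi := Real.pi_pos
  have hpi' : (-Real.pi) ≤ Real.pi := by linarith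
  set B : ℝ := 8 * Λ ^ 2 + 2 * ‖k 0‖ ^ 2 with hB
  refine summable_of_sum_range_le (c := B) (fun n => by positivity) fun N => ?_
  -- bound for each radius
  have hρ : ∀ ρ : ℝ, 0 < ρ → ρ < 1 → ∑ n ∈ Finset.range N, ‖cf k n‖ ^ 2 * (ρ ^ n) ^ 2 ≤ B := by
    intro ρ hρ0 hρ1
    have ck : Continuous (fun y : ℝ => k (cpt ρ y)) :=
      hk.continuousOn.comp_continuous (continuous_cpt_right ρ) fun y => by
        rw [mem_ball_zero_iff, norm_cpt, abs_of_pos hρ0]; exact hρ1
    have h1 := hasSum_pairing hk hk hρ0.le hρ1 hρ0.le hρ1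
    have e1 : (fun n : ℕ => 2 * (Real.pi : ℂ) * (cf k n * (ρ : ℂ) ^ n) *
        conj (cf k n * (ρ : ℂ) ^ n)) =
        fun n : ℕ => ((2 * Real.pi * (‖cf k n‖ ^ 2 * (ρ ^ n) ^ 2) : ℝ) : ℂ) := by
      funext n
      rw [mul_assoc, Complex.mul_conj, Complex.normSq_eq_norm_sq, norm_mul, norm_pow,
        Complex.norm_real, Real.norm_eq_abs, abs_of_pos hρ0]
      push_cast
      ring
    have e2 : ∀ y : ℝ, k (cpt ρ y) * conj (k (cpt ρ y)) = ((‖k (cpt ρ y)‖ ^ 2 : ℝ) : ℂ) := by
      intro y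
      rw [Complex.mul_conj, Complex.normSq_eq_norm_sq]
    rw [e1] at h1
    simp_rw [e2] at h1
    rw [intervalIntegral.integral_ofReal] at h1
    have h2 : HasSum (fun n : ℕ => 2 * Real.pi * (‖cf k n‖ ^ 2 * (ρ ^ n) ^ 2))
        (∫ y in (-Real.pi)..Real.pi, ‖k (cpt ρ y)‖ ^ 2) := Complex.hasSum_ofReal.1 h1
    have h3 : ∑ n ∈ Finset.range N, 2 * Real.pi * (‖cf k n‖ ^ 2 * (ρ ^ n) ^ 2) ≤
        ∫ y in (-Real.pi)..Real.pi, ‖k (cpt ρ y)‖ ^ 2 :=
      sum_le_hasSum _ (fun n _ => by positivity) h2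
    have h4 : ∫ y in (-Real.pi)..Real.pi, ‖k (cpt ρ y)‖ ^ 2 ≤
        ∫ y in (-Real.pi)..Real.pi, (2 * ‖k (cpt ρ y) - k 0‖ ^ 2 + 2 * ‖k 0‖ ^ 2) := by
      refine intervalIntegral.integral_mono_on hpi' ?_ ?_ fun y _ => ?_
      · exact (ck.norm.pow 2).intervalIntegrable _ _
      · exact ((continuous_const.mul ((ck.sub continuous_const).norm.pow 2)).add
          continuous_const).intervalIntegrable _ _
      · have h5 : ‖k (cpt ρ y)‖ ≤ ‖k (cpt ρ y) - k 0‖ + ‖k 0‖ := by
          have := norm_add_le (k (cpt ρ y) - k 0) (k 0)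
          rwa [sub_add_cancel] at this
        nlinarith [norm_nonneg (k (cpt ρ y)), norm_nonneg (k (cpt ρ y) - k 0), norm_nonneg (k 0),
          sq_nonneg (‖k (cpt ρ y) - k 0‖ - ‖k 0‖)]
    have h6 := garsia hk hPB hρ0 hρ1 (a := 0) (by simp)
    simp only [PK_zero, one_mul, mul_zero] at h6
    rw [intervalIntegral.integral_add, intervalIntegral.integral_const_mul,
      intervalIntegral.integral_const] at h4
    · rw [← Finset.mul_sum] at h3
      have h7 : 2 * Real.pi * ∑ n ∈ Finset.range N, ‖cf k n‖ ^ 2 * (ρ ^ n) ^ 2 ≤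
          2 * Real.pi * B := by
        refine h3.trans (h4.trans ?_)
        rw [hB, smul_eq_mul]
        linarith
      exact le_of_mul_le_mul_left h7 (by positivity)
    · exact (continuous_const.mul ((ck.sub continuous_const).norm.pow 2)).intervalIntegrable _ _
    · exact continuous_const.intervalIntegrable _ _
  -- pass to the limit
  have hlim : Tendsto (fun ρ : ℝ => ∑ n ∈ Finset.range N, ‖cf k n‖ ^ 2 * (ρ ^ n) ^ 2) (𝓝[<] 1)
      (𝓝 (∑ n ∈ Finset.range N, ‖cf k n‖ ^ 2)) := by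
    have hc : Continuous (fun ρ : ℝ => ∑ n ∈ Finset.range N, ‖cf k n‖ ^ 2 * (ρ ^ n) ^ 2) := by
      fun_prop
    have := (hc.tendsto 1).mono_left (nhdsWithin_le_nhds (s := Iio (1 : ℝ)))
    simpa using this
  refine le_of_tendsto hlim ?_
  filter_upwards [Ioo_mem_nhdsLT (show (0 : ℝ) < 1 by norm_num)] with ρ hρm
  exact hρ ρ hρm.1 hρm.2

/-- coefficients indexed by integers -/
def cz (k : ℂ → ℂ) (n : ℤ) : ℂ := if 0 ≤ n then cf k n.toNat else 0

lemma summable_cz {k : ℂ → ℂ} (h : Summable (fun n => ‖cf k n‖ ^ 2)) :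
    Summable (fun n : ℤ => ‖cz k n‖ ^ 2) := by
  refine Summable.of_nat_of_neg_add_one ?_ ?_
  · refine h.congr fun n => ?_
    simp [cz]
  · refine summable_zero.congr fun n => ?_
    have : ¬ (0 : ℤ) ≤ -((n : ℤ) + 1) := by omega
    rw [cz, if_neg this]
    simp

lemma hTT : (0 : ℝ) < Real.pi - -Real.pi := by linarith [Real.pi_pos]

lemma hlt : -Real.pi < Real.pi := by linarith [Real.pi_pos]

theorem exists_boundary {k : ℂ → ℂ} (hk : DifferentiableOn ℂ k (ball 0 1))
    (hs : Summable (fun n => ‖cf k n‖ ^ 2)) :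
    ∃ φ : ℝ → ℂ, Function.Periodic φ (2 * Real.pi) ∧
      MemLp φ 2 (volume.restrict (Ioc (-Real.pi) Real.pi)) ∧
      Tendsto (fun r : ℝ => ∫ y in (-Real.pi)..Real.pi, ‖k (cpt r y) - φ y‖ ^ 2) (𝓝[<] 1) (𝓝 0) := by
  have : Fact (0 < Real.pi - -Real.pi) := ⟨hTT⟩
  have hsz := summable_cz hs
  have hmem : Memℓp (cz k) 2 := by
    refine memℓp_gen ?_
    simpa using hsz
  set Φ : Lp ℂ 2 (AddCircle.haarAddCircle (T := Real.pi - -Real.pi)) :=
    fourierBasis.repr.symm ⟨cz k, hmem⟩ with hΦ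
  have hΦc : ∀ n : ℤ, fourierCoeff Φ n = cz k n := by
    intro n
    rw [← fourierBasis_repr, hΦ, LinearIsometryEquiv.apply_symm_apply]
  set φ : ℝ → ℂ := fun y => Φ (y : AddCircle (Real.pi - -Real.pi)) with hφ
  have hper : Function.Periodic φ (2 * Real.pi) := by
    intro y
    simp only [hφ]
    congr 1
    have e : y + 2 * Real.pi = y + (Real.pi - -Real.pi) := by ring
    rw [e, AddCircle.coe_add_period]
  have hLp : MemLp φ 2 (volume.restrict (Ioc (-Real.pi) Real.pi)) := by
    have h1 : MemLp Φ 2 (volume : Measure (AddCircle (Real.pi - -Real.pi))) :=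
      (Lp.memLp Φ).of_haarAddCircle
    have h2 := AddCircle.measurePreserving_mk (Real.pi - -Real.pi) (-Real.pi)
    have h3 := h1.comp_measurePreserving h2
    rw [add_sub_cancel] at h3
    exact h3
  have hφc : ∀ n : ℤ, fourierCoeffOn hlt φ n = cz k n := by
    intro n
    rw [fourierCoeffOn_eq_integral, ← hΦc, fourierCoeff_eq_intervalIntegral _ _ (-Real.pi),
      add_sub_cancel]
  refine ⟨φ, hper, hLp, ?_⟩
  -- Parseval
  have hkc : ∀ r : ℝ, 0 < r → r < 1 → ∀ n : ℤ,
      fourierCoeffOn hlt (fun y => k (cpt r y)) n = cz k n * (r : ℂ) ^ n.toNat := by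
    intro r hr0 hr1 n
    have h1 := coef_integral hk hr0.le hr1 n
    rw [fourierCoeffOn_eq_integral]
    have e : ∀ y : ℝ, (fourier (-n) (y : AddCircle (Real.pi - -Real.pi)) : ℂ) • k (cpt r y) =
        Complex.exp (-(n * y * Complex.I)) * k (cpt r y) := by
      intro y
      rw [fourier_coe_apply, smul_eq_mul]
      congr 2
      have : (Real.pi : ℂ) ≠ 0 := by exact_mod_cast Real.pi_ne_zero
      push_cast
      field_simp
      ring
    simp_rw [e]
    rw [h1, cz]
    by_cases hn : 0 ≤ n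
    · rw [if_pos hn, if_pos hn, Complex.real_smul]
      have : (Real.pi : ℂ) ≠ 0 := by exact_mod_cast Real.pi_ne_zero
      push_cast
      field_simp
      ring
    · rw [if_neg hn, if_neg hn]; simp
  have hpars : ∀ r : ℝ, 0 < r → r < 1 →
      ∫ y in (-Real.pi)..Real.pi, ‖k (cpt r y) - φ y‖ ^ 2 =
        2 * Real.pi * ∑' n : ℤ, ‖cz k n * (((r : ℂ) ^ n.toNat) - 1)‖ ^ 2 := by
    intro r hr0 hr1
    have ck : Continuous (fun y : ℝ => k (cpt r y)) :=
      hk.continuousOn.comp_continuous (continuous_cpt_right r) fun y => by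
        rw [mem_ball_zero_iff, norm_cpt, abs_of_pos hr0]; exact hr1
    have hkL : MemLp (fun y => k (cpt r y)) 2 (volume.restrict (Ioc (-Real.pi) Real.pi)) := by
      obtain ⟨C, hC⟩ := (isCompact_Icc (a := -Real.pi) (b := Real.pi)).exists_bound_of_continuousOn
        ck.continuousOn
      have : IsFiniteMeasure (volume.restrict (Ioc (-Real.pi) Real.pi)) :=
        ⟨by rw [Measure.restrict_apply_univ]; exact measure_Ioc_lt_top⟩
      refine MemLp.of_bound ck.aestronglyMeasurable C ?_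
      exact (ae_restrict_iff' measurableSet_Ioc).2 (Eventually.of_forall fun y hy =>
        hC y (Ioc_subset_Icc_self hy))
    have hD := hkL.sub hLp
    have h1 := tsum_sq_fourierCoeffOn hlt hD
    have h2 : ∀ n : ℤ, fourierCoeffOn hlt ((fun y => k (cpt r y)) - φ) n =
        cz k n * (((r : ℂ) ^ n.toNat) - 1) := by
      intro n
      have h3 : fourierCoeffOn hlt ((fun y => k (cpt r y)) - φ) n =
          fourierCoeffOn hlt (fun y => k (cpt r y)) n - fourierCoeffOn hlt φ n := by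
        rw [fourierCoeffOn_eq_integral, fourierCoeffOn_eq_integral, fourierCoeffOn_eq_integral,
          ← smul_sub]
        rw [← intervalIntegral.integral_sub]
        · congr 1
          refine intervalIntegral.integral_congr fun y _ => ?_
          simp only [Pi.sub_apply, smul_eq_mul]
          ring
        · have hcf : Continuous (fun y : ℝ =>
              (fourier (-n) (y : AddCircle (Real.pi - -Real.pi)) : ℂ)) :=
            (map_continuous (fourier (-n))).comp (AddCircle.continuous_mk' _)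
          exact (hcf.smul ck).intervalIntegrable _ _
        · rw [intervalIntegrable_iff_integrableOn_Ioc_of_le hlt.le]
          have hint : Integrable φ (volume.restrict (Ioc (-Real.pi) Real.pi)) := by
            have : IsFiniteMeasure (volume.restrict (Ioc (-Real.pi) Real.pi)) :=
              ⟨by rw [Measure.restrict_apply_univ]; exact measure_Ioc_lt_top⟩
            exact hLp.integrable (by norm_num)
          have hcf : Continuous (fun y : ℝ =>
              (fourier (-n) (y : AddCircle (Real.pi - -Real.pi)) : ℂ)) :=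
            (map_continuous (fourier (-n))).comp (AddCircle.continuous_mk' _)
          have := hint.bdd_smul (φ := fun y : ℝ =>
              (fourier (-n) (y : AddCircle (Real.pi - -Real.pi)) : ℂ)) 1
            hcf.aestronglyMeasurable (Eventually.of_forall fun y => by
              rw [fourier_apply, Circle.norm_coe])
          exact this
      rw [h3, hkc r hr0 hr1 n, hφc]
      ring
    simp_rw [h2] at h1
    rw [h1, smul_eq_mul]
    have hpi := Real.pi_ne_zero
    have e5 : Real.pi - -Real.pi = 2 * Real.pi := by ring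
    rw [e5, ← mul_assoc, mul_inv_cancel₀ (by positivity), one_mul]
    rfl
  -- Tannery
  have hT : Tendsto (fun r : ℝ => ∑' n : ℤ, ‖cz k n * (((r : ℂ) ^ n.toNat) - 1)‖ ^ 2) (𝓝[<] 1)
      (𝓝 (∑' _n : ℤ, (0 : ℝ))) := by
    refine tendsto_tsum_of_dominated_convergence hsz (fun n => ?_) ?_
    · have hc : Continuous (fun r : ℝ => ‖cz k n * (((r : ℂ) ^ n.toNat) - 1)‖ ^ 2) := by fun_prop
      have := (hc.tendsto 1).mono_left (nhdsWithin_le_nhds (s := Iio (1 : ℝ)))
      simpa using this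
    · filter_upwards [Ioo_mem_nhdsLT (show (0 : ℝ) < 1 by norm_num)] with r hr n
      rw [Real.norm_eq_abs, abs_of_nonneg (by positivity), norm_mul]
      have h1 : ‖((r : ℂ) ^ n.toNat) - 1‖ ≤ 1 := by
        have e : ((r : ℂ) ^ n.toNat) - 1 = ((r ^ n.toNat - 1 : ℝ) : ℂ) := by push_cast; ring
        rw [e, Complex.norm_real, Real.norm_eq_abs, abs_le]
        have h2 : 0 ≤ r ^ n.toNat := by have := hr.1; positivity
        have h3 : r ^ n.toNat ≤ 1 := pow_le_one₀ hr.1.le hr.2.le
        constructor <;> linarith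
      refine pow_le_pow_left₀ (by positivity) ?_ 2
      exact mul_le_of_le_one_right (norm_nonneg _) h1
  rw [tsum_zero] at hT
  have hT2 := hT.const_mul (2 * Real.pi)
  rw [mul_zero] at hT2
  refine hT2.congr' ?_
  filter_upwards [Ioo_mem_nhdsLT (show (0 : ℝ) < 1 by norm_num)] with r hr
  exact (hpars r hr.1 hr.2).symm

end

end Pool.Agent.Lib.MP_7d928b_an

/-!
Mean oscillation of the boundary function.
-/

namespace Pool.Agent.Lib.MP_7d928b_an

open MeasureTheory Set Filter Topology Metric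
open scoped ComplexConjugate

noncomputable section

theorem bmo_bound {k : ℂ → ℂ} {Λ : ℝ} (hk : DifferentiableOn ℂ k (ball 0 1)) (hPB : PB k Λ)
    {φ : ℝ → ℂ} (hper : Function.Periodic φ (2 * Real.pi))
    (hLp : MemLp φ 2 (volume.restrict (Ioc (-Real.pi) Real.pi)))
    (hT : Tendsto (fun r : ℝ => ∫ y in (-Real.pi)..Real.pi, ‖k (cpt r y) - φ y‖ ^ 2)
      (𝓝[<] 1) (𝓝 0)) {a b : ℝ} (hab : a < b) (hab2 : b - a ≤ 2 * Real.pi) :
    (b - a)⁻¹ * ∫ θ in a..b, ‖φ θ - ((b - a)⁻¹ : ℝ) • ∫ t in a..b, φ t‖ ≤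
      3 + 4 * (1 + Real.pi ^ 2) * Λ ^ 2 := by
  have hpi := Real.pi_pos
  set I : ℝ := b - a with hI
  have hI0 : 0 < I := by rw [hI]; linarith
  have h2pi : (0 : ℝ) < 2 * Real.pi := by positivity
  have hfin : IsFiniteMeasure (volume.restrict (Ioc (-Real.pi) Real.pi)) :=
    ⟨by rw [Measure.restrict_apply_univ]; exact measure_Ioc_lt_top⟩
  obtain ⟨r, hr1, hr0, hr⟩ : ∃ r : ℝ, r < 1 ∧ 0 < r ∧
      ∫ y in (-Real.pi)..Real.pi, ‖k (cpt r y) - φ y‖ ^ 2 ≤ I := by
    have h1 := hT.eventually (Iic_mem_nhds hI0)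
    have h2 := (h1.and (Ioo_mem_nhdsLT (show (0 : ℝ) < 1 by norm_num))).exists
    obtain ⟨r, hr, hr'⟩ := h2
    exact ⟨r, hr'.2, hr'.1, hr⟩
  obtain ⟨c, hc⟩ := arc_bound hk hPB hr0 hr1 hab hab2
  have ck : Continuous (fun y : ℝ => k (cpt r y)) :=
    hk.continuousOn.comp_continuous (continuous_cpt_right r) fun y => by
      rw [mem_ball_zero_iff, norm_cpt, abs_of_pos hr0]; exact hr1
  have hkper : ∀ y : ℝ, cpt r (y + 2 * Real.pi) = cpt r y := by
    intro y
    simp only [cpt]
    congr 1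
    rw [Complex.exp_eq_exp_iff_exists_int]
    exact ⟨1, by push_cast; ring⟩
  set D : ℝ → ℝ := fun y => ‖k (cpt r y) - φ y‖ ^ 2 with hD
  have hDper : Function.Periodic D (2 * Real.pi) := by
    intro y
    simp only [hD, hkper, hper y]
  have hD0 : ∀ y, 0 ≤ D y := fun y => by simp only [hD]; positivity
  -- integrability
  have hkL : MemLp (fun y => k (cpt r y)) 2 (volume.restrict (Ioc (-Real.pi) Real.pi)) := by
    obtain ⟨C, hC⟩ := (isCompact_Icc (a := -Real.pi) (b := Real.pi)).exists_bound_of_continuousOn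
      ck.continuousOn
    refine MemLp.of_bound ck.aestronglyMeasurable C ?_
    exact (ae_restrict_iff' measurableSet_Ioc).2 (Eventually.of_forall fun y hy =>
      hC y (Ioc_subset_Icc_self hy))
  have e2 : (-Real.pi + 2 * Real.pi) = Real.pi := by ring
  have hDi0 : IntervalIntegrable D volume (-Real.pi) (-Real.pi + 2 * Real.pi) := by
    rw [e2, intervalIntegrable_iff_integrableOn_Ioc_of_le hlt.le]
    exact (hkL.sub hLp).integrable_norm_pow (p := 2) (by norm_num)
  have hφi0 : IntervalIntegrable φ volume (-Real.pi) (-Real.pi + 2 * Real.pi) := by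
    rw [e2, intervalIntegrable_iff_integrableOn_Ioc_of_le hlt.le]
    exact hLp.integrable (by norm_num)
  have hDi : ∀ s t : ℝ, IntervalIntegrable D volume s t := hDper.intervalIntegrable h2pi.ne' hDi0
  have hφi : ∀ s t : ℝ, IntervalIntegrable φ volume s t := hper.intervalIntegrable h2pi.ne' hφi0
  -- bound on D
  have hDab : ∫ y in a..b, D y ≤ I := by
    have h1 : ∫ y in a..b, D y ≤ ∫ y in a..(a + 2 * Real.pi), D y := by
      refine intervalIntegral.integral_mono_interval le_rfl hab.le (by linarith) ?_ (hDi _ _)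
      exact Eventually.of_forall fun y => hD0 y
    have h2 : ∫ y in a..(a + 2 * Real.pi), D y = ∫ y in (-Real.pi)..Real.pi, D y := by
      rw [hDper.intervalIntegral_add_eq a (-Real.pi), e2]
    rw [h2] at h1
    exact h1.trans hr
  have hφc : IntervalIntegrable (fun y => ‖φ y - c‖) volume a b :=
    ((hφi a b).sub intervalIntegrable_const).norm
  have hint1 : IntervalIntegrable (fun y => ‖k (cpt r y) - c‖ ^ 2) volume a b :=
    ((ck.sub continuous_const).norm.pow 2).intervalIntegrable _ _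
  have hmain : ∫ y in a..b, ‖φ y - c‖ ≤ I * ((3 + 4 * (1 + Real.pi ^ 2) * Λ ^ 2) / 2) := by
    have h1 : ∫ y in a..b, ‖φ y - c‖ ≤
        ∫ y in a..b, (1 + (1 / 2) * D y + (1 / 2) * ‖k (cpt r y) - c‖ ^ 2) := by
      refine intervalIntegral.integral_mono_on hab.le hφc ?_ fun y _ => ?_
      · exact (intervalIntegrable_const.add ((hDi a b).const_mul _)).add (hint1.const_mul _)
      · have h2 : ‖φ y - c‖ ≤ ‖k (cpt r y) - φ y‖ + ‖k (cpt r y) - c‖ := by
          have := norm_add_le (φ y - k (cpt r y)) (k (cpt r y) - c)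
          rw [sub_add_sub_cancel, norm_sub_rev (φ y) (k (cpt r y))] at this
          exact this
        simp only [hD]
        nlinarith [sq_nonneg (‖k (cpt r y) - φ y‖ - 1), sq_nonneg (‖k (cpt r y) - c‖ - 1)]
    rw [intervalIntegral.integral_add (intervalIntegrable_const.add ((hDi a b).const_mul _))
      (hint1.const_mul _), intervalIntegral.integral_add intervalIntegrable_const
      ((hDi a b).const_mul _), intervalIntegral.integral_const_mul,
      intervalIntegral.integral_const_mul, intervalIntegral.integral_const, ← hI, smul_eq_mul,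
      mul_one] at h1
    nlinarith
  -- the mean
  set m : ℂ := (I⁻¹ : ℝ) • ∫ t in a..b, φ t with hm
  have hcm : ‖c - m‖ ≤ I⁻¹ * ∫ y in a..b, ‖φ y - c‖ := by
    have h1 : c - m = -((I⁻¹ : ℝ) • ∫ t in a..b, (φ t - c)) := by
      rw [intervalIntegral.integral_sub (hφi a b) intervalIntegrable_const,
        intervalIntegral.integral_const, ← hI, smul_sub, ← hm, smul_smul,
        inv_mul_cancel₀ hI0.ne', one_smul]
      ring
    rw [h1, norm_neg, norm_smul, Real.norm_eq_abs, abs_of_pos (inv_pos.2 hI0)]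
    refine mul_le_mul_of_nonneg_left ?_ (inv_pos.2 hI0).le
    exact intervalIntegral.norm_integral_le_integral_norm hab.le
  have hfin2 : ∫ θ in a..b, ‖φ θ - m‖ ≤ 2 * ∫ y in a..b, ‖φ y - c‖ := by
    have h1 : ∫ θ in a..b, ‖φ θ - m‖ ≤ ∫ θ in a..b, (‖φ θ - c‖ + ‖c - m‖) := by
      refine intervalIntegral.integral_mono_on hab.le
        ((hφi a b).sub intervalIntegrable_const).norm (hφc.add intervalIntegrable_const)
        fun y _ => ?_
      have := norm_add_le (φ y - c) (c - m)
      rwa [sub_add_sub_cancel] at this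
    rw [intervalIntegral.integral_add hφc intervalIntegrable_const,
      intervalIntegral.integral_const, ← hI, smul_eq_mul] at h1
    have h2 : I * ‖c - m‖ ≤ ∫ y in a..b, ‖φ y - c‖ := by
      calc I * ‖c - m‖ ≤ I * (I⁻¹ * ∫ y in a..b, ‖φ y - c‖) :=
            mul_le_mul_of_nonneg_left hcm hI0.le
        _ = _ := by rw [← mul_assoc, mul_inv_cancel₀ hI0.ne', one_mul]
    linarith
  rw [inv_mul_le_iff₀ hI0]
  linarith

end

end Pool.Agent.Lib.MP_7d928b_an
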